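import Mathlib

/-!
# Pliss rows by first hitting times
-/

set_option autoImplicit false

namespace Pool.S6C

open Set

/-- `Q` is a minimum of `f` on `[0, Q]`. -/
def MinAt (f : ℝ → ℝ) (Q : ℝ) : Prop := ∀ t : ℝ, 0 ≤ t → t ≤ Q → f Q ≤ f t

/-- A Lipschitz function maps null sets to null sets. -/
theorem image_null {f : ℝ → ℝ} {K : NNReal} (hf : LipschitzWith K f) {N : Set ℝ}
    (hN : MeasureTheory.volume N = 0) : MeasureTheory.volume (f '' N) = 0 := by
  have h := (hf.lipschitzOnWith (s := N)).hausdorffMeasure_image_le (d := 1) zero_le_one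
  rw [MeasureTheory.hausdorffMeasure_real, hN, mul_zero] at h
  exact le_antisymm h (zero_le)

/-- **First hitting times.** Near `1` there are numbers `P₀` outside a given null set at which `f`
is minimal on `[0, P₀]`, and which are limits from the right of such numbers. -/
theorem exists_hit {f : ℝ → ℝ} {L : NNReal} (hf : LipschitzWith L f) {c : ℝ} (hc : 0 < c)
    (h1 : ∀ t : ℝ, 0 ≤ t → t ≤ 1 → f 1 + c * (1 - t) ≤ f t) {δ : ℝ} (hδ : 0 < δ)
    (hδ1 : δ ≤ 1) {N : Set ℝ} (hN : MeasureTheory.volume N = 0) :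
    ∃ P₀ : ℝ, 1 - δ < P₀ ∧ P₀ < 1 ∧ P₀ ∉ N ∧ MinAt f P₀ ∧ ∀ ε : ℝ, 0 < ε →
      ∃ P₁ : ℝ, P₀ < P₁ ∧ P₁ < P₀ + ε ∧ P₁ < 1 ∧ P₁ ∉ N ∧ MinAt f P₁ := by
  classical
  have hfc := hf.continuous
  obtain ⟨K, hK⟩ : ∃ K : ℝ → Set ℝ, K = fun v => Icc 0 1 ∩ {t | f t ≤ max v (f 1)} := ⟨_, rfl⟩
  obtain ⟨q, hq⟩ : ∃ q : ℝ → ℝ, q = fun v => sInf (K v) := ⟨_, rfl⟩
  have hKc : ∀ v, IsCompact (K v) := fun v => by
    rw [hK]
    exact isCompact_Icc.inter_right (isClosed_le hfc continuous_const)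
  have hKn : ∀ v, (K v).Nonempty := fun v => by
    rw [hK]
    have h3 : f 1 ≤ max v (f 1) := le_max_right _ _
    exact ⟨1, ⟨zero_le_one, le_rfl⟩, h3⟩
  have hKb : ∀ v, BddBelow (K v) := fun v => by
    rw [hK]
    exact ⟨0, fun t ht => ht.1.1⟩
  have hmem : ∀ v, f 1 < v → q v ∈ Icc (0 : ℝ) 1 ∧ f (q v) ≤ v := fun v hv => by
    have h2 := (hKc v).sInf_mem (hKn v)
    have h4 : q v ∈ Icc (0 : ℝ) 1 ∩ {t | f t ≤ max v (f 1)} := by
      have h5 : K v = Icc (0 : ℝ) 1 ∩ {t | f t ≤ max v (f 1)} := by rw [hK]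
      rw [← h5, hq]
      exact h2
    have h3 : f (q v) ≤ max v (f 1) := h4.2
    rw [max_eq_left hv.le] at h3
    exact ⟨h4.1, h3⟩
  have hlow : ∀ v t, 0 ≤ t → t ≤ 1 → t < q v → v < f t := by
    intro v t h0 h1' ht
    by_contra hcon
    push Not at hcon
    have : t ∈ K v := by
      rw [hK]
      exact ⟨⟨h0, h1'⟩, hcon.trans (le_max_left _ _)⟩
    have h2 := csInf_le (hKb v) this
    rw [hq] at ht
    linarith
  have hanti : Antitone q := by
    intro v v' hv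
    rw [hq]
    refine csInf_le_csInf (hKb v') (hKn v) ?_
    rw [hK]
    rintro t ⟨a1, a2⟩
    exact ⟨a1, le_trans a2 (max_le_max hv le_rfl)⟩
  have hlt : ∀ v, f 1 < v → q v < 1 := by
    intro v hv
    have : ∀ᶠ t in nhds (1 : ℝ), f t < v := (hfc.tendsto 1).eventually (gt_mem_nhds hv)
    obtain ⟨e, he, hb⟩ := Metric.eventually_nhds_iff.1 this
    obtain ⟨t, ht⟩ : ∃ t, t = max 0 (1 - e / 2) := ⟨_, rfl⟩
    have t0 : 0 ≤ t := by rw [ht]; exact le_max_left _ _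
    have t1 : t < 1 := by rw [ht]; exact max_lt one_pos (by linarith)
    have t2 : 1 - e / 2 ≤ t := by rw [ht]; exact le_max_right _ _
    have hft : f t < v := hb (by rw [Real.dist_eq, abs_lt]; constructor <;> linarith)
    by_contra hcon
    push Not at hcon
    have := hlow v t t0 t1.le (by linarith)
    linarith
  have hval : ∀ v, f 1 < v → v < f 1 + c → f (q v) = v := by
    intro v hv hv2
    obtain ⟨hm1, hm2⟩ := hmem v hv
    by_contra hcon
    have hlt' : f (q v) < v := lt_of_le_of_ne hm2 hcon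
    have hq0 : 0 < q v := by
      rcases lt_or_eq_of_le hm1.1 with h | h
      · exact h
      · rw [← h] at hlt'
        have := h1 0 le_rfl zero_le_one
        linarith
    have : ∀ᶠ t in nhds (q v), f t < v := (hfc.tendsto _).eventually (gt_mem_nhds hlt')
    obtain ⟨e, he, hb⟩ := Metric.eventually_nhds_iff.1 this
    obtain ⟨t, ht⟩ : ∃ t, t = max 0 (q v - e / 2) := ⟨_, rfl⟩
    have t0 : 0 ≤ t := by rw [ht]; exact le_max_left _ _
    have t1 : t < q v := by rw [ht]; exact max_lt hq0 (by linarith)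
    have t2 : q v - e / 2 ≤ t := by rw [ht]; exact le_max_right _ _
    have hft : f t < v := hb (by rw [Real.dist_eq, abs_lt]; constructor <;> linarith)
    have := hlow v t t0 (t1.le.trans hm1.2) t1
    linarith
  have hmin : ∀ v, f 1 < v → v < f 1 + c → MinAt f (q v) := by
    intro v hv hv2 t h0 ht
    rcases lt_or_eq_of_le ht with h | h
    · have := hlow v t h0 (ht.trans (hmem v hv).1.2) h
      rw [hval v hv hv2]
      exact this.le
    · rw [h]
  have hcd : c * δ ≤ c := by nlinarith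
  -- the bad levels
  obtain ⟨E, hE⟩ : ∃ E : Set ℝ, E = f '' N ∪ {v | ¬ ContinuousAt q v} := ⟨_, rfl⟩
  have hE0 : MeasureTheory.volume E = 0 := by
    rw [hE, MeasureTheory.measure_union_null_iff]
    exact ⟨image_null hf hN, hanti.countable_not_continuousAt.measure_zero _⟩
  have hpick : ∀ a b : ℝ, a < b → ∃ v ∈ Ioo a b, v ∉ E := by
    intro a b hab
    by_contra hcon
    push Not at hcon
    have h2 := MeasureTheory.measure_mono_null (μ := MeasureTheory.volume)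
      (s := Ioo a b) (t := E) hcon hE0
    rw [Real.volume_Ioo, ENNReal.ofReal_eq_zero] at h2
    linarith
  have hcδ : 0 < c * δ := by positivity
  obtain ⟨v₀, hv₀, hv₀E⟩ := hpick (f 1) (f 1 + c * δ) (by linarith)
  have a0 : v₀ < f 1 + c := hv₀.2.trans_le (by linarith)
  have hnot : ∀ v, f 1 < v → v < f 1 + c → v ∉ E → q v ∉ N := by
    intro v hv hv2 hvE hqN
    refine hvE ?_
    rw [hE]
    exact Or.inl ⟨q v, hqN, hval v hv hv2⟩
  refine ⟨q v₀, ?_, hlt v₀ hv₀.1, hnot v₀ hv₀.1 a0 hv₀E, hmin v₀ hv₀.1 a0, ?_⟩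
  · have e1 := hval v₀ hv₀.1 a0
    have hm := (hmem v₀ hv₀.1).1
    have e2 := h1 (q v₀) hm.1 hm.2
    have e3 : c * (1 - q v₀) < c * δ := by linarith [hv₀.2]
    have := lt_of_mul_lt_mul_left e3 hc.le
    linarith
  · intro ε hε
    have hcont : ContinuousAt q v₀ := by
      by_contra h
      refine hv₀E ?_
      rw [hE]
      exact Or.inr h
    obtain ⟨d, hd, hd'⟩ := Metric.continuousAt_iff.1 hcont ε hε
    obtain ⟨v₁, hv₁, hv₁E⟩ := hpick (max (f 1) (v₀ - d)) v₀ (max_lt hv₀.1 (by linarith))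
    have b1 : f 1 < v₁ := lt_of_le_of_lt (le_max_left _ _) hv₁.1
    have b2 : v₀ - d < v₁ := lt_of_le_of_lt (le_max_right _ _) hv₁.1
    have b3 : v₁ < f 1 + c := hv₁.2.trans a0
    refine ⟨q v₁, ?_, ?_, hlt v₁ b1, hnot v₁ b1 b3 hv₁E, hmin v₁ b1 b3⟩
    · refine lt_of_le_of_ne (hanti hv₁.2.le) fun h => ?_
      have e1 := hval v₀ hv₀.1 a0
      have e2 := hval v₁ b1 b3
      rw [← h, e1] at e2
      linarith [hv₁.2]
    · have := hd' (x := v₁) (by
        rw [Real.dist_eq, abs_lt]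
        constructor <;> linarith [hv₁.2])
      rw [Real.dist_eq, abs_lt] at this
      linarith [this.2]

/-- A monotone function of rational numbers is continuous outside a countable set. -/
theorem rat_cont {g : ℚ → ℝ} (hg : ∀ v w : ℚ, 0 ≤ v → v ≤ w → w ≤ 1 → g v ≤ g w) :
    ∃ D : Set ℝ, D.Countable ∧ ∀ x : ℝ, 0 < x → x < 1 → x ∉ D → ∀ e : ℝ, 0 < e →
      ∃ δ : ℝ, 0 < δ ∧ ∀ v v' : ℚ, |(v : ℝ) - x| < δ → |(v' : ℝ) - x| < δ →
        |g v - g v'| < e := by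
  classical
  obtain ⟨G, hG⟩ : ∃ G : ℝ → ℝ, G = fun x =>
      sSup ((fun v : ℚ => g v) '' {v : ℚ | 0 ≤ v ∧ v ≤ 1 ∧ (v : ℝ) ≤ max x 0}) := ⟨_, rfl⟩
  have hbd : ∀ x : ℝ, BddAbove ((fun v : ℚ => g v) '' {v : ℚ | 0 ≤ v ∧ v ≤ 1 ∧
      (v : ℝ) ≤ max x 0}) := by
    intro x
    refine ⟨g 1, ?_⟩
    rintro _ ⟨v, hv, rfl⟩
    exact hg v 1 hv.1 hv.2.1 le_rfl
  have hne : ∀ x : ℝ, ((fun v : ℚ => g v) '' {v : ℚ | 0 ≤ v ∧ v ≤ 1 ∧
      (v : ℝ) ≤ max x 0}).Nonempty := by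
    intro x
    exact ⟨g 0, 0, ⟨le_rfl, zero_le_one, by simp⟩, rfl⟩
  have hmono : Monotone G := by
    intro x y hxy
    rw [hG]
    refine csSup_le_csSup (hbd y) (hne x) ?_
    refine Set.image_mono ?_
    rintro v ⟨h0, h1, h2⟩
    exact ⟨h0, h1, h2.trans (max_le_max hxy le_rfl)⟩
  have hle : ∀ v : ℚ, 0 ≤ v → v ≤ 1 → g v ≤ G v := by
    intro v h0 h1
    rw [hG]
    refine le_csSup (hbd v) ⟨v, ⟨h0, h1, le_max_left _ _⟩, rfl⟩
  have hge : ∀ (v : ℚ) (x : ℝ), 0 ≤ v → v ≤ 1 → x < v → G x ≤ g v := by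
    intro v x h0 h1 hx
    rw [hG]
    refine csSup_le (hne x) ?_
    rintro _ ⟨u, hu, rfl⟩
    refine hg u v hu.1 ?_ h1
    have h0' : (0 : ℝ) ≤ v := by exact_mod_cast h0
    have : (u : ℝ) ≤ v := hu.2.2.trans (max_le hx.le h0')
    exact_mod_cast this
  refine ⟨{x | ¬ ContinuousAt G x}, hmono.countable_not_continuousAt, ?_⟩
  intro x hx0 hx1 hx e he
  have hc : ContinuousAt G x := by
    by_contra h
    exact hx h
  obtain ⟨d, hd, hd'⟩ := Metric.continuousAt_iff.1 hc (e / 2) (by linarith)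
  obtain ⟨δ, hδ⟩ : ∃ δ, δ = min (d / 2) (min x (1 - x)) := ⟨_, rfl⟩
  have hδ0 : 0 < δ := by
    rw [hδ]
    exact lt_min (by linarith) (lt_min hx0 (by linarith))
  have hδd : δ ≤ d / 2 := by rw [hδ]; exact min_le_left _ _
  have hδx : δ ≤ x := by rw [hδ]; exact (min_le_right _ _).trans (min_le_left _ _)
  have hδx' : δ ≤ 1 - x := by rw [hδ]; exact (min_le_right _ _).trans (min_le_right _ _)
  have key : ∀ v : ℚ, |(v : ℝ) - x| < δ → G x - e / 2 < g v ∧ g v < G x + e / 2 := by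
    intro v hv
    rw [abs_lt] at hv
    have v0 : (0 : ℚ) ≤ v := by
      have : (0 : ℝ) ≤ v := by linarith [hv.1]
      exact_mod_cast this
    have v1 : v ≤ 1 := by
      have : (v : ℝ) ≤ 1 := by linarith [hv.2]
      exact_mod_cast this
    have a1 := hle v v0 v1
    have a2 := hge v (x - δ) v0 v1 (by linarith [hv.1])
    have b1 : dist (G v) (G x) < e / 2 := hd' (by
      rw [Real.dist_eq, abs_lt]
      constructor <;> linarith [hv.1, hv.2])
    have b2 : dist (G (x - δ)) (G x) < e / 2 := hd' (by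
      rw [Real.dist_eq, abs_lt]
      constructor <;> linarith)
    rw [Real.dist_eq, abs_lt] at b1 b2
    constructor <;> linarith [b1.1, b1.2, b2.1, b2.2]
  refine ⟨δ, hδ0, fun v v' hv hv' => ?_⟩
  obtain ⟨a1, a2⟩ := key v hv
  obtain ⟨b1, b2⟩ := key v' hv'
  rw [abs_lt]
  constructor <;> linarith

end Pool.S6C
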