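import Pool.Agent.H42.PB.Ext
import Pool.Agent.H77.S6.LAB
import Pool.Agent.H80.S6C.Pls

/-!
# One-dimensional fans, `m = 3`: the numbers of a class, and the statements of the modules

All scales are proportions of the resolution `J`. Windows are rational numbers in `[0, 1]`. A row
`Q` is a real number in `(0, 1]`: labels are visible from the points at precision `Q J`. The row
`1` are the exact points.
-/

set_option autoImplicit false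

namespace Pool.S6C

open Finset Real
open Pool.Agent.H49.Ent Pool.Agent.H32.Dense Pool.STK Pool.KA Pool.KSAT Pool.K2S Pool.PB Pool.KS6

/-- A threshold property, which is true below `0` and false above `c`. -/
def capS (c : ℝ) (q : ℝ → Stat 3) (s : ℝ) : Stat 3 := fun J F A => s ≤ 0 ∨ (s ≤ c ∧ q s J F A)

/-- The fans at the points at precision `Q` are straight to precision `s`. -/
def qPi (i₀ : Fin 3) (Q s : ℝ) : Stat 3 := fun J F A =>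
  LineU i₀ (1 / 2 ^ ⌊s * J⌋₊) (ptq F ⌊Q * J⌋₊) F.d A

/-- Their direction is constant to precision `s` on the windows `w`. -/
def qRot (i₀ : Fin 3) (Q w s : ℝ) : Stat 3 := fun J F A =>
  RotU i₀ (1 / 2 ^ ⌊s * J⌋₊) (1 / 2 ^ ⌊s * J⌋₊) (ptq F ⌊Q * J⌋₊) (slam F ⌊w * J⌋₊) F.d A

/-- There are planks of thickness `s` for the windows `w`, visible at precision `Q`. -/
def qTh (i₀ : Fin 3) (Q w s : ℝ) : Stat 3 := fun J F A =>
  ∃ iu iN : Fin 3, (∀ j : Fin 3, j = i₀ ∨ j = iu ∨ j = iN) ∧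
    LABq F ⌊Q * J⌋₊ i₀ iu iN ⌊w * J⌋₊ 0 ⌊s * J⌋₊ 2 A

/-- The fans at exact points lie in planes to precision `s`. -/
def qS2 (s : ℝ) : Stat 3 := fun J F A => PlU 2 (1 / 2 ^ ⌊s * J⌋₊) (Fam.pt F) F.d A

/-- There are planks of thickness `t` for the windows `v`, visible at exact points, and the
velocities at exact points are straight to precision `s`, in the direction of the normals of these
planks. -/
def qSN (i₀ : Fin 3) (v t s : ℝ) : Stat 3 := fun J F A =>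
  ∃ iu iN : Fin 3, (∀ j : Fin 3, j = i₀ ∨ j = iu ∨ j = iN) ∧ ∃ y : F.Ω → Pln,
    (∀ ω, A ω → Inc i₀ iu iN ⌊v * J⌋₊ 0 ⌊t * J⌋₊ 2 (y ω) (F.t ω) (F.x ω) (F.d ω)) ∧
    (∃ φ : (Fin 3 → ℤ) × (ℕ × F.ζ) → Pln, ∀ ω, A ω → y ω = φ (ptq F J ω)) ∧
    (∃ ψ : ((Fin 3 → ℝ) × (Fin 3 → ℝ)) × F.ζ × ℕ → Pln, ∀ ω, A ω → y ω =
      ψ (slam F ⌊v * J⌋₊ ω)) ∧
    ∃ b k : (Fin 3 → ℤ) × (ℕ × F.ζ) → ℝ, ∀ ω, A ω →
      |fn i₀ iu iN (y ω).c (y ω).s (F.d ω) - b (ptq F J ω) - k (ptq F J ω) * F.d ω i₀| ≤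
        1 / 2 ^ ⌊s * J⌋₊

/-- **The numbers of the row `Q`**: straightness `pi`, constancy `rot w` of the directions,
thickness `th w` of the planks; and, at the row `1` only, the straightness `sN v t` in the direction
of the normals of the planks of thickness `t` for the windows `v`. -/
structure Row : Type where
  /-- straightness of the fans -/
  pi : ℝ
  /-- constancy of the directions on the windows `w` -/
  rot : ℚ → ℝ
  /-- thickness of the planks for the windows `w` -/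
  th : ℚ → ℝ
  /-- straightness in the direction of the normals (row `1` only) -/
  sN : ℚ → ℚ → ℝ

/-- `ρ` are the numbers of the row `Q` in the class `S`. -/
structure Rw (S : PCl 3) (i₀ : Fin 3) (Q : ℝ) (ρ : Row) : Prop where
  pi : PNum S (capS 1 (qPi i₀ Q)) ρ.pi
  rot : ∀ w : ℚ, 0 ≤ w → w ≤ 1 → PNum S (capS 1 (qRot i₀ Q w)) (ρ.rot w)
  th : ∀ w : ℚ, 0 ≤ w → w ≤ 1 → PNum S (capS Q (qTh i₀ Q w)) (ρ.th w)

theorem Rw.le {S S' : PCl 3} {i₀ : Fin 3} {Q : ℝ} {ρ : Row} (h : S'.Le S)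
    (hR : Rw S i₀ Q ρ) : Rw S' i₀ Q ρ :=
  ⟨hR.pi.le h, fun w h0 h1 => (hR.rot w h0 h1).le h, fun w h0 h1 => (hR.th w h0 h1).le h⟩

/-- **Pliss row**, in terms of the rate function `r` of the positions: in every interval below `Q`
the rate is at most `3 - c`. -/
def Plr (r : ℝ → ℝ) (c Q : ℝ) : Prop := ∀ P : ℝ, 0 ≤ P → P ≤ Q → r Q - r P ≤ (3 - c) * (Q - P)

/-- The same for the families of the class. -/
def PlsC (S : PCl 3) (c Q : ℝ) : Prop :=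
  ∀ P : ℝ, 0 ≤ P → P ≤ Q → ∀ h : ℝ, 0 < h → Clp S (fun J F A =>
    CH (Pool.Agent.H49.Ent.cond F.p A True) (F.X ⌊Q * J⌋₊) (fun ω => (F.X ⌊P * J⌋₊ ω, F.W ω)) ≤
      ((3 - c) * (Q - P) * Real.log 2 + h) * J)

theorem PlsC.le {S S' : PCl 3} {c Q : ℝ} (h : S'.Le S) (hP : PlsC S c Q) : PlsC S' c Q :=
  fun P h0 h1 e he => (hP P h0 h1 e he).le h

/-- Subclasses. -/
structure SubC (S' S : PCl 3) : Prop where
  ne : S'.Ne
  sub : ∀ (τ : ℝ) (J : ℕ) (F : Fam 3 J) (A : F.Ω → Prop), S'.St τ J F A → S.St τ J F A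

theorem SubC.le {S' S : PCl 3} (h : SubC S' S) : S'.Le S :=
  ⟨1, one_pos, fun τ _ _ J F A hA => h.sub τ J F A hA⟩

theorem SubC.refl {S : PCl 3} (h : S.Ne) : SubC S S := ⟨h, fun _ _ _ _ hA => hA⟩

theorem SubC.trans {S₁ S₂ S₃ : PCl 3} (h : SubC S₁ S₂) (h' : SubC S₂ S₃) : SubC S₁ S₃ :=
  ⟨h.ne, fun τ J F A hA => h'.sub τ J F A (h.sub τ J F A hA)⟩

/-- **The class**: a nonempty class of maximal families with one-dimensional fans. `σ Q` are the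
numbers of the row `Q`, for all rows outside a countable set `D`; `s₂` is the planarity of the fans
at exact points, `r` the rate function of the positions, `c` the constant of the Pliss rows. -/
structure Cs (S : PCl 3) (a R h₁ : ℝ) (i₀ : Fin 3) (c s₂ : ℝ) (r : ℝ → ℝ) (D : Set ℝ)
    (σ : ℝ → Row) : Prop where
  a1 : 1 < a
  R0 : 0 < R
  ub : UBa 3 a R
  h₁0 : 0 < h₁
  c0 : 0 < c
  ne : S.Ne
  st : ∀ (τ : ℝ) (J : ℕ) (F : Fam 3 J) (A : F.Ω → Prop), S.St τ J F A → Fam.Stt F a R τ A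
  lb : ∀ (τ : ℝ) (J : ℕ) (F : Fam 3 J) (A : F.Ω → Prop), S.St τ J F A → Lb F i₀ ⌊h₁ * J⌋₊ A
  cD : D.Countable
  D1 : (1 : ℝ) ∉ D
  row : ∀ Q : ℝ, 0 < Q → Q ≤ 1 → Q ∉ D → Rw S i₀ Q (σ Q)
  s2 : PNum S (capS 1 qS2) s₂
  sN : ∀ v t : ℚ, 0 ≤ v → v ≤ 1 → 0 ≤ t → t ≤ 1 → PNum S (capS 1 (qSN i₀ v t)) ((σ 1).sN v t)
  rate : ∀ P : ℝ, 0 ≤ P → P ≤ 1 → ∀ h : ℝ, 0 < h → Clp S (fun J F A =>
    |CH (Pool.Agent.H49.Ent.cond F.p A True) (F.X ⌊P * J⌋₊) F.W - r P * Real.log 2 * J| ≤ h * J)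
  lip : LipschitzWith 3 r
  mono : ∀ P Q : ℝ, 0 ≤ P → P ≤ Q → Q ≤ 1 → r P ≤ r Q
  tail : ∀ P : ℝ, 0 ≤ P → P ≤ 1 → r 1 - r P ≤ (3 - 2 * c) * (1 - P)

theorem Cs.le {S S' : PCl 3} {a R h₁ : ℝ} {i₀ : Fin 3} {c s₂ : ℝ} {r : ℝ → ℝ} {D : Set ℝ}
    {σ : ℝ → Row} (hC : Cs S a R h₁ i₀ c s₂ r D σ) (h : SubC S' S) :
    Cs S' a R h₁ i₀ c s₂ r D σ :=
  ⟨hC.a1, hC.R0, hC.ub, hC.h₁0, hC.c0, h.ne, fun τ J F A hA => hC.st τ J F A (h.sub τ J F A hA),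
    fun τ J F A hA => hC.lb τ J F A (h.sub τ J F A hA), hC.cD, hC.D1,
    fun Q h0 h1 hQ => (hC.row Q h0 h1 hQ).le h.le, hC.s2.le h.le,
    fun v t h0 h1 h2 h3 => (hC.sN v t h0 h1 h2 h3).le h.le,
    fun P h0 h1 e he => (hC.rate P h0 h1 e he).le h.le, hC.lip, hC.mono, hC.tail⟩

/-- `ws` is the window at which the planks of almost maximal thickness `Q` cease to exist. -/
def IsWs (Q : ℝ) (G : ℚ → ℝ) (ws : ℝ) : Prop :=
  (∀ e : ℝ, 0 < e → ∀ w : ℝ, ws < w → ∃ v : ℚ, 0 ≤ v ∧ v ≤ 1 ∧ (v : ℝ) < w ∧ Q - e ≤ G v) ∧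
    ∀ w : ℝ, w < ws → ∃ e : ℝ, 0 < e ∧ ∀ v : ℚ, 0 ≤ v → (v : ℝ) ≤ w → G v < Q - e

/-- **The data at a Pliss row `Q`** near the top: `ws` is the critical window, for the planks which
are visible at precision `Q` and for the planks which are visible at exact points; there are planks
of thickness almost `Q` on windows on which the directions turn. -/
structure PR (c : ℝ) (r : ℝ → ℝ) (D : Set ℝ) (σ : ℝ → Row) (Q ws : ℝ) : Prop where
  half : 1 / 2 ≤ Q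
  lt1 : Q < 1
  nD : Q ∉ D
  plr : Plr r c Q
  isWs : IsWs Q (σ Q).th ws
  isWs1 : IsWs Q (σ 1).th ws
  ws0 : 0 < ws
  pk : ∀ e : ℝ, 0 < e → ∃ v : ℚ, 0 < v ∧ (v : ℝ) < Q ∧ (σ Q).rot v < (σ Q).pi ∧
    (σ 1).rot v < (σ 1).pi ∧ Q - e ≤ (σ Q).th v
  pk' : ∀ e : ℝ, 0 < e → ∃ v v' : ℚ, 0 < v ∧ v < v' ∧ v' < 1 ∧ (v : ℝ) < Q ∧
    (σ Q).rot v' < (σ Q).pi ∧ (σ 1).rot v' < (σ 1).pi ∧ Q - e ≤ (σ Q).th v

/-- **The plank at the window `v₁`**, which is above the critical windows of the rows of `K`: the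
directions turn on the windows `v₁`, the thickness `t` is less than the thickness of the planks, by
less than `e₁`. -/
structure Adm (σ : ℝ → Row) (K : Set ℝ) (W : ℝ → ℝ) (v₁ t : ℚ) (e₁ : ℝ) : Prop where
  v1 : v₁ < 1
  t0 : 0 < t
  e0 : 0 < e₁
  e8 : 8 * e₁ < (σ 1).pi - (σ 1).rot v₁
  lt : (t : ℝ) < (σ 1).th v₁
  gt : (σ 1).th v₁ - e₁ < t
  th1 : (σ 1).th v₁ < 1
  ab : ∀ Q ∈ K, W Q < v₁
  vel : ∀ Q ∈ K, Q - W Q < t - v₁ + e₁

theorem Adm.sub {σ : ℝ → Row} {K K' : Set ℝ} {W : ℝ → ℝ} {v₁ t : ℚ} {e₁ : ℝ}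
    (h : Adm σ K W v₁ t e₁) (hK : K' ⊆ K) : Adm σ K' W v₁ t e₁ :=
  ⟨h.v1, h.t0, h.e0, h.e8, h.lt, h.gt, h.th1, fun Q hQ => h.ab Q (hK hQ), fun Q hQ => h.vel Q (hK hQ)⟩

/-! ### The modules -/

/-- **(TOP)** At a Pliss row near `1` there are planks of thickness almost `Q` on windows `w`, and
the directions turn on the windows of an interval above `w` (or the windows are arbitrarily large).
The proof uses theorem PP for the zooms. -/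
def TOPStmt : Prop :=
  ∀ (S : PCl 3) (a R h₁ : ℝ) (i₀ : Fin 3) (c s₂ : ℝ) (r : ℝ → ℝ) (D : Set ℝ) (σ : ℝ → Row),
    Cs S a R h₁ i₀ c s₂ r D σ → ∃ Q₀ : ℝ, Q₀ < 1 ∧ ∀ Q : ℝ, Q₀ ≤ Q → 1 / 2 ≤ Q → Q ≤ 1 →
    Q ∉ D → Plr r c Q → ∀ e x : ℝ, 0 < e → 0 < x → ∃ w w' : ℚ, 0 < w ∧ w < w' ∧ w' < 1 ∧
      Q - e ≤ (σ Q).th w ∧ ((σ Q).rot w' < (σ Q).pi ∨ (w' : ℝ) ≤ x)

/-- **(PU)** Exact planks of thickness almost `Q` give planks of thickness almost `Q` which are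
visible at precision `Q`, if `Q` is a Pliss row; the directions turn at the windows up to `w'`. -/
def PUStmt : Prop :=
  ∀ (S : PCl 3) (a R h₁ : ℝ) (i₀ : Fin 3) (c s₂ : ℝ) (r : ℝ → ℝ) (D : Set ℝ) (σ : ℝ → Row),
    Cs S a R h₁ i₀ c s₂ r D σ → ∃ C : ℝ, 0 ≤ C ∧ ∀ Q : ℝ, 1 / 2 ≤ Q → Q < 1 → Q ∉ D →
    Plr r c Q → ∀ w w' : ℚ, 0 < w → w < w' → (w' : ℝ) ≤ Q → (σ 1).rot w' < (σ 1).pi →
    (σ 1).rot w' < (σ Q).pi → Q - C * max 0 (Q - (σ 1).th w) ≤ (σ Q).th w'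

/-- **(ENG)** The engine: at the Pliss rows `Q` of a set of positive measure, the velocities at exact
points are not straight, in the direction of the normals, to a precision above the one given by the
planks at the critical window. -/
def ENGStmt : Prop :=
  ∀ (S : PCl 3) (a R h₁ : ℝ) (i₀ : Fin 3) (c s₂ : ℝ) (r : ℝ → ℝ) (D : Set ℝ) (σ : ℝ → Row),
    Cs S a R h₁ i₀ c s₂ r D σ → ∀ (K : Set ℝ) (W : ℝ → ℝ) (v₁ t : ℚ) (e₁ : ℝ),
    MeasureTheory.volume K ≠ 0 → (∀ Q ∈ K, PR c r D σ Q (W Q)) → Adm σ K W v₁ t e₁ →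
    (∀ Q ∈ K, Q - W Q < (σ 1).sN v₁ t) → False

/-- **(PZ)** The plank zoom: the straightness at exact points in the direction of the normals cannot
be equal to the one given by the planks at the critical window, at the Pliss rows of a set of
positive measure. The proof uses theorem PP for the zooms. -/
def PZStmt : Prop :=
  ∀ (S : PCl 3) (a R h₁ : ℝ) (i₀ : Fin 3) (c s₂ : ℝ) (r : ℝ → ℝ) (D : Set ℝ) (σ : ℝ → Row),
    Cs S a R h₁ i₀ c s₂ r D σ → ∀ (K : Set ℝ) (W : ℝ → ℝ) (v₁ t : ℚ) (e₁ : ℝ),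
    MeasureTheory.volume K ≠ 0 → (∀ Q ∈ K, PR c r D σ Q (W Q)) → Adm σ K W v₁ t e₁ →
    (∀ Q ∈ K, Q - W Q = (σ 1).sN v₁ t) → False

end Pool.S6C
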