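import Pool.Agent.H42.PB.Ext

/-!
# Entropies as numbers of a class

The number of values of a function on an event is a hereditary quantity, so it has a threshold in
a suitable subclass (`ext_num`). If the number of values cannot be decreased by going to large
subevents, the logarithm of the number of values is the entropy: so the entropy of the function,
conditioned on the event, is a number of the class.
-/

set_option autoImplicit false

namespace Pool.S6C

open Finset Real
open Pool.Agent.H49.Ent Pool.Agent.H32.Dense Pool.STK Pool.KA Pool.K2S Pool.PB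

section Fin

variable {Ω β : Type} [Fintype Ω]

open Classical in
/-- The number of values on an event. -/
noncomputable def cnt (p : Ω → ℝ) (Y : Ω → β) (A : Ω → Prop) : ℕ :=
  ((univ.filter fun ω => 0 < p ω ∧ A ω).image Y).card

theorem cnt_mono (p : Ω → ℝ) (Y : Ω → β) {A B : Ω → Prop} (h : Sub B A) :
    cnt p Y B ≤ cnt p Y A := by
  classical
  unfold cnt
  refine card_le_card (image_subset_image ?_)
  intro ω hω
  rw [mem_filter] at hω ⊢
  exact ⟨hω.1, hω.2.1, h ω hω.2.2⟩

theorem cnt_le_card (p : Ω → ℝ) (Y : Ω → β) {A : Ω → Prop} (I : Finset β)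
    (h : ∀ ω, 0 < p ω → A ω → Y ω ∈ I) : cnt p Y A ≤ I.card := by
  classical
  unfold cnt
  refine card_le_card ?_
  intro y hy
  rw [mem_image] at hy
  obtain ⟨ω, hω, rfl⟩ := hy
  rw [mem_filter] at hω
  exact h ω hω.2.1 hω.2.2

theorem cnt_comp_le {γ : Type} (p : Ω → ℝ) (Y : Ω → β) (Y' : Ω → γ) {A : Ω → Prop} (φ : β → γ)
    (h : ∀ ω, 0 < p ω → A ω → Y' ω = φ (Y ω)) : cnt p Y' A ≤ cnt p Y A := by
  classical
  have h1 := cnt_le_card p Y' (A := A) (((univ.filter fun ω => 0 < p ω ∧ A ω).image Y).image φ)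
    (by
      intro ω h0 hA
      rw [h ω h0 hA]
      refine mem_image_of_mem φ (mem_image_of_mem Y ?_)
      rw [mem_filter]
      exact ⟨mem_univ ω, h0, hA⟩)
  refine h1.trans (card_image_le.trans ?_)
  unfold cnt
  refine card_le_card ?_
  intro y hy
  rw [mem_image] at hy ⊢
  obtain ⟨ω, hω, rfl⟩ := hy
  rw [mem_filter] at hω
  exact ⟨ω, by rw [mem_filter]; exact hω, rfl⟩

theorem CH_le_H' {p : Ω → ℝ} (hp : IsLaw p) {γ : Type} (X : Ω → β) (W : Ω → γ) :
    CH p X W ≤ H p X := by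
  have h := CH_mono_cond hp.nonneg (X := X) (W' := W) (W := fun _ => ()) fun _ _ _ _ _ => rfl
  have h2 : CH p X (fun _ => ()) = H p X := by
    unfold CH
    rw [H_const hp.sum_one, sub_zero]
    exact H_congr hp.nonneg (fun ω ω' _ _ h => by rw [h]) (fun ω ω' _ _ h => (Prod.ext_iff.mp h).1)
  rwa [h2] at h

theorem one_le_cnt {p : Ω → ℝ} (hp : IsLaw p) (Y : Ω → β) {A : Ω → Prop} (hA : 0 < Pe p A) :
    1 ≤ cnt p Y A := by
  classical
  unfold cnt
  rw [Nat.one_le_iff_ne_zero]
  intro h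
  rw [card_eq_zero, image_eq_empty, filter_eq_empty_iff] at h
  have : Pe p A = 0 := by
    rw [Pe_eq]
    refine sum_eq_zero fun ω _ => ?_
    have h1 := h (mem_univ ω)
    by_cases hAω : A ω
    · rw [if_pos hAω]
      by_contra h2
      exact h1 ⟨lt_of_le_of_ne (hp.nonneg ω) (Ne.symm h2), hAω⟩
    · rw [if_neg hAω]
  linarith

theorem H_le_cnt {p : Ω → ℝ} (hp : IsLaw p) (Y : Ω → β) {A : Ω → Prop} (hA : 0 < Pe p A) :
    H (Pool.Agent.H49.Ent.cond p A True) Y ≤ Real.log (cnt p Y A) := by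
  classical
  unfold cnt
  refine H_le_log_card (cond_nonneg hp.nonneg A True) (isLaw_cond hp hA).sum_one Y _
    fun ω hω => mem_image_of_mem Y ?_
  have h1 := (cond_pos_iff hp.nonneg A True ω).1 hω
  rw [mem_filter]
  exact ⟨mem_univ ω, h1.1, by simpa using h1.2⟩

/-- If all large subevents have many values, the entropy is large. -/
theorem H_ge_cnt {p : Ω → ℝ} (hp : IsLaw p) (Y : Ω → β) {A : Ω → Prop} (hA : 0 < Pe p A)
    {κ M : ℝ} (hM : 1 ≤ M) (h : ∀ B : Ω → Prop, Sub B A →
      Real.exp (-κ) * Pe p A ≤ Pe p B → M < cnt p Y B) :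
    (1 - Real.exp (-κ)) * Real.log M ≤ H (Pool.Agent.H49.Ent.cond p A True) Y := by
  classical
  obtain ⟨q, hq⟩ : ∃ q, q = Pool.Agent.H49.Ent.cond p A True := ⟨_, rfl⟩
  have hql : IsLaw q := by rw [hq]; exact isLaw_cond hp hA
  obtain ⟨B, hB⟩ : ∃ B : Ω → Prop, B = fun ω => A ω ∧ 1 / M ≤ law q Y (Y ω) := ⟨_, rfl⟩
  have hM0 : 0 < M := by linarith
  have hBA : Sub B A := fun ω hω => by
    rw [hB] at hω
    exact hω.1
  have hcard : (cnt p Y B : ℝ) ≤ M := by
    obtain ⟨I, hI⟩ : ∃ I, I = (univ.filter fun ω => 0 < p ω ∧ B ω).image Y := ⟨_, rfl⟩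
    have e1 : (cnt p Y B : ℝ) = I.card := by
      unfold cnt
      rw [hI]
    have e2 : (I.card : ℝ) * (1 / M) ≤ ∑ y ∈ I, law q Y y := by
      rw [← nsmul_eq_mul]
      refine card_nsmul_le_sum I _ _ fun y hy => ?_
      rw [hI, mem_image] at hy
      obtain ⟨ω, hω, rfl⟩ := hy
      rw [mem_filter] at hω
      have := hω.2.2
      rw [hB] at this
      exact this.2
    have e3 : ∑ y ∈ I, law q Y y ≤ ∑ y ∈ univ.image Y, law q Y y := by
      refine sum_le_sum_of_subset_of_nonneg ?_ fun y _ _ => law_nonneg hql.nonneg Y y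
      rw [hI]
      exact image_subset_image (filter_subset _ _)
    rw [sum_law, hql.sum_one] at e3
    have e4 : (I.card : ℝ) * (1 / M) ≤ 1 := e2.trans e3
    rw [e1]
    rw [mul_one_div, div_le_one hM0] at e4
    exact e4
  have hPB : Pe p B < Real.exp (-κ) * Pe p A := by
    by_contra hcon
    push Not at hcon
    have := h B hBA hcon
    linarith
  have hqB : Pe q B ≤ Real.exp (-κ) := by
    rw [hq, Pe_cond, div_le_iff₀ hA]
    refine le_trans (Pe_mono hp ?_) hPB.le
    intro ω hω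
    exact hω.2
  have hlM : 0 ≤ Real.log M := Real.log_nonneg hM
  have hH : H q Y = ∑ ω, q ω * (-Real.log (law q Y (Y ω))) := by
    unfold H
    rw [← sum_neg_distrib]
    exact sum_congr rfl fun ω _ => by ring
  have hpt : ∀ ω, q ω * (if B ω then 0 else Real.log M) ≤ q ω * (-Real.log (law q Y (Y ω))) := by
    intro ω
    by_cases h0 : q ω = 0
    · rw [h0, zero_mul, zero_mul]
    have hqω : 0 < q ω := lt_of_le_of_ne (hql.nonneg ω) (Ne.symm h0)
    have hlp := law_pos hql.nonneg Y hqω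
    have hl1 : law q Y (Y ω) ≤ 1 := by
      have := law_le_total hql.nonneg Y (Y ω)
      rwa [hql.sum_one] at this
    refine mul_le_mul_of_nonneg_left ?_ hqω.le
    by_cases hBω : B ω
    · rw [if_pos hBω]
      have := Real.log_nonpos hlp.le hl1
      linarith
    · rw [if_neg hBω]
      have hAω : A ω := by
        rw [hq] at hqω
        have := ((cond_pos_iff hp.nonneg A True ω).1 hqω).2
        simpa using this
      have hlt : law q Y (Y ω) < 1 / M := by
        by_contra hcon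
        push Not at hcon
        refine hBω ?_
        rw [hB]
        exact ⟨hAω, hcon⟩
      have := Real.log_le_log hlp hlt.le
      rw [one_div, Real.log_inv] at this
      linarith
  have hsum : ∑ ω, q ω * (if B ω then 0 else Real.log M) = (1 - Pe q B) * Real.log M := by
    have e1 : ∀ ω, q ω * (if B ω then 0 else Real.log M) =
        q ω * Real.log M - (if B ω then q ω else 0) * Real.log M := by
      intro ω
      by_cases hBω : B ω
      · simp [hBω]
      · simp [hBω]
    rw [sum_congr rfl fun ω _ => e1 ω, sum_sub_distrib, ← sum_mul, ← sum_mul, hql.sum_one,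
      ← Pe_eq]
    ring
  rw [← hq, hH]
  refine le_trans ?_ (sum_le_sum fun ω _ => hpt ω)
  rw [hsum]
  exact mul_le_mul_of_nonneg_right (by linarith) hlM

end Fin

variable {m : ℕ}

/-- A bounded factor is smaller than any freedom. -/
theorem exp_small' {κ C : ℝ} (hκ : 0 < κ) (hC : 1 ≤ C) : ∃ J₁ : ℕ, ∀ J ≥ J₁,
    Real.exp (-(κ * (J : ℕ))) ≤ 1 / C := by
  obtain ⟨J₁, hJ₁⟩ := exists_nat_gt (Real.log C / κ)
  refine ⟨J₁, fun J hJ => ?_⟩
  have h1 : Real.log C / κ < J := hJ₁.trans_le (by exact_mod_cast hJ)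
  rw [div_lt_iff₀ hκ] at h1
  have hC0 : 0 < C := by linarith
  rw [one_div, ← Real.exp_log hC0, ← Real.exp_neg]
  exact Real.exp_le_exp.2 (by linarith)

/-- The property: at most `exp (-(s J))` values. -/
def qCnt {β : ∀ J : ℕ, Fam m J → Type} (Y : ∀ (J : ℕ) (F : Fam m J), F.Ω → β J F) (s : ℝ) :
    Stat m := fun J F A => (cnt F.p (Y J F) A : ℝ) ≤ Real.exp (-(s * J))

theorem qCnt.hered {β : ∀ J : ℕ, Fam m J → Type} (Y : ∀ (J : ℕ) (F : Fam m J), F.Ω → β J F)
    (s : ℝ) (J : ℕ) (F : Fam m J) : Hered (qCnt Y s J F) := by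
  intro A B hB hA
  refine le_trans ?_ hA
  exact_mod_cast cnt_mono F.p (Y J F) hB

theorem qCnt.anti {β : ∀ J : ℕ, Fam m J → Type} (Y : ∀ (J : ℕ) (F : Fam m J), F.Ω → β J F)
    (s s' : ℝ) (J : ℕ) (F : Fam m J) (A : F.Ω → Prop) (h : s' ≤ s) (hA : qCnt Y s J F A) :
    qCnt Y s' J F A := by
  refine le_trans hA (Real.exp_le_exp.2 ?_)
  have := mul_le_mul_of_nonneg_right h (Nat.cast_nonneg (α := ℝ) J)
  linarith

/-- The threshold of the number of values is the entropy. -/
theorem ent_of_num {β : ∀ J : ℕ, Fam m J → Type} {Y : ∀ (J : ℕ) (F : Fam m J), F.Ω → β J F}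
    {S : PCl m} (hpos : ∀ (τ : ℝ) (J : ℕ) (F : Fam m J) (A : F.Ω → Prop), S.St τ J F A →
      0 < Pe F.p A) {s : ℝ} (hs : PNum S (qCnt Y) s) (h : ℝ) (hh : 0 < h) :
    Clp S (fun J F A => |H (Pool.Agent.H49.Ent.cond F.p A True) (Y J F) - (-s) * J| ≤ h * J) := by
  have hpc : Clp S (fun _ F A => 0 < Pe F.p A) := Clp.of one_pos 0 fun J _ F A hA =>
    hpos 1 J F A hA
  have up : Clp S (fun J F A => H (Pool.Agent.H49.Ent.cond F.p A True) (Y J F) ≤
      (-s + h) * J) := by
    refine Clp.mono (J₂ := 0) (hpc.and (hs.1 h hh)) ?_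
    rintro J - F A ⟨hA, hq⟩
    refine (H_le_cnt F.isLaw (Y J F) hA).trans ?_
    have h1 : (1 : ℝ) ≤ cnt F.p (Y J F) A := by exact_mod_cast one_le_cnt F.isLaw (Y J F) hA
    have h2 := Real.log_le_log (by linarith) hq
    rw [Real.log_exp] at h2
    linarith
  have lo : Clp S (fun J F A => (-s - h) * J ≤
      H (Pool.Agent.H49.Ent.cond F.p A True) (Y J F)) := by
    refine Clp.list ⟨1, fun J F _ => qCnt Y (s + h / 2) J F, fun J F _ => qCnt.hered Y _ J F⟩
      fun κ hκ => ?_
    obtain ⟨C, hC⟩ : ∃ C, C = max 1 (2 * |s| / h) := ⟨_, rfl⟩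
    have hC1 : 1 ≤ C := by rw [hC]; exact le_max_left _ _
    have hC2 : 2 * |s| / h ≤ C := by rw [hC]; exact le_max_right _ _
    obtain ⟨J₁, hJ₁⟩ := exp_small' hκ hC1
    refine Clp.mono (J₂ := J₁) (hpc.and (hs.2 (h / 2) (by linarith))) ?_
    rintro J hJ F A ⟨hA, hq⟩ hSb
    have hJ0 : (0 : ℝ) ≤ J := Nat.cast_nonneg J
    have hcl := isLaw_cond F.isLaw hA
    by_cases hneg : -s - h / 2 ≤ 0
    · refine le_trans ?_ (H_nonneg hcl.nonneg hcl.sum_one _)
      exact mul_nonpos_of_nonpos_of_nonneg (by linarith) hJ0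
    push Not at hneg
    obtain ⟨M, hM⟩ : ∃ M, M = Real.exp (-((s + h / 2) * J)) := ⟨_, rfl⟩
    have hM1 : 1 ≤ M := by
      rw [hM, Real.one_le_exp_iff]
      have : 0 ≤ (-s - h / 2) * J := mul_nonneg hneg.le hJ0
      linarith
    have hs0 := hSb 0
    have key := H_ge_cnt F.isLaw (Y J F) hA (κ := κ * J) hM1 (by
      intro B hB hP
      rcases hs0 with h1 | h1
      · exact absurd h1 hq
      · have := h1 B hB hP
        unfold qCnt at this
        rw [hM]
        exact not_le.1 this)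
    refine le_trans ?_ key
    have hlM : Real.log M = (-s - h / 2) * J := by
      rw [hM, Real.log_exp]
      ring
    rw [hlM]
    have e1 := hJ₁ J hJ
    have hC0 : 0 < C := by linarith
    have e2 : Real.exp (-(κ * J)) * ((-s - h / 2) * J) ≤ 1 / C * ((-s - h / 2) * J) :=
      mul_le_mul_of_nonneg_right e1 (mul_nonneg hneg.le hJ0)
    have e3 : 1 / C * ((-s - h / 2) * J) ≤ h / 2 * J := by
      have a1 : -s - h / 2 ≤ |s| := by
        have := neg_abs_le s
        linarith
      have a2 : |s| ≤ h / 2 * C := by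
        rw [div_le_iff₀ hh] at hC2
        linarith
      have a3 : 1 / C * (-s - h / 2) ≤ h / 2 := by
        rw [one_div, inv_mul_le_iff₀ hC0]
        linarith
      calc 1 / C * ((-s - h / 2) * J) = 1 / C * (-s - h / 2) * J := by ring
        _ ≤ h / 2 * J := mul_le_mul_of_nonneg_right a3 hJ0
    nlinarith
  refine Clp.mono (J₂ := 0) (up.and lo) ?_
  rintro J - F A ⟨h1, h2⟩
  rw [abs_le]
  constructor <;> nlinarith

/-- **Entropies as numbers.** For countably many functions with exponentially many values there is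
a nonempty subclass in which their entropies, conditioned on the events, are numbers. -/
theorem ext_ent {S : PCl m} (hS : S.Ne)
    (hpos : ∀ (τ : ℝ) (J : ℕ) (F : Fam m J) (A : F.Ω → Prop), S.St τ J F A → 0 < Pe F.p A)
    (β : ℕ → ∀ J : ℕ, Fam m J → Type) (Y : ∀ (i J : ℕ) (F : Fam m J), F.Ω → β i J F)
    (M : ℕ → ℝ) (hM : ∀ i, Clp S (fun J F A => (cnt F.p (Y i J F) A : ℝ) ≤ Real.exp (M i * J))) :
    ∃ S' : PCl m, S'.Ne ∧
      (∀ (τ : ℝ) (J : ℕ) (F : Fam m J) (A : F.Ω → Prop), S'.St τ J F A → S.St τ J F A) ∧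
      ∀ i, ∃ η : ℝ, ∀ h : ℝ, 0 < h → Clp S' (fun J F A =>
        |H (Pool.Agent.H49.Ent.cond F.p A True) (Y i J F) - η * J| ≤ h * J) := by
  obtain ⟨S', h1, h2, h3⟩ := ext_num hS (fun i => qCnt (Y i)) (fun i s J F => qCnt.hered _ s J F)
    (fun i s s' J F A h hA => qCnt.anti _ s s' J F A h hA)
    (fun i => ⟨-M i, Clp.mono (J₂ := 0) (hM i) fun J _ F A hA => by
      unfold qCnt
      refine hA.trans (Real.exp_le_exp.2 (le_of_eq (by ring)))⟩)
    (fun i => ⟨1, Clp.of one_pos 1 fun J hJ F A hA hq => by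
      have a1 : (1 : ℝ) ≤ cnt F.p (Y i J F) A := by
        exact_mod_cast one_le_cnt F.isLaw (Y i J F) (hpos 1 J F A hA)
      unfold qCnt at hq
      have a2 : Real.exp (-(1 * (J : ℝ))) < 1 := by
        rw [Real.exp_lt_one_iff]
        have : (1 : ℝ) ≤ J := by exact_mod_cast hJ
        linarith
      linarith⟩)
  refine ⟨S', h1, h2, fun i => ?_⟩
  obtain ⟨s, hs⟩ := h3 i
  exact ⟨-s, fun h hh => ent_of_num (fun τ J F A hA => hpos τ J F A (h2 τ J F A hA)) hs h hh⟩

end Pool.S6C
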