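import Pool.Agent.H80.S6C.Cls
import Pool.Agent.H80.S6C.Ent

/-!
# The numbers of all rows in one class

The properties of the rows are monotone in the row, so numbers at all rational rows give numbers at
all real rows outside a countable set.
-/

set_option autoImplicit false

namespace Pool.S6C

open Finset Real
open Pool.Agent.H49.Ent Pool.Agent.H32.Dense Pool.STK Pool.KA Pool.KSAT Pool.K2S Pool.PB Pool.KS6

/-! ### The properties -/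

theorem pow_anti {s s' : ℝ} (h : s' ≤ s) (J : ℕ) :
    (1 : ℝ) / 2 ^ ⌊s * J⌋₊ ≤ 1 / 2 ^ ⌊s' * J⌋₊ :=
  inv_mono (Nat.floor_le_floor (mul_le_mul_of_nonneg_right h (Nat.cast_nonneg J)))

theorem capS.hered {c : ℝ} {q : ℝ → Stat 3} (h : ∀ (s : ℝ) (J : ℕ) (F : Fam 3 J),
    Hered (q s J F)) (s : ℝ) (J : ℕ) (F : Fam 3 J) : Hered (capS c q s J F) := by
  rintro A B hB (h1 | h1)
  · exact Or.inl h1
  · exact Or.inr ⟨h1.1, h s J F A B hB h1.2⟩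

theorem capS.anti {c : ℝ} {q : ℝ → Stat 3} (h : ∀ (s s' : ℝ) (J : ℕ) (F : Fam 3 J)
    (A : F.Ω → Prop), s' ≤ s → q s J F A → q s' J F A) (s s' : ℝ) (J : ℕ) (F : Fam 3 J)
    (A : F.Ω → Prop) (hs : s' ≤ s) (hA : capS c q s J F A) : capS c q s' J F A := by
  rcases hA with h1 | h1
  · exact Or.inl (hs.trans h1)
  · exact Or.inr ⟨hs.trans h1.1, h s s' J F A hs h1.2⟩

theorem qPi.hered (i₀ : Fin 3) (Q s : ℝ) (J : ℕ) (F : Fam 3 J) : Hered (qPi i₀ Q s J F) :=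
  LineU.hered _ _ _ _

theorem qRot.hered (i₀ : Fin 3) (Q w s : ℝ) (J : ℕ) (F : Fam 3 J) :
    Hered (qRot i₀ Q w s J F) := RotU.hered _ _ _ _ _ _

theorem qTh.hered (i₀ : Fin 3) (Q w s : ℝ) (J : ℕ) (F : Fam 3 J) :
    Hered (qTh i₀ Q w s J F) := by
  rintro A B hB ⟨iu, iN, h1, h2⟩
  exact ⟨iu, iN, h1, LABq.hered _ _ _ _ _ _ _ _ _ A B hB h2⟩

theorem qS2.hered (s : ℝ) (J : ℕ) (F : Fam 3 J) : Hered (qS2 s J F) := PlU.hered _ _ _ _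

theorem qSN.hered (i₀ : Fin 3) (v t s : ℝ) (J : ℕ) (F : Fam 3 J) :
    Hered (qSN i₀ v t s J F) := by
  rintro A B hB ⟨iu, iN, h1, y, h2, ⟨φ, h3⟩, ⟨ψ, h4⟩, b, k, h5⟩
  exact ⟨iu, iN, h1, y, fun ω hω => h2 ω (hB ω hω), ⟨φ, fun ω hω => h3 ω (hB ω hω)⟩,
    ⟨ψ, fun ω hω => h4 ω (hB ω hω)⟩, b, k, fun ω hω => h5 ω (hB ω hω)⟩

theorem qSN.anti (i₀ : Fin 3) (v t : ℝ) (s s' : ℝ) (J : ℕ) (F : Fam 3 J) (A : F.Ω → Prop)
    (hs : s' ≤ s) (h : qSN i₀ v t s J F A) : qSN i₀ v t s' J F A := by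
  obtain ⟨iu, iN, h1, y, h2, h3, h4, b, k, h5⟩ := h
  exact ⟨iu, iN, h1, y, h2, h3, h4, b, k, fun ω hω => (h5 ω hω).trans (pow_anti hs J)⟩

theorem qPi.anti (i₀ : Fin 3) (Q : ℝ) (s s' : ℝ) (J : ℕ) (F : Fam 3 J) (A : F.Ω → Prop)
    (hs : s' ≤ s) (h : qPi i₀ Q s J F A) : qPi i₀ Q s' J F A := LineU.mono h (pow_anti hs J)

theorem qRot.anti (i₀ : Fin 3) (Q w : ℝ) (s s' : ℝ) (J : ℕ) (F : Fam 3 J) (A : F.Ω → Prop)
    (hs : s' ≤ s) (h : qRot i₀ Q w s J F A) : qRot i₀ Q w s' J F A :=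
  RotU.mono (pow_anti hs J) (pow_anti hs J) h

theorem inc_mono {i0 iu iN : Fin 3} {w lam P P' : ℕ} {C : ℝ} (hC : 0 ≤ C) (hP : P' ≤ P)
    {y : Pln} {t : ℝ} {x d : Fin 3 → ℝ} (h : Inc i0 iu iN w lam P C y t x d) :
    Inc i0 iu iN w lam P' C y t x d := by
  have h1 : (2 : ℝ) ^ P' ≤ 2 ^ P := pow_le_pow_right₀ (by norm_num) hP
  refine ⟨h.e_le, h.c_le, h.s_le, h.pe, h.pu, h.pn.trans ?_, h.ve, h.vu, h.vn.trans ?_⟩
  · exact div_le_div_of_nonneg_left hC (by positivity) h1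
  · exact div_le_div_of_nonneg_left (by positivity) (by positivity) h1

theorem labq_mono {J : ℕ} {F : Fam 3 J} {Qt : ℕ} {i0 iu iN : Fin 3} {w lam P P' : ℕ} {C : ℝ}
    (hC : 0 ≤ C) (hP : P' ≤ P) {A : F.Ω → Prop} (h : LABq F Qt i0 iu iN w lam P C A) :
    LABq F Qt i0 iu iN w lam P' C A := by
  obtain ⟨y, h1, h2⟩ := h
  exact ⟨y, fun ω hω => inc_mono hC hP (h1 ω hω), h2⟩

theorem qTh.anti (i₀ : Fin 3) (Q w : ℝ) (s s' : ℝ) (J : ℕ) (F : Fam 3 J) (A : F.Ω → Prop)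
    (hs : s' ≤ s) (h : qTh i₀ Q w s J F A) : qTh i₀ Q w s' J F A := by
  obtain ⟨iu, iN, h1, h2⟩ := h
  exact ⟨iu, iN, h1, labq_mono (by norm_num)
    (Nat.floor_le_floor (mul_le_mul_of_nonneg_right hs (Nat.cast_nonneg J))) h2⟩

theorem qS2.anti (s s' : ℝ) (J : ℕ) (F : Fam 3 J) (A : F.Ω → Prop)
    (hs : s' ≤ s) (h : qS2 s J F A) : qS2 s' J F A := PlU.mono (pow_anti hs J) h

/-! ### Monotonicity in the row -/

theorem ptq_coarse {J : ℕ} (F : Fam 3 J) {r r' : ℕ} (h : r ≤ r') :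
    ∃ φ : (Fin 3 → ℤ) × (ℕ × F.ζ) → (Fin 3 → ℤ) × (ℕ × F.ζ), ∀ ω, ptq F r ω = φ (ptq F r' ω) :=
  ptr_coarse F h

theorem LineU.comp {Ω U U' : Type} {m : ℕ} {i₀ : Fin m} {r : ℝ} {pt : Ω → U} {pt' : Ω → U'}
    {φ : U' → U} (hφ : ∀ ω, pt ω = φ (pt' ω)) {d : Ω → Fin m → ℝ} {A : Ω → Prop}
    (h : LineU i₀ r pt d A) : LineU i₀ r pt' d A := by
  obtain ⟨e, n, h1⟩ := h
  refine ⟨fun y => e (φ y), fun y => n (φ y), fun ω hω j => ?_⟩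
  have := h1 ω hω j
  rwa [hφ] at this

theorem RotU.comp {Ω U U' V : Type} {m : ℕ} {i₀ : Fin m} {r ρ : ℝ} {pt : Ω → U} {pt' : Ω → U'}
    {φ : U' → U} (hφ : ∀ ω, pt ω = φ (pt' ω)) {wn : Ω → V} {d : Ω → Fin m → ℝ} {A : Ω → Prop}
    (h : RotU i₀ r ρ pt wn d A) : RotU i₀ r ρ pt' wn d A := by
  obtain ⟨e, n, ζ, h1, h2⟩ := h
  refine ⟨fun y => e (φ y), fun y => n (φ y), ζ, fun ω hω j => ?_, fun ω hω j => ?_⟩
  · have := h1 ω hω j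
    rwa [hφ] at this
  · have := h2 ω hω j
    rwa [hφ] at this

theorem labq_comp {J : ℕ} {F : Fam 3 J} {Qt Qt' : ℕ} (hQ : Qt ≤ Qt') {i0 iu iN : Fin 3}
    {w lam P : ℕ} {C : ℝ} {A : F.Ω → Prop} (h : LABq F Qt i0 iu iN w lam P C A) :
    LABq F Qt' i0 iu iN w lam P C A := by
  obtain ⟨y, h1, ⟨φ, h2⟩, h3⟩ := h
  obtain ⟨χ, hχ⟩ := ptq_coarse F hQ
  exact ⟨y, h1, ⟨fun z => φ (χ z), fun ω hω => by rw [h2 ω hω, hχ ω]⟩, h3⟩

theorem floor_row {Q Q' : ℝ} (h : Q ≤ Q') (J : ℕ) : ⌊Q * J⌋₊ ≤ ⌊Q' * J⌋₊ :=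
  Nat.floor_le_floor (mul_le_mul_of_nonneg_right h (Nat.cast_nonneg J))

theorem qPi.row {i₀ : Fin 3} {Q Q' : ℝ} (h : Q ≤ Q') {s : ℝ} {J : ℕ} {F : Fam 3 J}
    {A : F.Ω → Prop} (hA : qPi i₀ Q s J F A) : qPi i₀ Q' s J F A := by
  obtain ⟨φ, hφ⟩ := ptq_coarse F (floor_row h J)
  exact LineU.comp hφ hA

theorem qRot.row {i₀ : Fin 3} {Q Q' w : ℝ} (h : Q ≤ Q') {s : ℝ} {J : ℕ} {F : Fam 3 J}
    {A : F.Ω → Prop} (hA : qRot i₀ Q w s J F A) : qRot i₀ Q' w s J F A := by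
  obtain ⟨φ, hφ⟩ := ptq_coarse F (floor_row h J)
  exact RotU.comp hφ hA

theorem qTh.row {i₀ : Fin 3} {Q Q' w : ℝ} (h : Q ≤ Q') {s : ℝ} {J : ℕ} {F : Fam 3 J}
    {A : F.Ω → Prop} (hA : qTh i₀ Q w s J F A) : qTh i₀ Q' w s J F A := by
  obtain ⟨iu, iN, h1, h2⟩ := hA
  exact ⟨iu, iN, h1, labq_comp (floor_row h J) h2⟩

/-- Larger windows, for the directions. -/
theorem qRot.win {i₀ : Fin 3} {Q w w' : ℝ} (h : w ≤ w') (h1 : w' ≤ 1) {s : ℝ} {J : ℕ}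
    {F : Fam 3 J} {A : F.Ω → Prop} (hA : qRot i₀ Q w s J F A) : qRot i₀ Q w' s J F A := by
  have hJ : ⌊w' * J⌋₊ ≤ J := by
    have : ⌊w' * J⌋₊ ≤ ⌊(1 : ℝ) * J⌋₊ := floor_row h1 J
    simpa using this
  exact RotU.window (φ := fun s => (s.1, s.2.1, s.2.2 / 2 ^ (⌊w' * J⌋₊ - ⌊w * J⌋₊)))
    (fun ω => slam_coarse F (floor_row h J) hJ ω) hA

/-! ### Comparison of numbers -/

theorem num_le {S : PCl 3} (hS : S.Ne) {q q' : ℝ → Stat 3} {s s' : ℝ} (hs : PNum S q s)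
    (hs' : PNum S q' s') (h : ∀ (t : ℝ) (J : ℕ) (F : Fam 3 J) (A : F.Ω → Prop),
      q t J F A → q' t J F A) : s ≤ s' := by
  by_contra hcon
  push Not at hcon
  refine Clp.not_false hS (Clp.mono (J₂ := 0) ((hs.1 ((s - s') / 2) (by linarith)).and
    (hs'.2 ((s - s') / 2) (by linarith))) ?_)
  rintro J - F A ⟨h1, h2⟩
  have e : s - (s - s') / 2 = s' + (s - s') / 2 := by ring
  rw [e] at h1
  exact h2 (h _ J F A h1)

theorem num_nonneg {S : PCl 3} (hS : S.Ne) {c : ℝ} {q : ℝ → Stat 3} {s : ℝ}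
    (hs : PNum S (capS c q) s) : 0 ≤ s := by
  by_contra hcon
  push Not at hcon
  refine Clp.not_false hS (Clp.mono (J₂ := 0) (hs.2 (-s) (by linarith)) ?_)
  rintro J - F A h1
  exact h1 (Or.inl (by linarith))

theorem num_le_cap {S : PCl 3} (hS : S.Ne) {c : ℝ} (hc : 0 ≤ c) {q : ℝ → Stat 3} {s : ℝ}
    (hs : PNum S (capS c q) s) : s ≤ c := by
  by_contra hcon
  push Not at hcon
  refine Clp.not_false hS (Clp.mono (J₂ := 0) (hs.1 ((s - c) / 2) (by linarith)) ?_)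
  rintro J - F A (h1 | h1)
  · linarith
  · linarith [h1.1]

/-- Numbers at real parameters, from numbers at rational parameters, for a property which is
monotone in the parameter. -/
theorem num_real {S : PCl 3} {q : ℝ → ℝ → Stat 3} {g : ℚ → ℝ}
    (hq : ∀ Q : ℚ, 0 ≤ Q → Q ≤ 1 → PNum S (q Q) (g Q))
    (hrow : ∀ (Q Q' t : ℝ) (J : ℕ) (F : Fam 3 J) (A : F.Ω → Prop), Q ≤ Q' → q Q t J F A →
      q Q' t J F A)
    (hanti : ∀ (Q t t' : ℝ) (J : ℕ) (F : Fam 3 J) (A : F.Ω → Prop), t' ≤ t → q Q t J F A →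
      q Q t' J F A)
    (hmono : ∀ v w : ℚ, 0 ≤ v → v ≤ w → w ≤ 1 → g v ≤ g w)
    {x : ℝ} (hx0 : 0 < x) (hx1 : x < 1)
    (hc : ∀ e : ℝ, 0 < e → ∃ δ : ℝ, 0 < δ ∧ ∀ v v' : ℚ, |(v : ℝ) - x| < δ →
      |(v' : ℝ) - x| < δ → |g v - g v'| < e) : ∃ L : ℝ, PNum S (q x) L := by
  classical
  obtain ⟨G, hG⟩ : ∃ G : Set ℝ, G = (fun v : ℚ => g v) '' {v : ℚ | 0 ≤ v ∧ (v : ℝ) ≤ x} :=
    ⟨_, rfl⟩
  have hbd : BddAbove G := by
    refine ⟨g 1, ?_⟩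
    rw [hG]
    rintro _ ⟨v, hv, rfl⟩
    refine hmono v 1 hv.1 ?_ le_rfl
    have : (v : ℝ) ≤ 1 := hv.2.trans hx1.le
    exact_mod_cast this
  have hlow : ∀ v : ℚ, 0 ≤ v → (v : ℝ) ≤ x → g v ≤ sSup G := by
    intro v h0 h1
    refine le_csSup hbd ?_
    rw [hG]
    exact ⟨v, ⟨h0, h1⟩, rfl⟩
  have hne : G.Nonempty := by
    rw [hG]
    exact ⟨g 0, 0, ⟨le_rfl, by simpa using hx0.le⟩, rfl⟩
  have hup : ∀ v : ℚ, x ≤ (v : ℝ) → v ≤ 1 → sSup G ≤ g v := by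
    intro v h0 h1
    refine csSup_le hne ?_
    rw [hG]
    rintro _ ⟨u, hu, rfl⟩
    refine hmono u v hu.1 ?_ h1
    have : (u : ℝ) ≤ v := hu.2.trans h0
    exact_mod_cast this
  refine ⟨sSup G, ?_⟩
  have key : ∀ h : ℝ, 0 < h → ∃ v v' : ℚ, 0 ≤ v ∧ v ≤ 1 ∧ 0 ≤ v' ∧ v' ≤ 1 ∧ (v : ℝ) ≤ x ∧
      x ≤ (v' : ℝ) ∧ g v ≤ sSup G ∧ sSup G ≤ g v' ∧ g v' < g v + h := by
    intro h hh
    obtain ⟨δ, hδ, hδ'⟩ := hc h hh
    obtain ⟨δ', hδe⟩ : ∃ δ', δ' = min δ (min x (1 - x)) := ⟨_, rfl⟩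
    have hδ0 : 0 < δ' := by
      rw [hδe]
      exact lt_min hδ (lt_min hx0 (by linarith))
    have d1 : δ' ≤ δ := by rw [hδe]; exact min_le_left _ _
    have d2 : δ' ≤ x := by rw [hδe]; exact (min_le_right _ _).trans (min_le_left _ _)
    have d3 : δ' ≤ 1 - x := by rw [hδe]; exact (min_le_right _ _).trans (min_le_right _ _)
    obtain ⟨v, hv1, hv2⟩ := exists_rat_btwn (show x - δ' < x by linarith)
    obtain ⟨v', hv1', hv2'⟩ := exists_rat_btwn (show x < x + δ' by linarith)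
    have a1 : (0 : ℚ) ≤ v := by
      have : (0 : ℝ) ≤ v := by linarith
      exact_mod_cast this
    have a2 : v ≤ 1 := by
      have : (v : ℝ) ≤ 1 := by linarith
      exact_mod_cast this
    have a3 : (0 : ℚ) ≤ v' := by
      have : (0 : ℝ) ≤ v' := by linarith
      exact_mod_cast this
    have a4 : v' ≤ 1 := by
      have : (v' : ℝ) ≤ 1 := by linarith
      exact_mod_cast this
    have b1 := hδ' v v' (by rw [abs_lt]; constructor <;> linarith)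
      (by rw [abs_lt]; constructor <;> linarith)
    rw [abs_lt] at b1
    exact ⟨v, v', a1, a2, a3, a4, hv2.le, hv1'.le, hlow v a1 hv2.le, hup v' hv1'.le a4,
      by linarith [b1.1]⟩
  constructor
  · intro h hh
    obtain ⟨v, v', a1, a2, -, -, a5, -, a7, a8, a9⟩ := key (h / 2) (by linarith)
    refine Clp.mono (J₂ := 0) ((hq v a1 a2).1 (h / 4) (by linarith)) ?_
    intro J _ F A h1
    exact hanti x _ _ J F A (by linarith) (hrow v x _ J F A a5 h1)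
  · intro h hh
    obtain ⟨v, v', -, -, a3, a4, -, a6, a7, a8, a9⟩ := key (h / 2) (by linarith)
    refine Clp.mono (J₂ := 0) ((hq v' a3 a4).2 (h / 4) (by linarith)) ?_
    intro J _ F A h1 h2
    exact h1 (hanti v' _ _ J F A (by linarith) (hrow x v' _ J F A a6 h2))

end Pool.S6C
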