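import Pool.Agent.H80.S6C.UvcB

/-!
# The rows of the first coordinate are full in the static boxes of the planks
-/

set_option autoImplicit false

namespace Pool.S6C.Uvc

open Finset Real
open Pool.Agent.H49.Ent Pool.Agent.H32.Dense Pool.STK Pool.KA Pool.KSAT Pool.K2S Pool.PB Pool.KS6
open Pool.S6K.Wfe Pool.K3 Pool.S6U Bct

/-- The samples whose fan at the exact point is spread. -/
def Spd {J : ℕ} (F : Fam 3 J) (i₀ : Fin 3) (q : ℕ) (A : F.Ω → Prop) (ω : F.Ω) : Prop :=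
  A ω ∧ ∃ ω' ω'', A ω' ∧ A ω'' ∧ Fam.pt F ω' = Fam.pt F ω ∧ Fam.pt F ω'' = Fam.pt F ω ∧
    1 / 2 ^ (q + 1) ≤ |F.d ω' i₀ - F.d ω'' i₀|

/-- Nearly all fans at exact points are spread. -/
theorem spread_big {S : PCl 3} {a R h₁ : ℝ} {i₀ : Fin 3} (ha : 1 < a) (hR : 0 < R)
    (hU : UBa 3 a R)
    (hst : ∀ (τ : ℝ) (J : ℕ) (F : Fam 3 J) (A : F.Ω → Prop), S.St τ J F A → Fam.Stt F a R τ A)
    (hlb : ∀ (τ : ℝ) (J : ℕ) (F : Fam 3 J) (A : F.Ω → Prop), S.St τ J F A →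
      Lb F i₀ ⌊h₁ * J⌋₊ A) {x ϖ : ℝ} (hx : 0 < x) (hϖ : 0 < ϖ) :
    Clp S (fun J F A => ∀ q : ℕ, q ≤ J → x * J ≤ q → q + 2 ≤ ⌊h₁ * J⌋₊ →
      (1 - ϖ) * Pe F.p A ≤ Pe F.p (Spd F i₀ q A)) := by
  classical
  obtain ⟨τ, hτ, J₁, hsp⟩ := spread_part ha hR hU hst hlb hx
  have h1 : Clp S (fun J F A => 0 < Pe F.p A ∧ ∀ q : ℕ, q ≤ J → x * J ≤ q →
      q + 2 ≤ ⌊h₁ * J⌋₊ → ∃ B : F.Ω → Prop, Sub B A ∧
        Real.exp (-Real.log 2) * Pe F.p A ≤ Pe F.p B ∧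
        ∀ ω, B ω → ∃ ω' ω'', B ω' ∧ B ω'' ∧ Fam.pt F ω' = Fam.pt F ω ∧
          Fam.pt F ω'' = Fam.pt F ω ∧ 1 / 2 ^ (q + 1) ≤ |F.d ω' i₀ - F.d ω'' i₀|) :=
    Clp.base τ hτ J₁ fun J hJ F A hS =>
      ⟨lt_of_lt_of_le (Real.exp_pos _) (hst _ _ _ _ hS).2.2.2, hsp J hJ F A hS⟩
  refine Clp.mono (J₂ := 0) (h1.ev hϖ) fun J _ F A hA q hq hxq hq2 => ?_
  have hsub : Sub (fun ω => A ω ∧ ¬ Spd F i₀ q A ω) A := fun ω hω => hω.1
  have hadd : Pe F.p A = Pe F.p (Spd F i₀ q A) + Pe F.p (fun ω => A ω ∧ ¬ Spd F i₀ q A ω) := by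
    simp_rw [Pe_eq]
    rw [← Finset.sum_add_distrib]
    refine Finset.sum_congr rfl fun ω _ => ?_
    by_cases h2 : Spd F i₀ q A ω
    · have h3 : A ω := h2.1
      simp [h2, h3]
    · by_cases h3 : A ω <;> simp [h2, h3]
  by_cases hbig : ϖ * Pe F.p A ≤ Pe F.p (fun ω => A ω ∧ ¬ Spd F i₀ q A ω)
  · exfalso
    obtain ⟨hN, hN2⟩ := hA _ hsub hbig
    obtain ⟨B, hB, hPB, hBs⟩ := hN2 q hq hxq hq2
    have hB0 : 0 < Pe F.p B := lt_of_lt_of_le (mul_pos (Real.exp_pos _) hN) hPB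
    have hex : ∃ ω, B ω := by
      by_contra hcon
      push Not at hcon
      rw [Pe_eq] at hB0
      refine absurd hB0 (not_lt.2 (le_of_eq ?_))
      exact Finset.sum_eq_zero fun ω _ => if_neg (hcon ω)
    obtain ⟨ω, hω⟩ := hex
    obtain ⟨ω', ω'', b1, b2, b3, b4, b5⟩ := hBs ω hω
    exact (hB ω hω).2 ⟨(hB ω hω).1, ω', ω'', (hB ω' b1).1, (hB ω'' b2).1, b3, b4, b5⟩
  · push Not at hbig
    linarith only [hadd, hbig]

/-- **The e-rows.** Planks of the windows `w₀`, of thickness `T`, own slopes known to `D` digits from the windows `y`: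
the rows of the position beyond `w` are full given the static box `(w, P, P)` in the own frame, if
`P ≤ w + D`. -/
theorem e_row {S : PCl 3} {a R h₁ : ℝ} {i₀ : Fin 3} {c s₂ : ℝ} {r : ℝ → ℝ} {D₀ : Set ℝ}
    {σ : ℝ → Row} (hC : Cs S a R h₁ i₀ c s₂ r D₀ σ) {y : ℚ} (hy0 : 0 ≤ y) (hy1 : y ≤ 1)
    {k η C : ℝ} (hk : 0 < k) (hη : 0 < η) (hC1 : 1 ≤ C) :
    Clp S (fun J F A => ∀ ς : Fin 3 → Fin 3, Function.Injective ς → ς 0 = i₀ →
      ∀ (Λ : Type) (κ : F.Ω → Λ) (pl : Λ → Pln) (al : F.Ω → ℝ) (w₀ lam T P L D w r' : ℕ),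
      (∀ ω, A ω → Inc (ς 0) (ς 1) (ς 2) w₀ lam T C (pl (κ ω)) (F.t ω) (F.x ω) (F.d ω)) →
      (∃ φ : (Fin 3 → ℤ) × (ℕ × F.ζ) → Λ, ∀ ω, A ω → κ ω = φ (Fam.pt F ω)) →
      (∃ ψ : ((Fin 3 → ℝ) × (Fin 3 → ℝ)) × F.ζ × ℕ → Λ, ∀ ω, A ω → κ ω = ψ (slam F w₀ ω)) →
      (∃ φ : (Fin 3 → ℤ) × (ℕ × F.ζ) → ℝ, ∀ ω, A ω → al ω = φ (Fam.pt F ω)) →
      (∀ ω, A ω → |al ω| ≤ C) →
      (∃ nu : (Fin 3 → ℤ) × (ℕ × F.ζ) → ℝ, ∀ ω, A ω →
        |F.d ω (ς 1) - al ω * F.d ω (ς 0) - nu (Fam.pt F ω)| ≤ C / 2 ^ L) →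
      w₀ ≤ w → (P : ℝ) + w₀ + k * J ≤ w + T → ⌊(y : ℝ) * J⌋₊ ≤ w → w ≤ P → P ≤ J → D ≤ L →
      (D : ℝ) + k * J ≤ (σ 1).rot y * J → (P : ℝ) + k * J ≤ w + D → w ≤ r' → r' ≤ J →
      ((r' : ℝ) - w) * Real.log 2 - η * J ≤
        CH (Pool.Agent.H49.Ent.cond F.p A True) (fun ω => ⌊(2 : ℝ) ^ r' * F.x ω (ς 0)⌋)
          (cnd F ς w P D κ pl al)) := by
  classical
  have hh₁ := hC.h₁0
  obtain ⟨ε, hε⟩ : ∃ ε, ε = min (min (k / 8) (η / 16)) (min (h₁ / 8) (1 / 8)) := ⟨_, rfl⟩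
  have hε0 : 0 < ε := by
    rw [hε]
    refine lt_min (lt_min (by linarith only [hk]) (by linarith only [hη])) (lt_min (by linarith only [hh₁]) (by norm_num))
  have hεk : ε ≤ k / 8 := by rw [hε]; exact (min_le_left _ _).trans (min_le_left _ _)
  have hεη : ε ≤ η / 16 := by rw [hε]; exact (min_le_left _ _).trans (min_le_right _ _)
  have hεh : ε ≤ h₁ / 8 := by rw [hε]; exact (min_le_right _ _).trans (min_le_left _ _)
  have hε1 : ε ≤ 1 / 8 := by rw [hε]; exact (min_le_right _ _).trans (min_le_right _ _)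
  obtain ⟨ϖ, hϖ⟩ : ∃ ϖ, ϖ = min (1 / 2) (η / 4) := ⟨_, rfl⟩
  have hϖ0 : 0 < ϖ := by rw [hϖ]; exact lt_min (by norm_num) (by linarith only [hε0, hεη])
  have hϖ2 : ϖ ≤ 1 / 2 := by rw [hϖ]; exact min_le_left _ _
  have hϖη : ϖ ≤ η / 4 := by rw [hϖ]; exact min_le_right _ _
  obtain ⟨c₀, hc₀⟩ : ∃ c₀ : ℕ, 8 * C ≤ 2 ^ c₀ := by
    obtain ⟨n, hn⟩ := exists_nat_gt (8 * C)
    exact ⟨n, hn.le.trans (by exact_mod_cast (Nat.lt_two_pow_self (n := n)).le)⟩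
  have hlog11 : 0 ≤ Real.log 11 := Real.log_nonneg (by norm_num)
  have hlog21 : 0 ≤ Real.log 21 := Real.log_nonneg (by norm_num)
  have hlog2 : 0 < Real.log 2 := Real.log_pos one_lt_two
  have hlog21' : Real.log 2 ≤ 1 := by
    have := Real.log_two_lt_d9
    linarith only [hε0, hε1, this]
  have hrow := hC.row 1 one_pos le_rfl hC.D1
  have k1 := (hrow.rot y hy0 hy1).1 ε hε0
  have k2 := spread_big hC.a1 hC.R0 hC.ub hC.st hC.lb hε0 hϖ0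
  have k3 : Clp S (fun J F A => 0 < Pe F.p A) :=
    Clp.base 1 one_pos 0 fun J _ F A hS => lt_of_lt_of_le (Real.exp_pos _) (hC.st _ _ _ _ hS).2.2.2
  have k4 := (wfe_cls (S := S) (i₀ := i₀) hC.a1.le hC.R0 hC.ub hC.h₁0 hC.st hC.lb
    (η := η / 4) (by linarith only [hε0, hεη]) (1 + 2 * (C + 4)) 2 (Real.log (2 * 5 + 1))).ev
    (ϖ := 1 / 2) (by norm_num)
  obtain ⟨J₃, hJ₃⟩ := exists_nat_gt ((c₀ + 10) / ε + (Real.log 11 + 3 * Real.log 21) / (η / 8))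
  refine Clp.mono (J₂ := J₃) (((k1.and k2).and k3).and k4) ?_
  rintro J hJ F A ⟨⟨⟨d1, d2⟩, hA0⟩, d4⟩ ς hς hς0 Λ κ pl al w₀ lam T P L D w r' hinc ⟨φ, hφ⟩ ⟨ψ, hψ⟩
    ⟨fa, hfa⟩ hbd ⟨nu, hnu⟩ hw₀ hTT hyw hwP hPJ hDL hDr hPD hwr hrJ
  have hJr : (c₀ + 10) / ε + (Real.log 11 + 3 * Real.log 21) / (η / 8) < J :=
    hJ₃.trans_le (by exact_mod_cast hJ)
  have q1 : 0 < ((c₀ : ℝ) + 10) / ε := by positivity
  have q2 : 0 ≤ (Real.log 11 + 3 * Real.log 21) / (η / 8) := by positivity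
  have r1 : (c₀ : ℝ) + 10 < ε * J := by
    have : ((c₀ : ℝ) + 10) / ε < J := by linarith only [hJr, q2]
    rw [div_lt_iff₀ hε0] at this
    linarith only [this]
  have r2 : Real.log 11 + 3 * Real.log 21 < η / 8 * J := by
    have : (Real.log 11 + 3 * Real.log 21) / (η / 8) < J := by linarith only [hJr, q1]
    rw [div_lt_iff₀ (by linarith only [hε0, hεη])] at this
    linarith only [this]
  have hc0 : (0 : ℝ) ≤ c₀ := Nat.cast_nonneg c₀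
  have hJ0 : (0 : ℝ) < J := by
    by_contra hcon
    push Not at hcon
    have : ε * J ≤ 0 := mul_nonpos_of_nonneg_of_nonpos hε0.le hcon
    linarith only [hJr, q1, q2, hcon]
  have hkJ : 8 * (ε * J) ≤ k * J := by
    have := mul_le_mul_of_nonneg_right hεk hJ0.le
    linarith only [this]
  have hD0 : (0 : ℝ) ≤ D := Nat.cast_nonneg D
  -- the frames of the windows `y`
  rcases d1 with d1 | ⟨-, e, n, ζ, h1, h2⟩
  · exfalso
    have : (σ 1).rot y * J ≤ ε * J := mul_le_mul_of_nonneg_right (by linarith only [d1]) hJ0.le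
    linarith only [hε0, hε1, hDr, r1, hkJ, this]
  rw [ptq_one F] at h1 h2
  obtain ⟨l, hl⟩ : ∃ l, l = ⌊((σ 1).rot y - ε) * J⌋₊ := ⟨_, rfl⟩
  rw [← hl] at h1 h2
  obtain ⟨w₁, hw₁⟩ : ∃ w₁, w₁ = ⌊(y : ℝ) * J⌋₊ := ⟨_, rfl⟩
  rw [← hw₁] at h2 hyw
  have hl1 : ((σ 1).rot y - ε) * J < l + 1 := by rw [hl]; exact Nat.lt_floor_add_one _
  -- spread
  obtain ⟨q, hq⟩ : ∃ q, q = ⌈ε * J⌉₊ := ⟨_, rfl⟩
  have hq1 : ε * J ≤ q := by rw [hq]; exact Nat.le_ceil _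
  have hq2 : (q : ℝ) < ε * J + 1 := by
    rw [hq]
    exact Nat.ceil_lt_add_one (by positivity)
  have hqJ : q ≤ J := by
    have : (q : ℝ) ≤ J := by
      have : ε * J ≤ 1 / 8 * J := mul_le_mul_of_nonneg_right hε1 hJ0.le
      linarith only [hε0, hε1, r1, hq2, this]
    exact_mod_cast this
  have hqh : q + 2 ≤ ⌊h₁ * J⌋₊ := by
    refine Nat.le_floor ?_
    push_cast
    have : ε * J ≤ h₁ / 8 * J := mul_le_mul_of_nonneg_right hεh hJ0.le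
    linarith only [hε0, hε1, r1, hq2, this]
  have hPB := d2 q hqJ hq1 hqh
  obtain ⟨B, hB⟩ : ∃ B, B = Spd F i₀ q A := ⟨_, rfl⟩
  rw [← hB] at hPB
  have hBA : Sub B A := by
    intro ω hω
    rw [hB] at hω
    exact hω.1
  have hPB2 : 1 / 2 * Pe F.p A ≤ Pe F.p B := by
    refine le_trans ?_ hPB
    exact mul_le_mul_of_nonneg_right (by linarith only [hϖ2]) hA0.le
  have hB0 : 0 < Pe F.p B := lt_of_lt_of_le (by positivity) hPB2
  -- the digits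
  obtain ⟨E, hE⟩ : ∃ E, E = D - ⌊4 * (ε * J)⌋₊ := ⟨_, rfl⟩
  have h4 : (⌊4 * (ε * J)⌋₊ : ℝ) ≤ 4 * (ε * J) := Nat.floor_le (by positivity)
  have h4' : 4 * (ε * J) < ⌊4 * (ε * J)⌋₊ + 1 := Nat.lt_floor_add_one _
  have hwPr : (w : ℝ) ≤ P := by exact_mod_cast hwP
  have hDbig : ⌊4 * (ε * J)⌋₊ ≤ D := by
    have : (⌊4 * (ε * J)⌋₊ : ℝ) ≤ D := by linarith only [hε0, hε1, hPD, r1, hkJ, h4, hwPr]
    exact_mod_cast this
  have hEr : (E : ℝ) = D - ⌊4 * (ε * J)⌋₊ := by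
    rw [hE, Nat.cast_sub hDbig]
  have hED : E ≤ D := by rw [hE]; exact Nat.sub_le _ _
  have g1 : E + c₀ + q + 1 ≤ L := by
    refine le_trans ?_ hDL
    have : ((E + c₀ + q + 1 : ℕ) : ℝ) ≤ D := by
      push_cast
      linarith only [hε0, hε1, r1, hq2, h4', hEr]
    exact_mod_cast this
  have g2 : E + q + 4 ≤ l := by
    have : ((E + q + 4 : ℕ) : ℝ) < l + 1 := by
      push_cast
      linarith only [hε0, hε1, hDr, r1, hkJ, hl1, hq2, h4', hEr]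
    have : E + q + 4 < l + 1 := by exact_mod_cast this
    omega
  have g3 : P ≤ w + E := by
    have : (P : ℝ) ≤ ((w + E : ℕ) : ℝ) := by
      push_cast
      linarith only [hε0, hε1, hPD, r1, hkJ, h4, hEr]
    exact_mod_cast this
  have g4 : P + c₀ ≤ w + L := by
    have hDLr : (D : ℝ) ≤ L := by exact_mod_cast hDL
    have : ((P + c₀ : ℕ) : ℝ) ≤ ((w + L : ℕ) : ℝ) := by
      push_cast
      linarith only [hε0, hε1, hPD, r1, hkJ, hDLr]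
    exact_mod_cast this
  have g5 : P + w₀ + c₀ ≤ w + T := by
    have : ((P + w₀ + c₀ : ℕ) : ℝ) ≤ ((w + T : ℕ) : ℝ) := by
      push_cast
      linarith only [hε0, hε1, hTT, r1, hkJ]
    exact_mod_cast this
  have pE : (0 : ℝ) < 2 ^ E := by positivity
  -- the own slope is close to the slope of the window
  have hnear : ∀ ω, B ω → |al ω - ζ (slam F w₁ ω) (ς 1)| ≤ 1 / 2 ^ E := by
    intro ω hω
    have hAω := hBA ω hω
    rw [hB] at hω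
    obtain ⟨-, ω', ω'', b1, b2, b3, b4, b5⟩ := hω
    have a1 := hnu ω' b1
    have a2 := hnu ω'' b2
    have a3 := h1 ω' b1 (ς 1)
    have a4 := h1 ω'' b2 (ς 1)
    rw [hfa ω' b1, b3, ← hfa ω hAω] at a1
    rw [hfa ω'' b2, b4, ← hfa ω hAω] at a2
    rw [b3] at a3
    rw [b4] at a4
    rw [hς0] at a1 a2
    have a5 := frame_close (U := ℕ) (d := F.d) a3 a4 a1 a2 (by positivity) b5
    have a6 := h2 ω hAω (ς 1)
    have c1 : (1 : ℝ) / 2 ^ l ≤ 1 / 2 ^ (E + q + 4) := inv_mono g2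
    have c2 : C / 2 ^ L ≤ 1 / 8 * (1 / 2 ^ (E + q + 1)) := by
      have m1 : (2 : ℝ) ^ (E + q + 1 + c₀) ≤ 2 ^ L := pow_le_pow_right₀ (by norm_num) (by omega)
      rw [pow_add] at m1
      rw [div_le_iff₀ (by positivity)]
      have m2 : (1 : ℝ) / 8 * (1 / 2 ^ (E + q + 1)) * (2 ^ (E + q + 1) * 2 ^ c₀) ≤
          1 / 8 * (1 / 2 ^ (E + q + 1)) * 2 ^ L := mul_le_mul_of_nonneg_left m1 (by positivity)
      have m3 : (1 : ℝ) / 8 * (1 / 2 ^ (E + q + 1)) * (2 ^ (E + q + 1) * 2 ^ c₀) =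
          1 / 8 * 2 ^ c₀ := by field_simp
      linarith only [hc₀, m2, m3]
    have c3 : (1 : ℝ) / 2 ^ (E + q + 4) = 1 / 8 * (1 / 2 ^ (E + q + 1)) := by
      rw [show E + q + 4 = (E + q + 1) + 3 by ring, pow_add 2 (E + q + 1) 3]
      field_simp
      norm_num
    have c4 : (1 : ℝ) / 2 ^ (E + q + 1) = 1 / 2 ^ E * (1 / 2 ^ (q + 1)) := by
      rw [show E + q + 1 = E + (q + 1) by ring, pow_add]
      field_simp
    have c5 : (2 * (1 / 2 ^ l) + 2 * (C / 2 ^ L)) / (1 / 2 ^ (q + 1)) ≤ 1 / 2 * (1 / 2 ^ E) := by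
      rw [div_le_iff₀ (by positivity)]
      rw [c3, c4] at c1
      rw [c4] at c2
      linarith only [c1, c2]
    have c6 : (1 : ℝ) / 2 ^ l ≤ 1 / 2 * (1 / 2 ^ E) := by
      have m1 : (1 : ℝ) / 2 ^ l ≤ 1 / 2 ^ (E + 1) := inv_mono (by omega)
      have m2 : (1 : ℝ) / 2 ^ (E + 1) = 1 / 2 * (1 / 2 ^ E) := by
        rw [pow_succ]
        field_simp
      linarith only [m1, m2]
    have c7 := abs_sub_le (al ω) (e (Fam.pt F ω) (ς 1)) (ζ (slam F w₁ ω) (ς 1))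
    linarith only [a5, a6, c5, c6, c7]
  have hdat : Dat F B ς w₀ w₁ lam T L E C κ pl al φ ψ fa nu (fun s => ζ s (ς 1)) :=
    ⟨fun ω hω => hinc ω (hBA ω hω), fun ω hω => hφ ω (hBA ω hω), fun ω hω => hψ ω (hBA ω hω),
      fun ω hω => hfa ω (hBA ω hω), fun ω hω => hbd ω (hBA ω hω), fun ω hω => hnu ω (hBA ω hω),
      hnear⟩
  obtain ⟨f, nn, hlok⟩ := hdat.lok hς hC1 hc₀ hw₀ g5 hyw hwP hPJ g4 g3
  rw [hς0] at hlok
  have hfull := d4 B hBA hPB2 w (P - w) f nn Λ _ _ _ _ _ hlok r' (by omega) hrJ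
  have hlB := isLaw_cond F.isLaw hB0
  have hin : ∀ ω, 0 < Pool.Agent.H49.Ent.cond F.p B True ω → B ω := fun ω hω =>
    of_eq_true (by
      have := ((cond_pos_iff F.isLaw.nonneg B True ω).1 hω).2
      exact this)
  have hrw := hdat.row hς (D := D) g3 hED hlB hin (fun ω => ⌊(2 : ℝ) ^ r' * F.x ω (ς 0)⌋)
  have hfull' : ((r' : ℝ) - w) * Real.log 2 - η / 4 * J ≤
      CH (Pool.Agent.H49.Ent.cond F.p B True) (fun ω => ⌊(2 : ℝ) ^ r' * F.x ω (ς 0)⌋)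
        (lw F ς w w₀ w₁ P E pl ψ (fun s => ζ s (ς 1))) := by
    rw [Nat.zero_add] at hfull
    unfold lw
    rw [hς0, Nat.zero_add]
    exact hfull
  have hev := CH_event F.isLaw hBA hA0 (fun ω => ⌊(2 : ℝ) ^ r' * F.x ω (ς 0)⌋)
    (cnd F ς w P D κ pl al)
  have hratio : 1 - ϖ ≤ Pe F.p B / Pe F.p A := by
    rw [le_div_iff₀ hA0]
    exact hPB
  obtain ⟨H, hH⟩ : ∃ H, H = CH (Pool.Agent.H49.Ent.cond F.p B True)
    (fun ω => ⌊(2 : ℝ) ^ r' * F.x ω (ς 0)⌋) (cnd F ς w P D κ pl al) := ⟨_, rfl⟩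
  have hH0 : 0 ≤ H := by rw [hH]; exact CH_nonneg hlB.nonneg _ _
  rw [← hH] at hrw hev
  refine le_trans ?_ hev
  have m0 : ((D : ℝ) - E) * Real.log 2 ≤ η / 4 * J := by
    have m1 : (D : ℝ) - E ≤ 4 * (ε * J) := by linarith only [h4, hEr]
    have m2 : ((D : ℝ) - E) * Real.log 2 ≤ 4 * (ε * J) * 1 :=
      mul_le_mul m1 hlog21' hlog2.le (by positivity)
    have m3 : ε * J ≤ η / 16 * J := mul_le_mul_of_nonneg_right hεη hJ0.le
    linarith only [m2, m3]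
  have m1 : ((r' : ℝ) - w) * Real.log 2 - 3 / 4 * (η * J) ≤ H := by
    have : 0 ≤ η * J := by positivity
    linarith only [hlog11, hlog21, r2, hfull', hrw, m0]
  have m2 : (1 - ϖ) * H ≤ Pe F.p B / Pe F.p A * H := mul_le_mul_of_nonneg_right hratio hH0
  refine le_trans ?_ m2
  have m3 : ((r' : ℝ) - w) * Real.log 2 ≤ J := by
    have m4 : (r' : ℝ) ≤ J := by exact_mod_cast hrJ
    have m5 : (0 : ℝ) ≤ w := Nat.cast_nonneg w
    have m6 : ((r' : ℝ) - w) * Real.log 2 ≤ J * 1 :=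
      mul_le_mul (by linarith only [m4]) hlog21' hlog2.le hJ0.le
    linarith only [m6]
  rcases le_or_gt (((r' : ℝ) - w) * Real.log 2 - 3 / 4 * (η * J)) 0 with hneg | hpos
  · have m7 : 0 ≤ (1 - ϖ) * H := mul_nonneg (by linarith only [hε0, hε1, hϖ2]) hH0
    have : 0 ≤ η * J := by positivity
    linarith only [hlog11, hlog21, r2, hneg, m7]
  · have m7 : (1 - ϖ) * (((r' : ℝ) - w) * Real.log 2 - 3 / 4 * (η * J)) ≤ (1 - ϖ) * H :=
      mul_le_mul_of_nonneg_left m1 (by linarith only [hε0, hε1, hϖ2])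
    refine le_trans ?_ m7
    have m8 : ϖ * (((r' : ℝ) - w) * Real.log 2 - 3 / 4 * (η * J)) ≤ η / 4 * J := by
      refine mul_le_mul hϖη ?_ hpos.le (by linarith only [hε0, hεη])
      have : 0 ≤ η * J := by positivity
      linarith only [hlog11, hlog21, r2, m3]
    linarith only [m8]

end Pool.S6C.Uvc
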