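import Pool.Agent.H80.S6C.Ext0

/-!
# The rate function of the positions
-/

set_option autoImplicit false

namespace Pool.S6C

open Finset Real
open Pool.Agent.H49.Ent Pool.Agent.H32.Dense Pool.STK Pool.KA Pool.KSAT Pool.K2S Pool.PB Pool.KS6

/-- The chain rule for the rows. -/
theorem CH_rows {J : ℕ} (F : Fam 3 J) {q : F.Ω → ℝ} (hq : IsLaw q) {r r' : ℕ} (h : r ≤ r') :
    CH q (F.X r') (fun ω => (F.X r ω, F.W ω)) = CH q (F.X r') F.W - CH q (F.X r) F.W := by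
  obtain ⟨φ, hφ⟩ := ptr_coarse F h
  have e1 : H q (fun ω => (F.X r' ω, (F.X r ω, F.W ω))) = H q (fun ω => (F.X r' ω, F.W ω)) := by
    refine H_congr hq.nonneg (fun ω ω' _ _ hh => ?_) (fun ω ω' _ _ hh => ?_)
    · have h1 := hφ ω
      have h2 := hφ ω'
      obtain ⟨a1, a2⟩ := Prod.ext_iff.mp hh
      have a1' : F.X r' ω = F.X r' ω' := a1
      have a2' : F.W ω = F.W ω' := a2
      have h3 : ptr F r' ω = ptr F r' ω' := Prod.ext a1' a2'
      rw [h3, ← h2] at h1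
      have h4 : F.X r ω = F.X r ω' := (Prod.ext_iff.mp h1).1
      exact Prod.ext a1' (Prod.ext h4 a2')
    · obtain ⟨a1, a2⟩ := Prod.ext_iff.mp hh
      exact Prod.ext a1 (Prod.ext_iff.mp a2).2
  unfold CH
  rw [e1]
  ring

theorem CH_rows_le {J : ℕ} (F : Fam 3 J) {q : F.Ω → ℝ} (hq : IsLaw q) {r r' : ℕ} (h : r ≤ r') :
    CH q (F.X r') (fun ω => (F.X r ω, F.W ω)) ≤ 3 * (((r' : ℝ) - r) * Real.log 2) := by
  obtain ⟨n, rfl⟩ := Nat.exists_eq_add_of_le h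
  have := Pool.KA.TRC.CH_floor hq F.x F.W r n
  push_cast at this ⊢
  rw [add_sub_cancel_left]
  exact this

/-- Entropies of the positions as numbers, at rational rows. -/
theorem ext_rate {a R h₁ : ℝ} {i₀ : Fin 3} (ha : 1 ≤ a) (hR : 0 ≤ R) {S : PCl 3} (hS : S.Ne)
    (hst : ∀ (τ : ℝ) (J : ℕ) (F : Fam 3 J) (A : F.Ω → Prop), S.St τ J F A →
      (bas a R h₁ i₀).St τ J F A) :
    ∃ S' : PCl 3, SubC S' S ∧ ∃ g : ℚ → ℝ, ∀ P : ℚ, P ≤ 1 → ∀ h : ℝ, 0 < h →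
      Clp S' (fun J F A => |CH (Pool.Agent.H49.Ent.cond F.p A True) (F.X ⌊(P : ℝ) * J⌋₊) F.W -
        g P * J| ≤ h * J) := by
  classical
  have hpos : ∀ (τ : ℝ) (J : ℕ) (F : Fam 3 J) (A : F.Ω → Prop), S.St τ J F A → 0 < Pe F.p A :=
    fun τ J F A hA => lt_of_lt_of_le (Real.exp_pos _) (hst τ J F A hA).1.2.2.2
  obtain ⟨f, hf⟩ := exists_surjective_nat (Option ℚ)
  obtain ⟨Y, hY⟩ : ∃ Y : Option ℚ → ∀ (J : ℕ) (F : Fam 3 J), F.Ω → (Fin 3 → ℤ) × (ℕ × F.ζ),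
      Y = fun o J F ω => Option.elim o ((fun _ => 0), F.W ω)
        fun P : ℚ => (F.X ⌊min (P : ℝ) 1 * J⌋₊ ω, F.W ω) := ⟨_, rfl⟩
  obtain ⟨S', h1, h2, h3⟩ := ext_ent hS hpos (fun _ J F => (Fin 3 → ℤ) × (ℕ × F.ζ))
    (fun n J F => Y (f n) J F) (fun _ => 10 * Real.log 2 + 3) (by
      intro n
      refine Clp.of one_pos 1 fun J hJ F A hA => ?_
      have hb := (hst 1 J F A hA).1
      have k1 := cnt_pt_le ha hR zero_le_one hb
      have hJ1 : (1 : ℝ) ≤ J := by exact_mod_cast hJ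
      have hl2 : 0 < Real.log 2 := Real.log_pos (by norm_num)
      have k2 : Real.exp (3 * ((J + 2) * Real.log 2) + J * Real.log 2 + 3 * (1 * J)) ≤
          Real.exp ((10 * Real.log 2 + 3) * J) := by
        refine Real.exp_le_exp.2 ?_
        nlinarith only [hJ1, hl2]
      refine le_trans ?_ (k1.trans k2)
      have k3 : cnt F.p (Y (f n) J F) A ≤ cnt F.p (fun ω => (F.X J ω, F.W ω)) A := by
        rcases f n with _ | P
        · refine cnt_comp_le F.p _ _ (fun y => (fun _ => 0, y.2)) fun ω _ _ => ?_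
          rw [hY]
          rfl
        · have hfl : ⌊min (P : ℝ) 1 * J⌋₊ ≤ J := by
            have h5 : ⌊min (P : ℝ) 1 * J⌋₊ ≤ ⌊(1 : ℝ) * J⌋₊ := floor_row (min_le_right _ _) J
            simpa using h5
          obtain ⟨φ, hφ⟩ := ptr_coarse F hfl
          refine cnt_comp_le F.p _ _ φ fun ω _ _ => ?_
          rw [hY]
          exact hφ ω
      exact_mod_cast k3)
  have h4 : ∀ o : Option ℚ, ∃ η : ℝ, ∀ h : ℝ, 0 < h → Clp S' (fun J F A =>
      |H (Pool.Agent.H49.Ent.cond F.p A True) (Y o J F) - η * J| ≤ h * J) := by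
    intro o
    obtain ⟨n, rfl⟩ := hf o
    exact h3 n
  choose η hη using h4
  refine ⟨S', ⟨h1, h2⟩, fun P => η (some P) - η none, fun P hP h hh => ?_⟩
  have hpc : Clp S' (fun _ F A => IsLaw (Pool.Agent.H49.Ent.cond F.p A True)) :=
    Clp.of one_pos 0 fun J _ F A hA => isLaw_cond F.isLaw (hpos 1 J F A (h2 1 J F A hA))
  refine Clp.mono (J₂ := 0) (hpc.and ((hη (some P) (h / 2) (by linarith only [hh])).and
    (hη none (h / 2) (by linarith)))) ?_
  rintro J - F A ⟨hlaw, a1, a2⟩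
  have hP1 : (P : ℝ) ≤ 1 := by exact_mod_cast hP
  have e1 : H (Pool.Agent.H49.Ent.cond F.p A True) (Y (some P) J F) =
      H (Pool.Agent.H49.Ent.cond F.p A True) (fun ω => (F.X ⌊(P : ℝ) * J⌋₊ ω, F.W ω)) := by
    rw [hY]
    simp only [Option.elim, min_eq_left hP1]
  have e2 : H (Pool.Agent.H49.Ent.cond F.p A True) (Y none J F) =
      H (Pool.Agent.H49.Ent.cond F.p A True) F.W := by
    rw [hY]
    refine H_congr hlaw.nonneg (fun ω ω' _ _ hh => ?_) (fun ω ω' _ _ hh => ?_)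
    · exact Prod.ext rfl hh
    · exact (Prod.ext_iff.mp hh).2
  rw [e1] at a1
  rw [e2] at a2
  unfold CH
  rw [abs_le] at a1 a2 ⊢
  constructor <;> nlinarith only [a1, a2, a1.1, a1.2, a2.1, a2.2]

/-- Rational numbers around a real number of `[0, 1]`. -/
theorem rat_around {x e : ℝ} (h0 : 0 ≤ x) (h1 : x ≤ 1) (he : 0 < e) :
    ∃ v v' : ℚ, 0 ≤ v ∧ v' ≤ 1 ∧ (v : ℝ) ≤ x ∧ x ≤ v' ∧ (v' : ℝ) - v < e := by
  obtain ⟨v, a1, a2⟩ : ∃ v : ℚ, 0 ≤ v ∧ (v : ℝ) ≤ x ∧ x - e / 2 < v := by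
    rcases lt_or_eq_of_le h0 with h | h
    · obtain ⟨v, b1, b2⟩ := exists_rat_btwn (show max 0 (x - e / 2) < x from
        max_lt h (by linarith only [he]))
      have b3 : (0 : ℝ) < v := lt_of_le_of_lt (le_max_left _ _) b1
      exact ⟨v, by exact_mod_cast b3.le, b2.le, lt_of_le_of_lt (le_max_right _ _) b1⟩
    · exact ⟨0, le_rfl, by simpa using h0, by rw [← h]; simp; linarith⟩
  obtain ⟨v', c1, c2⟩ : ∃ v' : ℚ, v' ≤ 1 ∧ x ≤ (v' : ℝ) ∧ (v' : ℝ) < x + e / 2 := by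
    rcases lt_or_eq_of_le h1 with h | h
    · obtain ⟨v, b1, b2⟩ := exists_rat_btwn (show x < min 1 (x + e / 2) from
        lt_min h (by linarith only [he]))
      have b3 : (v : ℝ) < 1 := lt_of_lt_of_le b2 (min_le_left _ _)
      exact ⟨v, by exact_mod_cast b3.le, b1.le, lt_of_lt_of_le b2 (min_le_right _ _)⟩
    · exact ⟨1, le_rfl, by simpa using h1, by rw [h]; simp; linarith only [he]⟩
  exact ⟨v, v', a1, c1, a2.1, c2.1, by linarith only [a2, c2, a2.2, c2.2]⟩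

/-- A claim about numbers which is false gives a contradiction. -/
theorem clp_false {S : PCl 3} (hS : S.Ne) {Φ : Stat 3} (hc : Clp S Φ) (J₀ : ℕ)
    (h : ∀ J ≥ J₀, ∀ (F : Fam 3 J) (A : F.Ω → Prop), ¬ Φ J F A) : False :=
  Clp.not_false hS (Clp.mono (J₂ := J₀) hc fun J hJ F A hA => h J hJ F A hA)

/-- The rate function at all real rows. -/
theorem rate_real {a R h₁ : ℝ} {i₀ : Fin 3} {S : PCl 3} (hS : S.Ne)
    (hst : ∀ (τ : ℝ) (J : ℕ) (F : Fam 3 J) (A : F.Ω → Prop), S.St τ J F A →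
      (bas a R h₁ i₀).St τ J F A) {g : ℚ → ℝ}
    (hg : ∀ P : ℚ, P ≤ 1 → ∀ h : ℝ, 0 < h →
      Clp S (fun J F A => |CH (Pool.Agent.H49.Ent.cond F.p A True) (F.X ⌊(P : ℝ) * J⌋₊) F.W -
        g P * J| ≤ h * J)) :
    ∃ r : ℝ → ℝ, LipschitzWith 3 r ∧ ∀ P : ℝ, 0 ≤ P → P ≤ 1 → ∀ h : ℝ, 0 < h →
      Clp S (fun J F A => |CH (Pool.Agent.H49.Ent.cond F.p A True) (F.X ⌊P * J⌋₊) F.W -
        r P * Real.log 2 * J| ≤ h * J) := by
  classical
  have hl2 : 0 < Real.log 2 := Real.log_pos (by norm_num)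
  have hlaw : Clp S (fun _ F A => IsLaw (Pool.Agent.H49.Ent.cond F.p A True)) :=
    Clp.of one_pos 0 fun J _ F A hA => isLaw_cond F.isLaw
      (lt_of_lt_of_le (Real.exp_pos _) (hst 1 J F A hA).1.2.2.2)
  -- monotone and Lipschitz at rational numbers
  have hml : ∀ P Q : ℚ, 0 ≤ P → P ≤ Q → Q ≤ 1 → g P ≤ g Q ∧
      g Q - g P ≤ 3 * (Q - P) * Real.log 2 := by
    intro P Q hP hPQ hQ
    have hP0 : (0 : ℝ) ≤ P := by exact_mod_cast hP
    have hPQ' : (P : ℝ) ≤ Q := by exact_mod_cast hPQ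
    constructor
    · by_contra hcon
      push Not at hcon
      obtain ⟨e, he⟩ : ∃ e, e = (g P - g Q) / 3 := ⟨_, rfl⟩
      have he0 : 0 < e := by rw [he]; linarith only [hcon]
      refine clp_false hS (hlaw.and ((hg P (hPQ.trans hQ) e he0).and (hg Q hQ e he0))) 1 ?_
      rintro J hJ F A ⟨hl, a1, a2⟩
      have hJ0 : (0 : ℝ) < J := by exact_mod_cast hJ
      have h1 := CH_rows F hl (floor_row hPQ' J)
      have h2 := CH_nonneg hl.nonneg (F.X ⌊(Q : ℝ) * J⌋₊) (fun ω => (F.X ⌊(P : ℝ) * J⌋₊ ω, F.W ω))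
      rw [abs_le] at a1 a2
      have e3 : g P = g Q + 3 * e := by rw [he]; ring
      rw [e3] at a1
      nlinarith only [a1, a2, h1, h2, he0, hJ0, a1.1, a2.2, mul_pos he0 hJ0]
    · by_contra hcon
      push Not at hcon
      obtain ⟨e, he⟩ : ∃ e, e = (g Q - g P - 3 * (Q - P) * Real.log 2) / 4 := ⟨_, rfl⟩
      have he0 : 0 < e := by rw [he]; linarith only [hcon]
      obtain ⟨J₀, hJ₀⟩ := exists_nat_gt (3 * Real.log 2 / e)
      refine clp_false hS (hlaw.and ((hg P (hPQ.trans hQ) e he0).and (hg Q hQ e he0)))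
        (J₀ + 1) ?_
      rintro J hJ F A ⟨hl, a1, a2⟩
      have hJ0 : (0 : ℝ) < J := by exact_mod_cast (by omega : 0 < J)
      have hJe : 3 * Real.log 2 < e * J := by
        have : 3 * Real.log 2 / e < J := hJ₀.trans_le (by exact_mod_cast (by omega : J₀ ≤ J))
        rw [div_lt_iff₀ he0] at this
        linarith only [this]
      have h1 := CH_rows F hl (floor_row hPQ' J)
      have h2 := CH_rows_le F hl (floor_row hPQ' J)
      have h3 : (⌊(Q : ℝ) * J⌋₊ : ℝ) ≤ Q * J := Nat.floor_le (by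
        exact mul_nonneg (hP0.trans hPQ') hJ0.le)
      have h4 : (P : ℝ) * J < ⌊(P : ℝ) * J⌋₊ + 1 := Nat.lt_floor_add_one _
      have h5 : 3 * (((⌊(Q : ℝ) * J⌋₊ : ℝ) - ⌊(P : ℝ) * J⌋₊) * Real.log 2) ≤
          3 * (((Q : ℝ) * J - P * J + 1) * Real.log 2) := by
        have : ((⌊(Q : ℝ) * J⌋₊ : ℝ) - ⌊(P : ℝ) * J⌋₊) * Real.log 2 ≤
            ((Q : ℝ) * J - P * J + 1) * Real.log 2 :=
          mul_le_mul_of_nonneg_right (by linarith only [h3, h4]) hl2.le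
        linarith only [this]
      rw [abs_le] at a1 a2
      have e3 : g Q = g P + 3 * (Q - P) * Real.log 2 + 4 * e := by rw [he]; ring
      rw [e3] at a2
      nlinarith only [hl2, a1, a2, hJe, h1, h2, h5, a1.1, a1.2, a2.1, a2.2, mul_pos he0 hJ0]
  -- extension
  obtain ⟨f, hf⟩ : ∃ f : ℝ → ℝ, f = fun x => if h : ∃ q : ℚ, (q : ℝ) = x then
      g h.choose / Real.log 2 else 0 := ⟨_, rfl⟩
  have hfq : ∀ q : ℚ, f q = g q / Real.log 2 := by
    intro q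
    have hex : ∃ q' : ℚ, (q' : ℝ) = q := ⟨q, rfl⟩
    rw [hf]
    simp only [dif_pos hex]
    have : hex.choose = q := by exact_mod_cast hex.choose_spec
    rw [this]
  obtain ⟨s, hs⟩ : ∃ s : Set ℝ, s = {x | ∃ q : ℚ, (q : ℝ) = x ∧ 0 ≤ q ∧ q ≤ 1} := ⟨_, rfl⟩
  have hlip : LipschitzOnWith 3 f s := by
    have key : ∀ P Q : ℚ, 0 ≤ P → P ≤ Q → Q ≤ 1 → |f P - f Q| ≤ 3 * |(P : ℝ) - Q| := by
      intro P Q hP hPQ hQ
      obtain ⟨b1, b2⟩ := hml P Q hP hPQ hQ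
      have hPQ' : (P : ℝ) ≤ Q := by exact_mod_cast hPQ
      have e1 : f P ≤ f Q := by
        rw [hfq, hfq]
        exact div_le_div_of_nonneg_right b1 hl2.le
      have e2 : f Q - f P ≤ 3 * (Q - P) := by
        rw [hfq, hfq, ← sub_div, div_le_iff₀ hl2]
        exact b2
      rw [abs_sub_comm, abs_of_nonneg (by linarith : 0 ≤ f Q - f P), abs_sub_comm (P : ℝ) Q,
        abs_of_nonneg (by linarith : (0 : ℝ) ≤ (Q : ℝ) - P)]
      exact e2
    refine LipschitzOnWith.of_dist_le_mul ?_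
    rw [hs]
    rintro _ ⟨P, rfl, hP0, hP1⟩ _ ⟨Q, rfl, hQ0, hQ1⟩
    rw [Real.dist_eq, Real.dist_eq]
    push_cast
    rcases le_total P Q with h | h
    · exact key P Q hP0 h hQ1
    · have := key Q P hQ0 h hP1
      rw [abs_sub_comm, abs_sub_comm (P : ℝ)]
      exact this
  obtain ⟨r, hr, hrf⟩ := hlip.extend_real
  refine ⟨r, hr, fun P hP0 hP1 h hh => ?_⟩
  obtain ⟨v, v', a1, a2, a3, a4, a5⟩ := rat_around hP0 hP1
    (show 0 < h / (8 * Real.log 2) by positivity)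
  have a6 : v ≤ 1 := by
    have : (v : ℝ) ≤ 1 := a3.trans hP1
    exact_mod_cast this
  have a7 : 0 ≤ v' := by
    have : (0 : ℝ) ≤ v' := hP0.trans a4
    exact_mod_cast this
  have hrv : r v * Real.log 2 = g v := by
    have : (v : ℝ) ∈ s := by rw [hs]; exact ⟨v, rfl, a1, a6⟩
    rw [← hrf this, hfq]
    field_simp
  have hrv' : r v' * Real.log 2 = g v' := by
    have : (v' : ℝ) ∈ s := by rw [hs]; exact ⟨v', rfl, a7, a2⟩
    rw [← hrf this, hfq]
    field_simp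
  have d1 := hr.dist_le_mul P v
  have d2 := hr.dist_le_mul P v'
  rw [Real.dist_eq, Real.dist_eq] at d1 d2
  push_cast at d1 d2
  rw [abs_of_nonneg (by linarith only [a3] : 0 ≤ P - (v : ℝ))] at d1
  rw [abs_sub_comm P (v' : ℝ), abs_of_nonneg (by linarith only [a4] : 0 ≤ (v' : ℝ) - P)] at d2
  have hq : h / (8 * Real.log 2) * Real.log 2 = h / 8 := by field_simp
  have d1' : |r P - r v| * Real.log 2 ≤ 3 * (h / 8) := by
    have : |r P - r v| ≤ 3 * (h / (8 * Real.log 2)) := by linarith only [a4, a5, d1]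
    calc _ ≤ 3 * (h / (8 * Real.log 2)) * Real.log 2 := mul_le_mul_of_nonneg_right this hl2.le
      _ = _ := by rw [mul_assoc, hq]
  have d2' : |r P - r v'| * Real.log 2 ≤ 3 * (h / 8) := by
    have : |r P - r v'| ≤ 3 * (h / (8 * Real.log 2)) := by linarith only [a3, a5, d2]
    calc _ ≤ 3 * (h / (8 * Real.log 2)) * Real.log 2 := mul_le_mul_of_nonneg_right this hl2.le
      _ = _ := by rw [mul_assoc, hq]
  have b1 : r P * Real.log 2 ≤ g v + 3 * (h / 8) := by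
    rw [← hrv]
    have := mul_le_mul_of_nonneg_right (le_abs_self (r P - r v)) hl2.le
    nlinarith only [d1', this]
  have b2 : g v' - 3 * (h / 8) ≤ r P * Real.log 2 := by
    rw [← hrv']
    have := mul_le_mul_of_nonneg_right (neg_abs_le (r P - r v')) hl2.le
    nlinarith only [d2', this]
  refine Clp.mono (J₂ := 0) (hlaw.and ((hg v a6 (h / 2) (by linarith only [hh])).and
    (hg v' a2 (h / 2) (by linarith only [hh])))) ?_
  rintro J - F A ⟨hl, c1, c2⟩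
  have hJ0 : (0 : ℝ) ≤ J := Nat.cast_nonneg J
  have m1 := CH_rows F hl (floor_row a3 J)
  have m2 := CH_nonneg hl.nonneg (F.X ⌊P * J⌋₊) (fun ω => (F.X ⌊(v : ℝ) * J⌋₊ ω, F.W ω))
  have m3 := CH_rows F hl (floor_row a4 J)
  have m4 := CH_nonneg hl.nonneg (F.X ⌊(v' : ℝ) * J⌋₊) (fun ω => (F.X ⌊P * J⌋₊ ω, F.W ω))
  rw [abs_le] at c1 c2 ⊢
  have b1J := mul_le_mul_of_nonneg_right b1 hJ0
  have b2J := mul_le_mul_of_nonneg_right b2 hJ0
  have hhJ : 0 ≤ h * J := mul_nonneg hh.le hJ0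
  constructor
  · nlinarith only [c1, m1, m2, b1J, c1.1, c1.2]
  · nlinarith only [c1, c2, m3, m4, b2J, c2.1, c2.2]

end Pool.S6C
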