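import Pool.Agent.H80.S6C.UvcC
import Pool.Agent.H77.S6C.UV2
import Pool.Agent.H23.S6E.Vdf2
import Pool.Agent.H75.S6C.Mon

/-!
# (UVLC) The deficit vanishes where only the rows of the first coordinate are left
-/

set_option autoImplicit false

namespace Pool.S6C.Uvc

open Finset Real
open Pool.Agent.H49.Ent Pool.Agent.H32.Dense Pool.STK Pool.KA Pool.KSAT Pool.K2S Pool.PB Pool.KS6
open Pool.S6K.Wfe Pool.K3 Pool.S6U Pool.S6V Bct

variable {J : ℕ}

/-- Fewer digits of the own slope. -/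
theorem CH_cnd_digits {F : Fam 3 J} {p : F.Ω → ℝ} (hp : IsLaw p) {ς : Fin 3 → Fin 3}
    {w P D D' : ℕ} (hPD : P ≤ w + D) (hDD : D ≤ D') {Λ : Type} (κ : F.Ω → Λ) (pl : Λ → Pln)
    (al : F.Ω → ℝ) :
    CH p (cnd F ς w P D κ pl al) (cnd F ς w P D' κ pl al) ≤ 3 * Real.log 15 := by
  have h0 := hp.nonneg
  have hdg : ∀ ω ω', Uni.dg D' al ω = Uni.dg D' al ω' → Uni.dg D al ω = Uni.dg D al ω' :=
    fun ω ω' e => Vd.fl_lift hDD e
  have pD : (0 : ℝ) < 2 ^ D := by positivity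
  have k1 : CH p (F.sbx ς w P P (ald D al) (fun ω => -(pl (κ ω)).s) (fun ω => -(pl (κ ω)).c))
      (cnd F ς w P D' κ pl al) ≤ (3 : ℕ) * Real.log (6 * 2 + 3) := by
    refine Vd.CH_sbx_chg (σ := ς) (a := ald D' al) (s := fun ω => -(pl (κ ω)).s)
      (t := fun ω => -(pl (κ ω)).c) hp (by norm_num) (le_refl w) (le_refl P) (le_refl P) ?_ _ ?_ ?_
    · intro ω _
      have a1 := Bct.rd_le D (al ω)
      have a2 := Bct.rd_le D' (al ω)
      have a3 : ald D al ω = Bct.rd D (al ω) := rfl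
      have a4 : ald D' al ω = Bct.rd D' (al ω) := rfl
      refine ⟨?_, ?_, ?_⟩
      · rw [a3, a4]
        have e2 : Bct.rd D (al ω) - Bct.rd D' (al ω) = (al ω - Bct.rd D' (al ω)) -
            (al ω - Bct.rd D (al ω)) := by ring
        rw [e2]
        have k5 : (1 : ℝ) / 2 ^ D' ≤ 1 / 2 ^ D := inv_mono hDD
        have k6 : |(al ω - Bct.rd D' (al ω)) - (al ω - Bct.rd D (al ω))| ≤ 2 / 2 ^ D := by
          have k7 : (2 : ℝ) / 2 ^ D = 1 / 2 ^ D + 1 / 2 ^ D := by ring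
          rw [k7]
          exact (abs_sub _ _).trans (add_le_add (a2.trans k5) a1)
        refine k6.trans ?_
        rw [div_le_div_iff₀ pD (by positivity)]
        have k8 : (2 : ℝ) ^ P ≤ 2 ^ w * 2 ^ D := by
          rw [← pow_add]
          exact pow_le_pow_right₀ (by norm_num) hPD
        nlinarith only [k8]
      · rw [sub_self, abs_zero]
        positivity
      · rw [sub_self, sub_self, zero_mul, add_zero, abs_zero]
        positivity
    · intro ω ω' _ _ e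
      exact (Prod.ext_iff.mp e).1
    · intro ω ω' _ _ e
      have e1 := Prod.ext_iff.mp e
      have e2 := Prod.ext_iff.mp e1.2
      have e3 : Uni.dg D al ω = Uni.dg D al ω' := hdg ω ω' e2.1
      have e4 : κ ω = κ ω' := (Prod.ext_iff.mp e2.2).1
      have e5 : ald D al ω = ald D al ω' := by
        unfold ald
        rw [e3]
      change (ald D al ω, -(pl (κ ω)).s, -(pl (κ ω)).c) =
        (ald D al ω', -(pl (κ ω')).s, -(pl (κ ω')).c)
      rw [e4, e5]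
  have k2 : CH p (cnd F ς w P D κ pl al) (cnd F ς w P D' κ pl al) ≤
      CH p (F.sbx ς w P P (ald D al) (fun ω => -(pl (κ ω)).s) (fun ω => -(pl (κ ω)).c))
      (cnd F ς w P D' κ pl al) := by
    refine CH_mono_left h0 fun ω ω' _ _ e => ?_
    have e0 := Prod.ext_iff.mp e
    have e1 := Prod.ext_iff.mp e0.2
    have e2 := Prod.ext_iff.mp e1.2
    exact Prod.ext e0.1 (Prod.ext (hdg ω ω' e2.1) e2.2)
  have k3 : ((3 : ℕ) : ℝ) * Real.log (6 * 2 + 3) = 3 * Real.log 15 := by norm_num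
  linarith only [k1, k2, k3]

/-- **The deficit of the windows `x` at which the own slope is known beyond the row `p`.** -/
theorem e_full {S : PCl 3} {a R h₁ : ℝ} {i₀ : Fin 3} {c s₂ : ℝ} {r : ℝ → ℝ} {D₀ : Set ℝ}
    {σ : ℝ → Row} (hC : Cs S a R h₁ i₀ c s₂ r D₀ σ) {T p q s : ℝ} {v x : ℚ} (hp1 : p ≤ 1)
    (hv0 : 0 ≤ v) (hvx : v < x) (hq : 0 ≤ q) (hpT : p ≤ T + q) (hs : 0 < s)
    (hxr : p + s ≤ x + (σ 1).rot x + q) (hxq : x + q ≤ p) {h : ℝ} (hh : 0 < h) :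
    ∃ k₀ : ℝ, 0 < k₀ ∧ ∀ k : ℝ, 0 < k → k ≤ k₀ → ∀ C : ℝ, 1 ≤ C →
      Clp S (fun J F A => ∀ ς : Fin 3 → Fin 3, Function.Injective ς → ς 0 = i₀ →
        ∀ (Λ : Type) (κ : F.Ω → Λ) (pl : Λ → Pln) (al : F.Ω → ℝ),
        PkL F A ς ⌊(v : ℝ) * J⌋₊ ⌊((σ 1).rot v - k) * J⌋₊ ⌊T * J⌋₊ C κ pl →
        OwnS F A ς ⌊((σ 1).pi - k) * J⌋₊ C al → Vd F A ς (σ 1) p q k κ pl al x ≤ h * J) := by
  have hvx' : (v : ℝ) < x := by exact_mod_cast hvx
  have hv0' : (0 : ℝ) ≤ v := by exact_mod_cast hv0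
  have hx0' : (0 : ℝ) < x := by linarith only [hvx', hv0']
  have hx0 : 0 ≤ x := hv0.trans hvx.le
  have hx1' : (x : ℝ) ≤ 1 := by linarith only [hp1, hq, hxq]
  have hx1 : x ≤ 1 := by exact_mod_cast hx1'
  have hrow := hC.row 1 one_pos le_rfl hC.D1
  have hrp := hrow.rot_le hC.ne hx0 hx1
  obtain ⟨k', hk'⟩ : ∃ k', k' = min (s / 8) (((x : ℝ) - v) / 2) := ⟨_, rfl⟩
  have hk'0 : 0 < k' := by rw [hk']; exact lt_min (by linarith only [hs]) (by linarith only [hvx'])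
  have hk's : k' ≤ s / 8 := by rw [hk']; exact min_le_left _ _
  have hk'v : k' ≤ ((x : ℝ) - v) / 2 := by rw [hk']; exact min_le_right _ _
  refine ⟨s / 4, by linarith only [hk'0, hk's], fun k hk hks C hC1 => ?_⟩
  have hlog2 : 0 < Real.log 2 := Real.log_pos one_lt_two
  have hlog15 : 0 ≤ Real.log 15 := Real.log_nonneg (by norm_num)
  obtain ⟨J₂, hJ₂⟩ := exists_nat_gt (8 / k' + 3 * Real.log 15 / (h / 2))
  have kpos : Clp S (fun J F A => 0 < Pe F.p A) :=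
    Clp.base 1 one_pos 0 fun J _ F A hS => lt_of_lt_of_le (Real.exp_pos _) (hC.st _ _ _ _ hS).2.2.2
  refine Clp.mono (J₂ := J₂) ((e_row hC hx0 hx1 hk'0 (half_pos hh) hC1).and kpos) ?_
  rintro J hJ F A ⟨hrowJ, hA0⟩ ς hς hς0 Λ κ pl al hP hO
  have hJr : 8 / k' + 3 * Real.log 15 / (h / 2) < J := hJ₂.trans_le (by exact_mod_cast hJ)
  have q1 : 0 < 8 / k' := by positivity
  have q2 : 0 ≤ 3 * Real.log 15 / (h / 2) := by positivity
  have r1 : 8 < k' * J := by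
    have : 8 / k' < J := by linarith only [hJr, q2]
    rw [div_lt_iff₀ hk'0] at this
    linarith only [this]
  have r2 : 3 * Real.log 15 < h / 2 * J := by
    have : 3 * Real.log 15 / (h / 2) < J := by linarith only [hJr, q1]
    rw [div_lt_iff₀ (by linarith only [hh])] at this
    linarith only [this]
  have hJ0 : (0 : ℝ) < J := by
    by_contra hcon
    push Not at hcon
    have : k' * J ≤ 0 := mul_nonpos_of_nonneg_of_nonpos hk'0.le hcon
    linarith only [hJr, q1, q2, hcon]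
  have hsJ : 8 * (k' * J) ≤ s * J := by
    have := mul_le_mul_of_nonneg_right hk's hJ0.le
    linarith only [this]
  have hksJ : k * J ≤ s * J / 4 := by
    have := mul_le_mul_of_nonneg_right hks hJ0.le
    linarith only [this]
  have hvJ : 2 * (k' * J) ≤ (x - v) * J := by
    have := mul_le_mul_of_nonneg_right hk'v hJ0.le
    linarith only [this]
  have hp0 : 0 < p := by linarith only [hq, hxq, hv0', hk'0, hk'v]
  -- the integers
  obtain ⟨w₀, hw₀⟩ : ∃ n, n = ⌊(v : ℝ) * J⌋₊ := ⟨_, rfl⟩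
  obtain ⟨wx, hwx⟩ : ∃ n, n = ⌊(x : ℝ) * J⌋₊ := ⟨_, rfl⟩
  obtain ⟨wq, hwq⟩ : ∃ n, n = ⌊q * J⌋₊ := ⟨_, rfl⟩
  obtain ⟨P, hPd⟩ : ∃ n, n = ⌊p * J⌋₊ := ⟨_, rfl⟩
  obtain ⟨Tt, hTt⟩ : ∃ n, n = ⌊T * J⌋₊ := ⟨_, rfl⟩
  obtain ⟨L, hL⟩ : ∃ n, n = ⌊((σ 1).pi - k) * J⌋₊ := ⟨_, rfl⟩
  obtain ⟨M, hM⟩ : ∃ n, n = ⌊((σ 1).rot x - k) * J⌋₊ := ⟨_, rfl⟩
  have a1 : (w₀ : ℝ) ≤ v * J := by rw [hw₀]; exact Nat.floor_le (by positivity)
  have a2 : (x : ℝ) * J < wx + 1 := by rw [hwx]; exact Nat.lt_floor_add_one _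
  have a2' : (wx : ℝ) ≤ x * J := by rw [hwx]; exact Nat.floor_le (by positivity)
  have a3 : q * J < wq + 1 := by rw [hwq]; exact Nat.lt_floor_add_one _
  have a3' : (wq : ℝ) ≤ q * J := by rw [hwq]; exact Nat.floor_le (by positivity)
  have a4 : (P : ℝ) ≤ p * J := by rw [hPd]; exact Nat.floor_le (by positivity)
  have a4' : p * J < P + 1 := by rw [hPd]; exact Nat.lt_floor_add_one _
  have a5 : T * J < Tt + 1 := by rw [hTt]; exact Nat.lt_floor_add_one _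
  have a6 : ((σ 1).pi - k) * J < L + 1 := by rw [hL]; exact Nat.lt_floor_add_one _
  have a7 : ((σ 1).rot x - k) * J < M + 1 := by rw [hM]; exact Nat.lt_floor_add_one _
  have e1 : (p + s) * J ≤ (x + (σ 1).rot x + q) * J := mul_le_mul_of_nonneg_right hxr hJ0.le
  have e2 : (x + q) * J ≤ p * J := mul_le_mul_of_nonneg_right hxq hJ0.le
  have e3 : (σ 1).rot x * J ≤ (σ 1).pi * J := mul_le_mul_of_nonneg_right hrp hJ0.le
  have e4 : p * J ≤ (T + q) * J := mul_le_mul_of_nonneg_right hpT hJ0.le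
  have e5 : p * J ≤ 1 * J := mul_le_mul_of_nonneg_right hp1 hJ0.le
  have hwP : wx + wq ≤ P := by
    have h1 : ((wx + wq : ℕ) : ℝ) < ((P + 1 : ℕ) : ℝ) := by
      push_cast
      linarith only [a2', a3', a4', e2]
    have : wx + wq < P + 1 := by exact_mod_cast h1
    omega
  have hPJ : P ≤ J := by
    have : (P : ℝ) ≤ J := by linarith only [a4, e5]
    exact_mod_cast this
  have hlr : lr p q x J = wx + wq := by
    unfold lr
    rw [← hwx, ← hwq, ← hPd]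
    exact min_eq_left hwP
  have hlu : lu (σ 1) p q k x J = P := by
    unfold lu
    rw [← hwx, ← hwq, ← hPd, ← hM]
    refine min_eq_right ?_
    have h1 : (P : ℝ) ≤ ((wx + M + wq : ℕ) : ℝ) := by
      push_cast
      linarith only [hp1, hq, hxq, hv0', hk'0, hk'v, r1, hsJ, hksJ, a2, a3, a4, a7, e1]
    exact_mod_cast h1
  have hld : ld (σ 1) p q k x J = P - (wx + wq) := by
    unfold ld
    rw [hlr, hlu]
  obtain ⟨Dp, hDp⟩ : ∃ n, n = P - (wx + wq) + ⌈k' * J⌉₊ := ⟨_, rfl⟩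
  have b1 : k' * J ≤ ⌈k' * J⌉₊ := Nat.le_ceil _
  have b2 : (⌈k' * J⌉₊ : ℝ) < k' * J + 1 := Nat.ceil_lt_add_one (by positivity)
  have hDr : (Dp : ℝ) = P - (wx + wq) + ⌈k' * J⌉₊ := by
    rw [hDp]
    push_cast [Nat.cast_sub hwP]
    ring
  have key := hrowJ ς hς hς0 Λ κ pl al w₀ ⌊((σ 1).rot v - k) * J⌋₊ Tt P L Dp (wx + wq) P
    (by rw [hw₀, hTt]; exact hP.inc) hP.pt (by rw [hw₀]; exact hP.sl) hO.pt hO.bd
    (by rw [hL]; exact hO.on)
    (by
      have h1 : (w₀ : ℝ) < ((wx + wq + 1 : ℕ) : ℝ) := by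
        push_cast
        have : (0 : ℝ) ≤ wq := Nat.cast_nonneg _
        have : (v : ℝ) * J ≤ x * J := mul_le_mul_of_nonneg_right hvx'.le hJ0.le
        linarith only [hp1, hq, hxq, hv0', hk'0, hk'v, r1, hvJ, a1, a2]
      have : w₀ < wx + wq + 1 := by exact_mod_cast h1
      omega)
    (by
      push_cast
      linarith only [hp1, hq, hxq, hv0', hk'0, hk'v, r1, hvJ, a1, a2, a3, a4, a5, e4])
    (by rw [← hwx]; omega) hwP hPJ
    (by
      have h1 : (Dp : ℝ) ≤ L := by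
        rw [hDr]
        linarith only [hp1, hq, hxq, hv0', hk'0, hk'v, r1, hsJ, hksJ, a2, a3, a4, a6, e1, e3, b2]
      exact_mod_cast h1)
    (by
      rw [hDr]
      linarith only [hp1, hq, hxq, hv0', hk'0, hk'v, r1, hsJ, a2, a3, a4, e1, b2])
    (by
      rw [hDr]
      push_cast
      linarith only [b1]) hwP hPJ
  -- conclusion
  have hfin : Vd F A ς (σ 1) p q k κ pl al x = (((P : ℝ) - (wx + wq : ℕ)) + ((P : ℝ) - P)) *
      Real.log 2 - CH (Pool.Agent.H49.Ent.cond F.p A True) (F.X P)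
        (cnd F ς (wx + wq) P (P - (wx + wq)) κ pl al) := by
    unfold Vd
    rw [hlr, hlu, hld, ← hPd]
    rfl
  rw [hfin]
  have hl := isLaw_cond F.isLaw hA0
  have m1 := CH_cnd_digits hl (ς := ς) (w := wx + wq) (P := P) (D := P - (wx + wq)) (D' := Dp)
    (by omega) (by omega) κ pl al
  have m2 := CH_le_add hl.nonneg (fun ω => ⌊(2 : ℝ) ^ P * F.x ω (ς 0)⌋)
    (cnd F ς (wx + wq) P (P - (wx + wq)) κ pl al) (cnd F ς (wx + wq) P Dp κ pl al)
  have m3 : CH (Pool.Agent.H49.Ent.cond F.p A True) (fun ω => ⌊(2 : ℝ) ^ P * F.x ω (ς 0)⌋)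
      (fun ω => (cnd F ς (wx + wq) P (P - (wx + wq)) κ pl al ω,
        cnd F ς (wx + wq) P Dp κ pl al ω)) ≤
      CH (Pool.Agent.H49.Ent.cond F.p A True) (fun ω => ⌊(2 : ℝ) ^ P * F.x ω (ς 0)⌋)
      (cnd F ς (wx + wq) P (P - (wx + wq)) κ pl al) :=
    CH_mono_cond hl.nonneg fun _ _ _ _ e => (Prod.ext_iff.mp e).1
  have m4 : CH (Pool.Agent.H49.Ent.cond F.p A True) (fun ω => ⌊(2 : ℝ) ^ P * F.x ω (ς 0)⌋)
      (cnd F ς (wx + wq) P (P - (wx + wq)) κ pl al) ≤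
      CH (Pool.Agent.H49.Ent.cond F.p A True) (F.X P)
      (cnd F ς (wx + wq) P (P - (wx + wq)) κ pl al) :=
    CH_mono_left hl.nonneg fun _ _ _ _ e => congrFun (Prod.ext_iff.mp e).1 (ς 0)
  rw [sub_self, add_zero]
  linarith only [r2, key, m1, m2, m3, m4]

end Pool.S6C.Uvc

namespace Pool.S6V

open Finset Real
open Pool.Agent.H49.Ent Pool.Agent.H32.Dense Pool.STK Pool.KA Pool.KSAT Pool.K2S Pool.PB Pool.KS6
  Pool.S6C Pool.S6U

/-- **(UVLC)** -/
theorem uvlc_thm : UVLCStmt := by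
  intro S a R h₁ i₀ c s₂ r D σ hC T p v q H hPV x₀ x₁ hvx₁ hx₁ hx₀q hx₁r η hη
  have hrow := hC.row 1 one_pos le_rfl hC.D1
  have hv0 : (0 : ℝ) < v := by exact_mod_cast hPV.v0
  have hvx₁' : (v : ℝ) < x₁ := by exact_mod_cast hvx₁
  have hq0 := hPV.q0
  have hp1 := hPV.p1
  refine ⟨min ((x₀ - x₁) / 2) (p - q - x₀), lt_min (by linarith only [hx₁]) (by linarith), ?_⟩
  intro x y hx hxx₀ hx₀y hy hxy
  have d1 := min_le_left ((x₀ - x₁) / 2) (p - q - x₀)
  have d2 := min_le_right ((x₀ - x₁) / 2) (p - q - x₀)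
  have hxy' : (x : ℝ) < y := by exact_mod_cast hxy
  have hx₁x : (x₁ : ℝ) < x := by linarith only [hx₁, hx, d1]
  have hx₁x' : x₁ < x := by exact_mod_cast hx₁x
  have hx1 : x ≤ 1 := by
    have : (x : ℝ) ≤ 1 := by linarith only [hx₀q, hq0, hp1, hxx₀]
    exact_mod_cast this
  have hx₁0 : 0 ≤ x₁ := hPV.v0.le.trans hvx₁.le
  have hrot := rot_window hC.ne hrow hx₁0 hx₁x'.le hx1
  have he : 0 < η * (y - x) := mul_pos hη (by linarith only [hxy'])
  have hlog2 : 0 < Real.log 2 := Real.log_pos one_lt_two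
  obtain ⟨k₀, hk₀, hfull⟩ := Uvc.e_full hC (T := T) (p := p) (q := q) (s := (x₀ - x₁) / 2)
    (v := v) (x := x) hp1.le hPV.v0.le (by linarith only [hvx₁, hx₁x'] : v < x) hq0 hPV.pT (by linarith only [hx₁])
    (by linarith only [hx₁r, hx, d1, hrot]) (by linarith only [hx₀q, hxx₀]) (h := η * (y - x) * Real.log 2 / 2) (by positivity)
  refine ⟨k₀, hk₀, fun k hk hkk C hC1 => ?_⟩
  obtain ⟨B, hB⟩ : ∃ B, B = C + 4 := ⟨_, rfl⟩
  have hB1 : 1 ≤ B := by linarith only [hC1, hB]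
  obtain ⟨J₂, hJ₂⟩ := exists_nat_gt (Pool.KA.Vd.K2 B / (η * (y - x) * Real.log 2 / 2))
  have kpos : Clp S (fun J F A => 0 < Pe F.p A) :=
    Clp.base 1 one_pos 0 fun J _ F A hS => lt_of_lt_of_le (Real.exp_pos _) (hC.st _ _ _ _ hS).2.2.2
  refine Clp.mono (J₂ := J₂) ((hfull k hk hkk C hC1).and kpos) ?_
  rintro J hJ F A ⟨h1, hA0⟩ ς hς hς0 Λ κ pl al hP hN hO
  have h2 := h1 ς hς hς0 Λ κ pl al hP hO
  have hl := isLaw_cond F.isLaw hA0
  have hin : ∀ ω, 0 < Pool.Agent.H49.Ent.cond F.p A True ω → A ω := fun ω hω =>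
    of_eq_true (by
      have := ((cond_pos_iff F.isLaw.nonneg A True ω).1 hω).2
      exact this)
  have hς' : Function.Bijective ς := ⟨hς, Finite.injective_iff_surjective.1 hς⟩
  have h3 : -Pool.KA.Vd.K2 B ≤ Vd F A ς (σ 1) p q k κ pl al y := by
    unfold Vd
    refine Pool.KA.Vd.vdf_ge hl hς' hB1 (min_le_right _ _) (min_le_right _ _) ?_ _
    intro ω hω
    have hAω := hin ω hω
    have i1 := hP.inc ω hAω
    have i2 := hO.bd ω hAω
    refine ⟨?_, ?_, ?_⟩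
    · have a1 := Pool.S6C.Bct.rd_le (ld (σ 1) p q k y J) (al ω)
      have a2 : ald (ld (σ 1) p q k y J) al ω =
        Pool.S6C.Bct.rd (ld (σ 1) p q k y J) (al ω) := rfl
      have a3 := Pool.S6C.Bct.inv_le_one (ld (σ 1) p q k y J)
      rw [a2]
      have a4 := abs_sub_abs_le_abs_sub (Pool.S6C.Bct.rd (ld (σ 1) p q k y J) (al ω)) (al ω)
      rw [abs_sub_comm] at a4
      linarith only [hB, i2, a1, a3, a4]
    · rw [abs_neg]
      have := i1.s_le
      linarith only [hC1, hB, this]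
    · rw [abs_neg]
      have := i1.c_le
      linarith only [hC1, hB, this]
  have hJr : Pool.KA.Vd.K2 B / (η * (y - x) * Real.log 2 / 2) < J :=
    hJ₂.trans_le (by exact_mod_cast hJ)
  rw [div_lt_iff₀ (by positivity)] at hJr
  have e1 : η * (y - x) * J * Real.log 2 = J * (η * (y - x) * Real.log 2 / 2) +
      η * (y - x) * Real.log 2 / 2 * J := by ring
  rw [e1]
  linarith only [h2, h3, hJr]

end Pool.S6V
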