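import Pool.Agent.H80.S6C.Prd
import Pool.Agent.H80.KS6.Pend
import Pool.Agent.H80.KS6.Start
import Pool.Agent.H80.KS6.Epl
import Pool.Agent.H99.CLM.Clm

/-!
# No planks of thickness almost one on windows near zero
-/

set_option autoImplicit false

namespace Pool.S6C

open Finset Real
open Pool.Agent.H49.Ent Pool.Agent.H32.Dense Pool.STK Pool.KA Pool.KSAT Pool.K2S Pool.PB Pool.KS6
open Pool.S6K (Pnr Plk lin plk_of_frame' slam_mono pt_T)

/-- Cut off. -/
noncomputable def c4 (r : ℝ) : ℝ := max (-4) (min 4 r)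

theorem c4_le (r : ℝ) : |c4 r| ≤ 4 := by
  unfold c4
  rw [abs_le]
  exact ⟨le_max_left _ _, max_le (by norm_num) (min_le_left _ _)⟩

theorem c4_eq {r : ℝ} (h : |r| ≤ 4) : c4 r = r := by
  have := abs_le.1 h
  unfold c4
  rw [min_eq_right (by linarith only [this, this.2]), max_eq_right (by linarith only [this, this.1])]

/-- The frame of a plank. -/
noncomputable def Mq (y : Pln) (i j : Fin 3) : ℝ :=
  if i = 2 then (if j = 0 then c4 y.c else if j = 1 then c4 y.s else 0) else 0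

theorem Mq_le (y : Pln) (i j : Fin 3) : |Mq y i j| ≤ 4 := by
  unfold Mq
  split_ifs
  · exact c4_le _
  · exact c4_le _
  · simp
  · simp

theorem lin_two (σ : Fin 3 → Fin 3) (y : Pln) (x : Fin 3 → ℝ) :
    lin σ (Mq y) x 2 = x (σ 2) + (c4 y.c * x (σ 0) + c4 y.s * x (σ 1)) := by
  unfold lin Mq
  rw [Fin.sum_univ_three]
  simp

theorem lin_ne (σ : Fin 3 → Fin 3) (y : Pln) (x : Fin 3 → ℝ) {i : Fin 3} (hi : i ≠ 2) :
    lin σ (Mq y) x i = x (σ i) := by
  unfold lin Mq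
  simp [hi]

theorem exists_perm3 {i₀ iu iN : Fin 3} (h : ∀ j : Fin 3, j = i₀ ∨ j = iu ∨ j = iN) :
    ∃ σ : Equiv.Perm (Fin 3), σ 0 = i₀ ∧ σ 1 = iu ∧ σ 2 = iN := by
  have hs : Function.Surjective (![i₀, iu, iN] : Fin 3 → Fin 3) := by
    intro j
    rcases h j with h | h | h
    · exact ⟨0, h.symm⟩
    · exact ⟨1, h.symm⟩
    · exact ⟨2, h.symm⟩
  exact ⟨Equiv.ofBijective _ ⟨Finite.injective_iff_surjective.2 hs, hs⟩, rfl, rfl, rfl⟩

/-- Plank labels are planar windows. -/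
theorem lab_pnr {J : ℕ} (F : Fam 3 J) {i₀ iu iN : Fin 3}
    (hi : ∀ j : Fin 3, j = i₀ ∨ j = iu ∨ j = iN) {w P v p u : ℕ} {A : F.Ω → Prop}
    (h : LABq F J i₀ iu iN w 0 P 2 A) (hw : w ≤ v * u) (hvp : v ≤ p) (hpP : p * u ≤ P)
    (hpJ : p * u ≤ J) : ∃ B : F.Ω → Prop, Sub B A ∧
      Pe F.p A ≤ (2 * ((1 + 4 * 3 + 4 + 1 : ℕ) : ℝ) + 1) ^ (2 * 3) * Pe F.p B ∧
      Pnr F i₀ u p v B := by
  obtain ⟨y, hy, ⟨φ, hφ⟩, ψ, hψ⟩ := h
  obtain ⟨σ, hσ0, hσ1, hσ2⟩ := exists_perm3 hi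
  have hvpu : v * u ≤ p * u := Nat.mul_le_mul_right u hvp
  have hvJ : v * u ≤ J := hvpu.trans hpJ
  have hpt : ∀ ω, ptq F J ω = Fam.pt F ω := fun _ => rfl
  obtain ⟨B, hB, hP, hpl⟩ := plk_of_frame' F (σ := σ) (k := ![v * u, v * u, p * u])
    (w := v * u) (K := 4) (A := A) hvJ (by
      intro i
      fin_cases i
      · exact hvJ
      · exact hvJ
      · exact hpJ) (fun z => Mq (φ z)) (fun z i j => Mq_le _ i j)
    (fun ω ω' hω hω' hs => by
      have h1 := slam_mono hw hvJ hs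
      have h2 : y ω = y ω' := by rw [hψ ω hω, hψ ω' hω', h1]
      have h3 : φ (Fam.pt F ω) = φ (Fam.pt F ω') := by
        rw [← hpt, ← hpt, ← hφ ω hω, ← hφ ω' hω', h2]
      rw [h3])
    (fun ω ω' hω hω' hs i => by
      have e1 : φ (Fam.pt F ω) = y ω := by rw [← hpt, ← hφ ω hω]
      have e2 : y ω' = y ω := by rw [hφ ω' hω', hφ ω hω, hpt, hpt, hs]
      rw [e1]
      have htop : (2 : ℝ) ≤ ((4 : ℕ) : ℝ) * 2 ^ (v * u) / 2 ^ (v * u) := by
        rw [mul_div_assoc, div_self (by positivity)]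
        norm_num
      have g1 := hy ω hω
      have g2 := hy ω' hω'
      rw [e2] at g2
      rcases eq_or_ne i 2 with rfl | hi2
      · rw [lin_two, lin_two, hσ0, hσ1, hσ2, c4_eq g1.c_le, c4_eq g1.s_le]
        have k1 := g1.vn
        have k2 := g2.vn
        unfold fn at k1 k2
        have e3 : F.d ω iN + ((y ω).c * F.d ω i₀ + (y ω).s * F.d ω iu) -
            (F.d ω' iN + ((y ω).c * F.d ω' i₀ + (y ω).s * F.d ω' iu)) =
            (((y ω).c * F.d ω i₀ + (y ω).s * F.d ω iu + F.d ω iN) -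
              ((y ω).c * (y ω).db i₀ + (y ω).s * (y ω).db iu + (y ω).db iN)) -
            (((y ω).c * F.d ω' i₀ + (y ω).s * F.d ω' iu + F.d ω' iN) -
              ((y ω).c * (y ω).db i₀ + (y ω).s * (y ω).db iu + (y ω).db iN)) := by ring
        rw [e3]
        refine (abs_sub _ _).trans ((add_le_add k1 k2).trans ?_)
        have h1 : (2 : ℝ) ^ w ≤ 2 ^ (v * u) := pow_le_pow_right₀ (by norm_num) hw
        have h2 : (2 : ℝ) ^ (p * u) ≤ 2 ^ P := pow_le_pow_right₀ (by norm_num) hpP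
        have h3 : (2 : ℝ) * 2 ^ w / 2 ^ P ≤ 2 * 2 ^ (v * u) / 2 ^ (p * u) :=
          div_le_div₀ (by positivity) (by linarith only [h1]) (by positivity) h2
        have h4 : ((4 : ℕ) : ℝ) * 2 ^ (v * u) / 2 ^ ((![v * u, v * u, p * u] : Fin 3 → ℕ) 2) =
            2 * 2 ^ (v * u) / 2 ^ (p * u) + 2 * 2 ^ (v * u) / 2 ^ (p * u) := by
          have : (![v * u, v * u, p * u] : Fin 3 → ℕ) 2 = p * u := rfl
          rw [this]
          push_cast
          ring
        rw [h4]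
        linarith only [h3]
      · rw [lin_ne _ _ _ hi2, lin_ne _ _ _ hi2]
        refine (Pool.S6K.d_two F ω ω' _).trans (htop.trans (le_of_eq ?_))
        have : (![v * u, v * u, p * u] : Fin 3 → ℕ) i = v * u := by
          fin_cases i
          · rfl
          · rfl
          · exact absurd rfl hi2
        rw [this])
  exact ⟨B, hB, hP, σ, hσ0, v * u, le_rfl, hvpu, hpl⟩

/-- Claims for maximal families hold in the class. -/
theorem clp_of_clm {S : PCl 3} {a R : ℝ}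
    (hst : ∀ (τ : ℝ) (J : ℕ) (F : Fam 3 J) (A : F.Ω → Prop), S.St τ J F A → Fam.Stt F a R τ A)
    {Φ : Stat 3} (h : Clm a R Φ) : Clp S Φ := by
  induction h with
  | base τ hτ J₁ h => exact Clp.base τ hτ J₁ fun J hJ F A hA => h J hJ F A (hst τ J F A hA)
  | step L h ih => exact Clp.step L ih

/-- **(END)** -/
theorem end_thm (h2 : KP 2) : ENDStmt := by
  classical
  intro a R h₁ ha hR hU hh i₀
  obtain ⟨x', hx0, hx1, hpend⟩ := Pool.S6K.pend_thm h2 a R ha.le hR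
  obtain ⟨y, hy⟩ : ∃ y, y = min x' (1 / 4) := ⟨_, rfl⟩
  have hy0 : 0 < y := by rw [hy]; exact lt_min hx0 (by norm_num)
  have hyx : y ≤ x' := by rw [hy]; exact min_le_left _ _
  have hy4 : y ≤ 1 / 4 := by rw [hy]; exact min_le_right _ _
  refine ⟨y / 4, by linarith only [hy0], by linarith only [hy0, hy4], fun S c s₂ r D σ hC w hw0 hwx => ?_⟩
  by_contra hcon
  push Not at hcon
  have r1 := hC.row 1 one_pos le_rfl hC.D1
  have hw1 : w ≤ 1 := by
    have : (w : ℝ) ≤ 1 := by linarith only [hy0, hy4, hwx]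
    exact_mod_cast this
  have hw0' : (0 : ℝ) ≤ w := by exact_mod_cast hw0
  have hθ := r1.th w hw0 hw1
  have hθ1 := (r1.th w hw0 hw1).1 (y / 8) (by linarith only [hy0])
  obtain ⟨N, hN⟩ := exists_nat_gt (8 / y)
  have hN8 : 8 < N * y := by
    rw [div_lt_iff₀ hy0] at hN
    exact hN
  have hNpos : (0 : ℝ) < N := by
    by_contra hc
    push Not at hc
    nlinarith only [hy0, hy4, hN8, hc, hx1, hyx]
  have hN1 : 1 ≤ N := by exact_mod_cast hNpos
  obtain ⟨v, hv⟩ : ∃ v, v = ⌊y * N⌋₊ := ⟨_, rfl⟩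
  obtain ⟨p, hp⟩ : ∃ p, p = ⌈(1 - y) * N⌉₊ := ⟨_, rfl⟩
  have v1 : (v : ℝ) ≤ y * N := by rw [hv]; exact Nat.floor_le (by positivity)
  have v2 : y * N < v + 1 := by rw [hv]; exact Nat.lt_floor_add_one _
  have p1 : (1 - y) * N ≤ p := by rw [hp]; exact Nat.le_ceil _
  have p2 : (p : ℝ) < (1 - y) * N + 1 := by
    rw [hp]
    exact Nat.ceil_lt_add_one (mul_nonneg (by linarith only [hy0, hy4]) hNpos.le)
  have hpN : p ≤ N := by
    rw [hp, Nat.ceil_le]
    nlinarith only [hy0, hy4, hN8]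
  have hvp : v ≤ p := by
    have : (v : ℝ) ≤ p := by nlinarith only [hy0, hy4, hN8, v1, p1]
    exact_mod_cast this
  have hcl := clp_of_clm hC.st (hpend N hN1 i₀ p v hpN (by nlinarith only [p1, hyx]) (by nlinarith only [v1, hyx])).clm
  obtain ⟨C, hCdef⟩ : ∃ C : ℝ, C = (2 * ((1 + 4 * 3 + 4 + 1 : ℕ) : ℝ) + 1) ^ (2 * 3) := ⟨_, rfl⟩
  have hC1 : 1 ≤ C := by rw [hCdef]; norm_num
  refine Clp.not_false hC.ne (Clp.list ⟨1, fun J F _ => Pnr F i₀ (J / N) p v,
    fun J F _ => Pnr.hered F i₀ (J / N) p v⟩ fun κ hκ => ?_)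
  obtain ⟨J₁, hJ₁⟩ := exp_small' hκ hC1
  refine Clp.mono (J₂ := max J₁ (8 * N)) (hcl.and hθ1) ?_
  rintro J hJ F A ⟨hn, hq⟩ hS
  have hSb : Stb F.p (κ * J) A (Pnr F i₀ (J / N) p v) := hS 0
  have hJN : 8 * N ≤ J := (le_max_right _ _).trans hJ
  have hJN' : 8 * (N : ℝ) ≤ J := by exact_mod_cast hJN
  have hJ0 : (0 : ℝ) < J := by linarith only [hy0, hy4, hN8, p2, hJN']
  rcases hq with hq | ⟨-, iu, iN, hperm, hlab⟩
  · linarith only [hy0, hy4, hcon, hq]
  have hJ1 : ⌊(1 : ℝ) * J⌋₊ = J := by rw [one_mul, Nat.floor_natCast]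
  rw [hJ1] at hlab
  -- the number of steps
  obtain ⟨u, hu⟩ : ∃ u, u = J / N := ⟨_, rfl⟩
  have hu1 : N * u ≤ J := by rw [hu]; exact Nat.mul_div_le J N
  have hu2 : J < N * (u + 1) := by
    rw [hu]
    have := Nat.lt_div_mul_add (a := J) hN1
    rw [mul_add, mul_one, mul_comm N]
    exact this
  have u1 : (N : ℝ) * u ≤ J := by exact_mod_cast hu1
  have u2 : (J : ℝ) < N * (u + 1) := by exact_mod_cast hu2
  have u0 : (0 : ℝ) ≤ u := Nat.cast_nonneg u
  have hyJ : (u : ℝ) * 8 ≤ y * J := by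
    have h1 : (u : ℝ) * 8 ≤ u * (N * y) := mul_le_mul_of_nonneg_left hN8.le u0
    nlinarith only [h1, hy0, u1]
  have hvu : ⌊(w : ℝ) * J⌋₊ ≤ v * u := by
    have h1 : (w : ℝ) * J ≤ ((v * u : ℕ) : ℝ) := by
      push_cast
      have e1 : (y * N - 1) * u ≤ v * u := mul_le_mul_of_nonneg_right (by linarith only [v2]) u0
      have e2 : y * (J - N) ≤ y * (N * u) := mul_le_mul_of_nonneg_left (by nlinarith only [u2]) hy0.le
      have e3 : (w : ℝ) * J ≤ y / 4 * J := mul_le_mul_of_nonneg_right hwx hJ0.le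
      have e4 : y * N ≤ y * (J / 8) := mul_le_mul_of_nonneg_left (by linarith only [hJN']) hy0.le
      have e5 : 0 < y * J := by positivity
      nlinarith only [hy0, hy4, hN8, hyJ, e1, e2, e3, e4]
    exact (Nat.floor_le_floor h1).trans (Nat.floor_natCast _).le
  have hpu : p * u ≤ ⌊((σ 1).th w - y / 8) * J⌋₊ := by
    refine Nat.le_floor ?_
    push_cast
    have e1 : (p : ℝ) * u ≤ ((1 - y) * N + 1) * u := mul_le_mul_of_nonneg_right p2.le u0
    have e2 : (1 - y) * (N * u) ≤ (1 - y) * J := mul_le_mul_of_nonneg_left u1 (by linarith only [hy0, hy4])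
    have e3 : (1 - y / 4 - y / 8) * J ≤ ((σ 1).th w - y / 8) * J :=
      mul_le_mul_of_nonneg_right (by linarith only [hcon]) hJ0.le
    have e4 : 0 < y * J := by positivity
    nlinarith only [hyJ, e1, e2, e3, e4]
  have hpJ : p * u ≤ J := (Nat.mul_le_mul_right u hpN).trans hu1
  obtain ⟨B, hB, hP, hpnr⟩ := lab_pnr F hperm hlab hvu hvp hpu hpJ
  rw [← hu] at hSb hn
  rw [← hCdef] at hP
  exact hn (Pool.S6K.stb_part hSb hB (by linarith only [hy0, hy4, hC1]) hP (hJ₁ J ((le_max_left _ _).trans hJ))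
    (Pe_nonneg F.isLaw A) hpnr)

end Pool.S6C
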