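import Pool.Agent.H80.S6C.Prd
import Pool.Agent.H80.KS6.Skel

/-!
# One-dimensional fans are impossible: the assembly

`s6_of_class`: from the planks at the top (TOP), the visibility of the planks (PU), the bound on
windows near zero (END), the comparison of the numbers (SN), the choice of the plank for the normals
(ADM), the engine (ENG) and the plank zoom (PZ), the case of one-dimensional fans is impossible.
-/

set_option autoImplicit false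

namespace Pool.S6C

open Finset Real Set
open Pool.Agent.H49.Ent Pool.Agent.H32.Dense Pool.STK Pool.KA Pool.KSAT Pool.K2S Pool.PB Pool.KS6

/-- **(SN)** The planks bound the straightness in the direction of the normals. -/
def SNStmt : Prop :=
  ∀ (S : PCl 3) (a R h₁ : ℝ) (i₀ : Fin 3) (c s₂ : ℝ) (r : ℝ → ℝ) (D : Set ℝ) (σ : ℝ → Row),
    Cs S a R h₁ i₀ c s₂ r D σ → ∀ (K : Set ℝ) (W : ℝ → ℝ) (v₁ t : ℚ) (e₁ : ℝ),
    Adm σ K W v₁ t e₁ → ∀ w : ℚ, 0 ≤ w → w ≤ v₁ → (σ 1).th w - w ≤ (σ 1).sN v₁ t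

/-- **(ADM)** The choice of the plank for the normals. -/
def ADMStmt : Prop :=
  ∀ (S : PCl 3) (a R h₁ : ℝ) (i₀ : Fin 3) (c s₂ : ℝ) (r : ℝ → ℝ) (D : Set ℝ) (σ : ℝ → Row),
    Cs S a R h₁ i₀ c s₂ r D σ → ∀ (K : Set ℝ) (W : ℝ → ℝ), MeasureTheory.volume K ≠ 0 →
    (∀ Q ∈ K, PR c r D σ Q (W Q)) → ∃ K' : Set ℝ, K' ⊆ K ∧ MeasureTheory.volume K' ≠ 0 ∧
      ∃ (v₁ t : ℚ) (e₁ : ℝ), Adm σ K' W v₁ t e₁

/-- The Pliss rows near `1` have positive measure. -/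
theorem meas_plr {S : PCl 3} {a R h₁ : ℝ} {i₀ : Fin 3} {c s₂ : ℝ} {r : ℝ → ℝ} {D : Set ℝ}
    {σ : ℝ → Row} (hC : Cs S a R h₁ i₀ c s₂ r D σ) {Q₁ : ℝ} (hQ₁ : Q₁ < 1) :
    MeasureTheory.volume {Q : ℝ | Q₁ < Q ∧ Q < 1 ∧ Q ∉ D ∧ Plr r c Q} ≠ 0 := by
  intro h0
  have hlin : LipschitzWith ‖(3 - c)‖₊ fun t : ℝ => (3 - c) * t := by
    refine LipschitzWith.of_dist_le_mul fun s t => ?_
    rw [Real.dist_eq, ← mul_sub, abs_mul, Real.dist_eq, coe_nnnorm, Real.norm_eq_abs]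
  have hf : LipschitzWith (3 + ‖(3 - c)‖₊) fun t : ℝ => r t - (3 - c) * t := hC.lip.sub hlin
  have hδ : 0 < min 1 (1 - Q₁) := lt_min one_pos (by linarith)
  have hN : MeasureTheory.volume ({Q : ℝ | Q₁ < Q ∧ Q < 1 ∧ Q ∉ D ∧ Plr r c Q} ∪ D) = 0 :=
    MeasureTheory.measure_union_null h0 (hC.cD.measure_zero _)
  obtain ⟨P, h1, h2, h3, h4, -⟩ := exists_hit hf hC.c0 (fun t t0 t1 => by
    have := hC.tail t t0 t1
    nlinarith) hδ (min_le_left _ _) hN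
  refine h3 (Or.inl ⟨?_, h2, fun h => h3 (Or.inr h), fun t t0 tP => ?_⟩)
  · have := min_le_right (1 : ℝ) (1 - Q₁)
    linarith
  · have := h4 t t0 tP
    simp only at this
    nlinarith

/-- The velocity precision at the critical windows is at most the straightness in the direction of
the normals. -/
theorem le_sN (hSN : SNStmt) {S : PCl 3} {a R h₁ : ℝ} {i₀ : Fin 3} {c s₂ : ℝ} {r : ℝ → ℝ}
    {D : Set ℝ} {σ : ℝ → Row} (hC : Cs S a R h₁ i₀ c s₂ r D σ) {K : Set ℝ} {W : ℝ → ℝ}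
    {v₁ t : ℚ} {e₁ : ℝ} (hA : Adm σ K W v₁ t e₁) (hPR : ∀ Q ∈ K, PR c r D σ Q (W Q)) {Q : ℝ}
    (hQ : Q ∈ K) : Q - W Q ≤ (σ 1).sN v₁ t := by
  refine le_of_forall_pos_le_add fun e he => ?_
  have h1 : W Q < min (W Q + e / 2) v₁ := lt_min (by linarith) (hA.ab Q hQ)
  obtain ⟨v, v0, v1, vw, hv⟩ := (hPR Q hQ).isWs1.1 (e / 2) (by linarith) _ h1
  have h2 : (v : ℝ) < v₁ := vw.trans_le (min_le_right _ _)
  have h3 : (v : ℝ) < W Q + e / 2 := vw.trans_le (min_le_left _ _)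
  have h4 := hSN S a R h₁ i₀ c s₂ r D σ hC K W v₁ t e₁ hA v v0 (le_of_lt (by exact_mod_cast h2))
  linarith

/-- **The contradiction**, for one class. -/
theorem s6_core (hTOP : TOPStmt) (hPU : PUStmt) (hEND : ENDStmt) (hADM : ADMStmt)
    (hSN : SNStmt) (hENG : ENGStmt) (hPZ : PZStmt) {S : PCl 3} {a R h₁ : ℝ} {i₀ : Fin 3}
    {c s₂ : ℝ} {r : ℝ → ℝ} {D : Set ℝ} {σ : ℝ → Row} (hC : Cs S a R h₁ i₀ c s₂ r D σ) :
    False := by
  classical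
  obtain ⟨Q₁, hQ₁, hpr⟩ := pr_of hTOP hPU hEND hC
  have hvol := meas_plr hC hQ₁
  obtain ⟨K, hK⟩ : ∃ K : Set ℝ, K = {Q : ℝ | Q₁ < Q ∧ Q < 1 ∧ Q ∉ D ∧ Plr r c Q} := ⟨_, rfl⟩
  rw [← hK] at hvol
  obtain ⟨W, hW⟩ : ∃ W : ℝ → ℝ, W = fun Q => if h : ∃ ws, PR c r D σ Q ws then h.choose else 0 :=
    ⟨_, rfl⟩
  have hPR : ∀ Q ∈ K, PR c r D σ Q (W Q) := by
    intro Q hQ
    rw [hK] at hQ
    have hex := hpr Q hQ.1 hQ.2.1 hQ.2.2.1 hQ.2.2.2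
    rw [hW]
    simp only [dif_pos hex]
    exact hex.choose_spec
  obtain ⟨K', hK', hvol', v₁, t, e₁, hA⟩ := hADM S a R h₁ i₀ c s₂ r D σ hC K W hvol hPR
  have hPR' : ∀ Q ∈ K', PR c r D σ Q (W Q) := fun Q hQ => hPR Q (hK' hQ)
  have hle : ∀ Q ∈ K', Q - W Q ≤ (σ 1).sN v₁ t := fun Q hQ => le_sN hSN hC hA hPR' hQ
  have hsub : K' ⊆ {Q | Q ∈ K' ∧ Q - W Q < (σ 1).sN v₁ t} ∪
      {Q | Q ∈ K' ∧ Q - W Q = (σ 1).sN v₁ t} := by
    intro Q hQ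
    rcases lt_or_eq_of_le (hle Q hQ) with h | h
    · exact Or.inl ⟨hQ, h⟩
    · exact Or.inr ⟨hQ, h⟩
  by_cases h1 : MeasureTheory.volume {Q | Q ∈ K' ∧ Q - W Q < (σ 1).sN v₁ t} = 0
  · by_cases h2 : MeasureTheory.volume {Q | Q ∈ K' ∧ Q - W Q = (σ 1).sN v₁ t} = 0
    · exact hvol' (MeasureTheory.measure_mono_null hsub (MeasureTheory.measure_union_null h1 h2))
    · exact hPZ S a R h₁ i₀ c s₂ r D σ hC _ W v₁ t e₁ h2 (fun Q hQ => hPR' Q hQ.1)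
        (hA.sub fun Q hQ => hQ.1) fun Q hQ => hQ.2
  · exact hENG S a R h₁ i₀ c s₂ r D σ hC _ W v₁ t e₁ h1 (fun Q hQ => hPR' Q hQ.1)
      (hA.sub fun Q hQ => hQ.1) fun Q hQ => hQ.2

/-- **One-dimensional fans are impossible**, from the modules. -/
theorem s6_of_class (hTOP : TOPStmt) (hPU : PUStmt) (hEND : ENDStmt) (hADM : ADMStmt)
    (hSN : SNStmt) (hENG : ENGStmt) (hPZ : PZStmt) : Pool.S6K.S6Stmt := by
  intro a R ha hR hU h₁ hh i₀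
  by_contra hcon
  have hN : (bas a R h₁ i₀).Ne := by
    intro τ hτ J₁
    by_contra hc
    push Not at hc
    exact hcon (Claim.of hτ J₁ fun J hJ F A hA hL => hc J hJ F A ⟨hA, hL⟩)
  obtain ⟨S, c, s₂, r, D, σ, hC⟩ := exists_cs ha hR hU hh hN
  exact s6_core hTOP hPU hEND hADM hSN hENG hPZ hC

end Pool.S6C
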