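import Pool.Agent.H80.S6C.Adm
import Pool.Agent.H80.S6C.End
import Pool.Agent.H75.S6C.SnS
import Pool.Agent.H51.S6.EngT
import Pool.Agent.H36.S6.Act

/-!
# One-dimensional fans are impossible: what remains
-/

set_option autoImplicit false

namespace Pool.S6C

open Finset Real Set
open Pool.Agent.H49.Ent Pool.Agent.H32.Dense Pool.STK Pool.KA Pool.KSAT Pool.K2S Pool.PB Pool.KS6

/-- **One-dimensional fans are impossible**, from the top, the visibility of planks, LEMMA C, the
five cases of the engine and the plank zoom. -/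
theorem s6_fin (h2 : KP 2) (hTOP : TOPStmt) (hPU : PUStmt) (hLEMC : LEMCStmt)
    (hRISE : RISEStmt) (hFALL : FALLStmt) (hRPLA : RPLAStmt) (hHPLA : HPLASet)
    (hDPLA : DPLASet) (hPZ : PZStmt) : Pool.S6K.S6Stmt :=
  s6_of_class hTOP hPU (end_thm h2) (adm_of hLEMC) sn_stmt
    (eng_of' act_stmt hLEMC hRISE hFALL hRPLA hHPLA hDPLA) hPZ

end Pool.S6C
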