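import Pool.Agent.H80.S6C.Asm

/-!
# The choice of the plank for the normals
-/

set_option autoImplicit false

namespace Pool.S6C

open Finset Real Set
open Pool.Agent.H49.Ent Pool.Agent.H32.Dense Pool.STK Pool.KA Pool.KSAT Pool.K2S Pool.PB Pool.KS6

/-- A set of positive outer measure has a point with positive measure to its left. -/
theorem left_mass {T : Set ℝ} (hT : MeasureTheory.volume T ≠ 0) :
    ∃ x ∈ T, MeasureTheory.volume (T ∩ Iio x) ≠ 0 := by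
  obtain ⟨x₀, hx₀, h⟩ := MeasureTheory.exists_mem_forall_mem_nhdsWithin_pos_measure hT
  by_cases hex : ∃ g ∈ T, x₀ < g
  · obtain ⟨g, hg, hlt⟩ := hex
    refine ⟨g, hg, ne_of_gt (h _ ?_)⟩
    exact Filter.inter_mem self_mem_nhdsWithin (mem_nhdsWithin_of_mem_nhds (Iio_mem_nhds hlt))
  · push Not at hex
    refine ⟨x₀, hx₀, fun h0 => hT ?_⟩
    have hsub : T ⊆ (T ∩ Iio x₀) ∪ {x₀} := by
      intro y hy
      rcases lt_or_eq_of_le (hex y hy) with h1 | h1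
      · exact Or.inl ⟨hy, h1⟩
      · exact Or.inr h1
    exact MeasureTheory.measure_mono_null hsub (MeasureTheory.measure_union_null h0
      (by simp))

/-- **(ADM)** -/
theorem adm_of (hL : LEMCStmt) : ADMStmt := by
  classical
  intro S a R h₁ i₀ c s₂ r D σ hC K W hK hPR
  obtain ⟨N, hN0, hN⟩ := hL S a R h₁ i₀ c s₂ r D σ hC K W hPR
  -- points with uniform constants
  have hex : ∀ g : ℝ, ∃ y : ℝ, 0 < y ∧ (g ∈ K → g ∉ N → ∀ g' ∈ K, g - y < g' → g' < g →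
      W g' < W g) := by
    intro g
    by_cases h : g ∈ K ∧ g ∉ N
    · obtain ⟨C, y, hC0, hy0, h1⟩ := hN g h.1 h.2
      refine ⟨y, hy0, fun _ _ g' hg' h2 h3 => ?_⟩
      have h4 := h1 g' hg' h2 h3
      have h5 : 0 < (g - g') / C := div_pos (by linarith) hC0
      linarith
    · exact ⟨1, one_pos, fun h1 h2 => absurd ⟨h1, h2⟩ h⟩
  choose y hy0 hy using hex
  obtain ⟨T, hT⟩ : ∃ T : ℕ → Set ℝ, T = fun n : ℕ =>
    {g | g ∈ K ∧ g ∉ N ∧ 1 / ((n : ℝ) + 1) < y g} := ⟨_, rfl⟩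
  have hcov : K ⊆ N ∪ ⋃ n, T n := by
    intro g hg
    by_cases h : g ∈ N
    · exact Or.inl h
    · obtain ⟨n, hn⟩ := exists_nat_one_div_lt (hy0 g)
      refine Or.inr (Set.mem_iUnion.2 ⟨n, ?_⟩)
      rw [hT]
      exact ⟨hg, h, hn⟩
  obtain ⟨n, hn⟩ : ∃ n, MeasureTheory.volume (T n) ≠ 0 := by
    by_contra hcon
    push Not at hcon
    exact hK (MeasureTheory.measure_mono_null hcov (MeasureTheory.measure_union_null hN0
      (MeasureTheory.measure_iUnion_null hcon)))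
  obtain ⟨x₀, hx₀, hpos⟩ := MeasureTheory.exists_mem_forall_mem_nhdsWithin_pos_measure hn
  obtain ⟨δ, hδ⟩ : ∃ δ : ℝ, δ = 1 / ((n : ℝ) + 1) / 2 := ⟨_, rfl⟩
  have hδ0 : 0 < δ := by rw [hδ]; positivity
  have hU : MeasureTheory.volume (T n ∩ Ioo (x₀ - δ) (x₀ + δ)) ≠ 0 := by
    refine ne_of_gt (hpos _ ?_)
    exact Filter.inter_mem self_mem_nhdsWithin (mem_nhdsWithin_of_mem_nhds
      (Ioo_mem_nhds (by linarith) (by linarith)))
  obtain ⟨g, hg, hU1⟩ := left_mass hU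
  obtain ⟨g₂, hg₂, hU2⟩ := left_mass hU1
  have hTn : ∀ g, g ∈ T n → g ∈ K ∧ g ∉ N ∧ 1 / ((n : ℝ) + 1) < y g := by
    intro g hg
    rw [hT] at hg
    exact hg
  obtain ⟨gK, gN, gy⟩ := hTn g hg.1
  obtain ⟨g₂K, -, -⟩ := hTn g₂ hg₂.1.1
  have hlt : g₂ < g := hg₂.2
  have hWlt : W g₂ < W g := by
    refine hy g gK gN g₂ g₂K ?_ hlt
    have h1 := hg.2.2
    have h2 := hg₂.1.2.1
    have h3 : 2 * δ = 1 / ((n : ℝ) + 1) := by rw [hδ]; ring
    linarith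
  have P := hPR g gK
  have P₂ := hPR g₂ g₂K
  obtain ⟨v₁, hv1, hv2⟩ := exists_rat_btwn hWlt
  have hg0 : 0 < g := by linarith [P.half]
  have r1 := hC.row 1 one_pos le_rfl hC.D1
  have hv0 : (0 : ℝ) < v₁ := P₂.ws0.trans hv1
  have hv0' : (0 : ℚ) < v₁ := by exact_mod_cast hv0
  -- the directions turn at `v₁`
  obtain ⟨e, he, he'⟩ := P.isWs.2 v₁ hv2
  obtain ⟨v, w0, vg, -, w2, w3⟩ := P.pk e he
  have hvv : (v₁ : ℝ) < v := by
    by_contra hcon
    push Not at hcon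
    linarith [he' v w0.le hcon]
  have hv1' : v ≤ 1 := by
    have : (v : ℝ) ≤ 1 := by linarith [P.lt1]
    exact_mod_cast this
  have hvv' : v₁ < v := by exact_mod_cast hvv
  have hrot : (σ 1).rot v₁ < (σ 1).pi :=
    lt_of_le_of_lt (rot_window hC.ne r1 hv0'.le hvv'.le hv1') w2
  have hv11 : v₁ < 1 := hvv'.trans_le hv1'
  -- the thickness at `v₁`
  obtain ⟨e', he1, he2⟩ := P.isWs1.2 v₁ hv2
  have hth1 : (σ 1).th v₁ < 1 := by linarith [he2 v₁ hv0'.le le_rfl, P.lt1]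
  have hth0 : (v₁ : ℝ) ≤ (σ 1).th v₁ :=
    th_ge hC.ne hC.st le_rfl r1 v₁ hv0'.le (by exact_mod_cast hv11.le)
  obtain ⟨e₁, hee⟩ : ∃ e₁, e₁ = ((σ 1).pi - (σ 1).rot v₁) / 16 := ⟨_, rfl⟩
  have he₁ : 0 < e₁ := by rw [hee]; linarith
  obtain ⟨t, ht1, ht2⟩ := exists_rat_btwn (show max 0 ((σ 1).th v₁ - e₁) < (σ 1).th v₁ from
    max_lt (by linarith) (by linarith))
  have ht3 : (0 : ℝ) < t := (le_max_left _ _).trans_lt ht1
  have ht4 : (σ 1).th v₁ - e₁ < t := (le_max_right _ _).trans_lt ht1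
  refine ⟨_, fun Q hQ => (hTn Q hQ.1.1.1).1, hU2, v₁, t, e₁, hv11, by exact_mod_cast ht3, he₁,
    by rw [hee]; linarith, ht2, ht4, hth1, fun Q hQ => ?_, fun Q hQ => ?_⟩
  · have hQK := (hTn Q hQ.1.1.1).1
    exact lt_of_le_of_lt (ws_le (hPR Q hQK).isWs1 P₂.isWs1 (le_of_lt hQ.2)
      fun _ _ _ => le_rfl) hv1
  · have hQK := (hTn Q hQ.1.1.1).1
    have hWQ : W Q < v₁ := lt_of_le_of_lt (ws_le (hPR Q hQK).isWs1 P₂.isWs1 (le_of_lt hQ.2)
      fun _ _ _ => le_rfl) hv1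
    have hkey : Q - W Q ≤ (σ 1).th v₁ - v₁ := by
      refine le_of_forall_pos_le_add fun ε hε => ?_
      obtain ⟨u, u0, u1, uw, hu⟩ := (hPR Q hQK).isWs1.1 (ε / 2) (by linarith)
        (min (W Q + ε / 2) v₁) (lt_min (by linarith) hWQ)
      have k1 : (u : ℝ) < v₁ := uw.trans_le (min_le_right _ _)
      have k2 : (u : ℝ) < W Q + ε / 2 := uw.trans_le (min_le_left _ _)
      have k3 := th_slope hC.ne hC.st le_rfl r1 u v₁ u0 (le_of_lt (by exact_mod_cast k1))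
        (by exact_mod_cast hv11.le)
      rcases le_total (1 : ℝ) ((σ 1).th u + ((v₁ : ℝ) - u)) with h | h
      · rw [min_eq_left h] at k3
        linarith
      · rw [min_eq_right h] at k3
        linarith
    linarith

end Pool.S6C
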