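import Pool.Agent.H80.S6C.Num
import Pool.Agent.H18.PB.Row2

/-!
# The base class: number of values of the positions
-/

set_option autoImplicit false

namespace Pool.S6C

open Finset Real
open Pool.Agent.H49.Ent Pool.Agent.H32.Dense Pool.STK Pool.KA Pool.KSAT Pool.K2S Pool.PB Pool.KS6

/-- The entropy of the directions. -/
theorem H_D_le {J : ℕ} (F : Fam 3 J) : H F.p (F.D J) ≤ 3 * ((J + 2) * Real.log 2) := by
  classical
  obtain ⟨I, hI⟩ : ∃ I : Finset ℤ, I = Finset.Icc (-2 ^ J) (2 ^ J) := ⟨_, rfl⟩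
  have hl2 : 0 < Real.log 2 := Real.log_pos (by norm_num)
  have h1 : H F.p (F.D J) ≤ Real.log ((Fintype.piFinset fun _ : Fin 3 => I).card) := by
    refine H_le_log_card F.isLaw.nonneg F.isLaw.sum_one _ _ fun ω _ => ?_
    rw [Fintype.mem_piFinset]
    intro i
    rw [hI, Finset.mem_Icc]
    have hd := abs_le.1 (F.dir ω i)
    have hp : (0 : ℝ) < 2 ^ J := by positivity
    change -2 ^ J ≤ ⌊(2 : ℝ) ^ J * F.d ω i⌋ ∧ ⌊(2 : ℝ) ^ J * F.d ω i⌋ ≤ 2 ^ J
    constructor
    · rw [Int.le_floor]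
      push_cast
      nlinarith [hd.1]
    · have : ((⌊(2 : ℝ) ^ J * F.d ω i⌋ : ℤ) : ℝ) ≤ ((2 ^ J : ℤ) : ℝ) := by
        refine (Int.floor_le _).trans ?_
        push_cast
        nlinarith [hd.2]
      exact_mod_cast this
  refine h1.trans ?_
  rw [Fintype.card_piFinset_const]
  push_cast
  rw [Real.log_pow]
  push_cast
  refine mul_le_mul_of_nonneg_left ?_ (by norm_num)
  have h2 : (I.card : ℝ) ≤ 2 ^ (J + 2) := by
    have e1 : I.card = 2 * 2 ^ J + 1 := by
      rw [hI, Int.card_Icc]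
      have : (2 : ℤ) ^ J + 1 - -2 ^ J = ((2 * 2 ^ J + 1 : ℕ) : ℤ) := by
        push_cast
        ring
      rw [this, Int.toNat_natCast]
    rw [e1]
    push_cast
    have : (1 : ℝ) ≤ 2 ^ J := one_le_pow₀ (by norm_num)
    rw [pow_add]
    linarith
  have h3 : (0 : ℝ) < I.card := by
    have : 0 < I.card := by
      rw [hI]
      exact Finset.card_pos.2 ⟨0, by rw [Finset.mem_Icc]; constructor <;> simp⟩
    exact_mod_cast this
  have h4 := Real.log_le_log h3 h2
  rw [Real.log_pow] at h4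
  push_cast at h4
  exact h4

/-- The number of values of the exact point. -/
theorem cnt_pt_le {J : ℕ} {F : Fam 3 J} {a R τ : ℝ} (ha : 1 ≤ a) (hR : 0 ≤ R) (hτ : 0 ≤ τ)
    {A : F.Ω → Prop} (hS : Fam.Stt F a R τ A) :
    (cnt F.p (fun ω => (F.X J ω, F.W ω)) A : ℝ) ≤
      Real.exp (3 * ((J + 2) * Real.log 2) + J * Real.log 2 + 3 * (τ * J)) := by
  classical
  obtain ⟨⟨z, hz⟩, ⟨-, hGa⟩, ⟨-, ⟨h, hcard, hlaw⟩, -⟩, -⟩ := hS
  have hp := F.isLaw
  have hJ0 : (0 : ℝ) ≤ J := Nat.cast_nonneg J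
  have hl2 : 0 < Real.log 2 := Real.log_pos (by norm_num)
  -- the number of values
  have h1 : (cnt F.p (fun ω => (F.X J ω, F.W ω)) A : ℝ) ≤ Real.exp (h + τ * J) := by
    refine le_trans ?_ hcard
    have := cnt_le_card F.p (fun ω => (F.X J ω, F.W ω)) (A := A)
      ((((Finset.univ.filter (fun ω => F.p ω ≠ 0)).image fun ω => (F.X J ω, F.T ω)).image
          fun y => (y.1, (y.2, z)))) (by
      intro ω h0 _
      rw [mem_image]
      refine ⟨(F.X J ω, F.T ω), mem_image_of_mem _ ?_, ?_⟩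
      · rw [mem_filter]
        exact ⟨mem_univ ω, h0.ne'⟩
      · simp only [Fam.W, hz ω h0.ne'])
    have t3 : (cnt F.p (fun ω => (F.X J ω, F.W ω)) A : ℝ) ≤
        (((Finset.univ.filter (fun ω => F.p ω ≠ 0)).image fun ω => (F.X J ω, F.T ω)).card : ℝ) := by
      exact_mod_cast this.trans card_image_le
    refine t3.trans (le_of_eq ?_)
    congr
    exact Subsingleton.elim _ _
  -- the entropy
  have h2 : h - τ * J ≤ H F.p (fun ω => (F.X J ω, F.T ω)) := by
    unfold H
    rw [← sum_neg_distrib]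
    have e1 : h - τ * J = ∑ ω, F.p ω * (h - τ * J) := by rw [← sum_mul, hp.sum_one, one_mul]
    rw [e1]
    refine sum_le_sum fun ω _ => ?_
    by_cases h0 : F.p ω = 0
    · rw [h0]
      simp
    have hpos : 0 < F.p ω := lt_of_le_of_ne (hp.nonneg ω) (Ne.symm h0)
    have h3 := law_pos hp.nonneg (fun ω => (F.X J ω, F.T ω)) hpos
    have h4 := Real.log_le_log h3 (hlaw (F.X J ω, F.T ω))
    rw [Real.log_exp] at h4
    have : F.p ω * (h - τ * J) ≤
        F.p ω * (-Real.log (law F.p (fun ω => (F.X J ω, F.T ω)) (F.X J ω, F.T ω))) :=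
      mul_le_mul_of_nonneg_left (by linarith) hpos.le
    linarith
  have h3 : H F.p (fun ω => (F.X J ω, F.T ω)) ≤ H F.p (fun ω => (F.X J ω, F.W ω)) := by
    refine H_mono hp.nonneg fun ω ω' _ _ h => ?_
    obtain ⟨a1, a2⟩ := Prod.ext_iff.mp h
    have a3 : F.T ω = F.T ω' := (Prod.ext_iff.mp a2).1
    exact Prod.ext a1 a3
  have h4 : H F.p (fun ω => (F.X J ω, F.W ω)) = CH F.p (F.X J) F.W + H F.p F.W := by
    unfold CH
    ring
  have h5 : H F.p F.W ≤ J * Real.log 2 := by
    have e1 : H F.p F.W ≤ Real.log (((Finset.range (2 ^ J)).image fun t => (t, z)).card) := by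
      refine H_le_log_card hp.nonneg hp.sum_one _ _ fun ω hω => ?_
      rw [mem_image]
      refine ⟨F.T ω, by rw [mem_range]; exact F.tim ω, ?_⟩
      simp only [Fam.W, hz ω hω.ne']
    refine e1.trans ?_
    have e2 : (((Finset.range (2 ^ J)).image fun t => (t, z)).card : ℝ) ≤ 2 ^ J := by
      have : ((Finset.range (2 ^ J)).image fun t => (t, z)).card ≤ 2 ^ J := by
        refine card_image_le.trans ?_
        rw [card_range]
      exact_mod_cast this
    have e3 : (0 : ℝ) < ((Finset.range (2 ^ J)).image fun t => (t, z)).card := by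
      have : 0 < ((Finset.range (2 ^ J)).image fun t => (t, z)).card := by
        refine card_pos.2 ⟨(0, z), mem_image_of_mem _ ?_⟩
        rw [mem_range]
        positivity
      exact_mod_cast this
    have e4 := Real.log_le_log e3 e2
    rwa [Real.log_pow] at e4
  have h6 : CH F.p (F.X J) F.W ≤ 3 * ((J + 2) * Real.log 2) + τ * J := by
    have e1 : CH F.p (F.D J) F.Z ≤ H F.p (F.D J) := CH_le_H' hp _ _
    have e2 := H_D_le F
    have e3 := CH_nonneg hp.nonneg (F.X J) F.W
    unfold Fam.Ga at hGa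
    have e4 : CH F.p (F.X J) F.W ≤ a * CH F.p (F.X J) F.W := by nlinarith
    have e5 : 0 ≤ R * J := mul_nonneg hR hJ0
    nlinarith
  refine h1.trans (Real.exp_le_exp.2 ?_)
  linarith

end Pool.S6C
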