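import Pool.Agent.H80.S6C.Rate

/-!
# Existence of the class with all numbers
-/

set_option autoImplicit false

namespace Pool.S6C

open Finset Real
open Pool.Agent.H49.Ent Pool.Agent.H32.Dense Pool.STK Pool.KA Pool.KSAT Pool.K2S Pool.PB Pool.KS6

/-- The family form of the Pliss property. -/
theorem plsC_of_plr {S : PCl 3} {a R h₁ : ℝ} {i₀ : Fin 3} {c s₂ : ℝ} {r : ℝ → ℝ} {D : Set ℝ}
    {σ : ℝ → Row} (hC : Cs S a R h₁ i₀ c s₂ r D σ) {Q : ℝ} (hQ : Q ≤ 1)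
    (hP : Plr r c Q) : PlsC S c Q := by
  intro P hP0 hPQ h hh
  have hlaw : Clp S (fun _ F A => IsLaw (Pool.Agent.H49.Ent.cond F.p A True)) :=
    Clp.of one_pos 0 fun J _ F A hA => isLaw_cond F.isLaw
      (lt_of_lt_of_le (Real.exp_pos _) (hC.st 1 J F A hA).2.2.2)
  have hl2 : 0 < Real.log 2 := Real.log_pos (by norm_num)
  refine Clp.mono (J₂ := 0) (hlaw.and ((hC.rate P hP0 (hPQ.trans hQ) (h / 2) (by linarith only [hh])).and
    (hC.rate Q (hP0.trans hPQ) hQ (h / 2) (by linarith)))) ?_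
  rintro J - F A ⟨hl, a1, a2⟩
  have hJ0 : (0 : ℝ) ≤ J := Nat.cast_nonneg J
  rw [CH_rows F hl (floor_row hPQ J)]
  rw [abs_le] at a1 a2
  have h1 := mul_le_mul_of_nonneg_right (mul_le_mul_of_nonneg_right (hP P hP0 hPQ) hl2.le) hJ0
  have h2 : ((3 - c) * (Q - P) * Real.log 2 + h) * J =
    (3 - c) * (Q - P) * Real.log 2 * J + h * J := by ring
  rw [h2]
  nlinarith only [a1, a2, h1, a1.1, a1.2, a2.1, a2.2]

/-- **Existence of the class with all numbers.** -/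
theorem exists_cs {a R h₁ : ℝ} (ha : 1 < a) (hR : 0 < R) (hU : UBa 3 a R) (hh : 0 < h₁)
    {i₀ : Fin 3} (hN : (bas a R h₁ i₀).Ne) :
    ∃ (S : PCl 3) (c s₂ : ℝ) (r : ℝ → ℝ) (D : Set ℝ) (σ : ℝ → Row),
      Cs S a R h₁ i₀ c s₂ r D σ := by
  classical
  have hl2 : 0 < Real.log 2 := Real.log_pos (by norm_num)
  obtain ⟨S₁, hS₁, t1, t2, t3, t5, s₂, t4⟩ := ext_thr hN i₀
  obtain ⟨S, hS, g, hg⟩ := ext_rate ha.le hR.le hS₁.ne hS₁.sub
  have hst : ∀ (τ : ℝ) (J : ℕ) (F : Fam 3 J) (A : F.Ω → Prop), S.St τ J F A →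
      (bas a R h₁ i₀).St τ J F A := fun τ J F A hA => hS₁.sub τ J F A (hS.sub τ J F A hA)
  obtain ⟨D, σ, d1, d2, d3⟩ := rows_all hS.ne i₀
    (fun Q => by
      obtain ⟨s, hs⟩ := t1 Q
      exact ⟨s, hs.le hS.le⟩)
    (fun Q w => by
      obtain ⟨s, hs⟩ := t2 Q w
      exact ⟨s, hs.le hS.le⟩)
    (fun Q w => by
      obtain ⟨s, hs⟩ := t3 Q w
      exact ⟨s, hs.le hS.le⟩)
  obtain ⟨r, r1, r2⟩ := rate_real hS.ne hst hg
  have hlaw : Clp S (fun _ F A => IsLaw (Pool.Agent.H49.Ent.cond F.p A True)) :=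
    Clp.of one_pos 0 fun J _ F A hA => isLaw_cond F.isLaw
      (lt_of_lt_of_le (Real.exp_pos _) (hst 1 J F A hA).1.2.2.2)
  have hmono : ∀ P Q : ℝ, 0 ≤ P → P ≤ Q → Q ≤ 1 → r P ≤ r Q := by
    intro P Q hP hPQ hQ
    by_contra hcon
    push Not at hcon
    obtain ⟨e, he⟩ : ∃ e, e = (r P - r Q) * Real.log 2 / 3 := ⟨_, rfl⟩
    have he0 : 0 < e := by
      rw [he]
      have : 0 < r P - r Q := by linarith
      positivity
    refine clp_false hS.ne (hlaw.and ((r2 P hP (hPQ.trans hQ) e he0).and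
      (r2 Q (hP.trans hPQ) hQ e he0))) 1 ?_
    rintro J hJ F A ⟨hl, a1, a2⟩
    have hJ0 : (0 : ℝ) < J := by exact_mod_cast hJ
    have h1 := CH_rows F hl (floor_row hPQ J)
    have h2 := CH_nonneg hl.nonneg (F.X ⌊Q * J⌋₊) (fun ω => (F.X ⌊P * J⌋₊ ω, F.W ω))
    rw [abs_le] at a1 a2
    have e3 : r P * Real.log 2 * J = r Q * Real.log 2 * J + 3 * e * J := by rw [he]; ring
    rw [e3] at a1
    nlinarith only [a1, a2, h1, h2, he0, hJ0, a1.1, a2.2, mul_pos he0 hJ0]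
  -- the tail
  obtain ⟨c₁, hc₁⟩ : ∃ c₁, c₁ = R / a / Real.log 2 := ⟨_, rfl⟩
  have hc₁0 : 0 < c₁ := by rw [hc₁]; positivity
  have hc₁l : c₁ * Real.log 2 = R / a := by rw [hc₁]; field_simp
  have htail : ∀ P : ℝ, 3 / 4 ≤ P → P ≤ 1 → r 1 - r P ≤ (3 - c₁) * (1 - P) := by
    intro P hP hP1
    by_contra hcon
    push Not at hcon
    obtain ⟨e, he⟩ : ∃ e, e = (r 1 - r P - (3 - c₁) * (1 - P)) * Real.log 2 / 6 := ⟨_, rfl⟩
    have he0 : 0 < e := by
      rw [he]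
      have : 0 < r 1 - r P - (3 - c₁) * (1 - P) := by linarith only [hcon]
      positivity
    obtain ⟨τ, hτ, J₁, htl⟩ := tail_thm aop 3 ha.le hU he0
    obtain ⟨B, hB⟩ : ∃ B, B = |3 * Real.log 2 - R / a| := ⟨_, rfl⟩
    obtain ⟨J₀, hJ₀⟩ := exists_nat_gt (B / e)
    have htc : Clp S (fun J F A => ∀ x : ℕ, x ≤ J → J ≤ 2 * x →
        CH (Pool.Agent.H49.Ent.cond F.p A True) (F.X J) (fun ω => (F.X x ω, F.W ω)) ≤
        (((3 : ℕ) : ℝ) * Real.log 2 - R / a) * ((J : ℝ) - x) + e * J) :=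
      Clp.of hτ J₁ fun J hJ F A hA => htl J hJ F A (hst τ J F A hA).1
    refine clp_false hS.ne ((hlaw.and htc).and ((r2 P (by linarith only [hP]) hP1 e he0).and
      (r2 1 zero_le_one le_rfl e he0))) (J₀ + 4) ?_
    rintro J hJ F A ⟨⟨hl, ht⟩, a1, a2⟩
    have hJ4 : (4 : ℝ) ≤ J := by exact_mod_cast (by omega : 4 ≤ J)
    have hJ0 : (0 : ℝ) < J := by linarith only [hJ4]
    have hJB : B < e * J := by
      have : B / e < J := hJ₀.trans_le (by exact_mod_cast (by omega : J₀ ≤ J))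
      rw [div_lt_iff₀ he0] at this
      linarith only [this]
    have hfl1 : ⌊(1 : ℝ) * J⌋₊ = J := by rw [one_mul, Nat.floor_natCast]
    rw [hfl1] at a2
    obtain ⟨x, hx⟩ : ∃ x, x = ⌊P * J⌋₊ := ⟨_, rfl⟩
    rw [← hx] at a1
    have hxJ : x ≤ J := by
      have h9 := floor_row hP1 J
      rw [hfl1] at h9
      rw [hx]
      exact h9
    have hx1 : P * J < x + 1 := by rw [hx]; exact Nat.lt_floor_add_one _
    have hx2 : (x : ℝ) ≤ P * J := by
      rw [hx]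
      exact Nat.floor_le (mul_nonneg (by linarith only [hP]) hJ0.le)
    have hxh : J ≤ 2 * x := by
      have : (J : ℝ) ≤ 2 * x := by nlinarith only [hJ4, hx1, hP]
      exact_mod_cast this
    have h1 := ht x hxJ hxh
    rw [CH_rows F hl hxJ] at h1
    have hB1 : 3 * Real.log 2 - R / a ≤ B := by rw [hB]; exact le_abs_self _
    have hB2 : -B ≤ 3 * Real.log 2 - R / a := by rw [hB]; exact neg_abs_le _
    have h2 : (((3 : ℕ) : ℝ) * Real.log 2 - R / a) * ((J : ℝ) - x) ≤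
        (3 * Real.log 2 - R / a) * ((1 - P) * J) + B := by
      have e1 : (((3 : ℕ) : ℝ) * Real.log 2 - R / a) * ((J : ℝ) - x) =
          (3 * Real.log 2 - R / a) * ((1 - P) * J) + (3 * Real.log 2 - R / a) * (P * J - x) := by
        push_cast
        ring
      rw [e1]
      have h3 : (3 * Real.log 2 - R / a) * (P * J - x) ≤ B := by
        have h4 : 0 ≤ P * J - x := by linarith only [hx2]
        have h5 : P * J - x ≤ 1 := by linarith only [hx1]
        have hB0 : 0 ≤ B := by rw [hB]; exact abs_nonneg _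
        nlinarith only [hB1, hx1, hB2, hx2]
      linarith only [h3]
    rw [abs_le] at a1 a2
    have e3 : r 1 * Real.log 2 * J = r P * Real.log 2 * J +
        (3 - c₁) * (1 - P) * Real.log 2 * J + 6 * e * J := by rw [he]; ring
    have e4 : (3 - c₁) * (1 - P) * Real.log 2 * J = (3 * Real.log 2 - R / a) * ((1 - P) * J) := by
      rw [← hc₁l]
      ring
    rw [e3, e4] at a2
    nlinarith only [a2, hJB, a1, h1, hB1, hB2, h2, a1.1, a1.2, a2.1, a2.2, mul_pos he0 hJ0]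
  choose n₅ hn₅ using t5
  refine ⟨S, c₁ / 8, s₂, r, D, fun Q => ⟨(σ Q).pi, (σ Q).rot, (σ Q).th, n₅⟩,
    ⟨ha, hR, hU, hh, by positivity, hS.ne,
    fun τ J F A hA => (hst τ J F A hA).1, fun τ J F A hA => (hst τ J F A hA).2, d1, d2,
    fun Q q0 q1 q2 => ⟨(d3 Q q0 q1 q2).pi, (d3 Q q0 q1 q2).rot, (d3 Q q0 q1 q2).th⟩,
    t4.le hS.le, fun v t _ _ _ _ => (hn₅ v t).le hS.le, r2, r1, hmono, ?_⟩⟩
  intro P hP0 hP1
  rcases le_total (3 / 4) P with h | h
  · refine (htail P h hP1).trans ?_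
    have : 0 ≤ 1 - P := by linarith only [hP1]
    nlinarith only [hc₁0, hP1]
  · have h1 := htail (3 / 4) le_rfl (by norm_num)
    have h2 := r1.dist_le_mul (3 / 4) P
    rw [Real.dist_eq, Real.dist_eq] at h2
    push_cast at h2
    rw [abs_of_nonneg (by linarith only [h] : (0 : ℝ) ≤ 3 / 4 - P)] at h2
    have h3 := le_abs_self (r (3 / 4) - r P)
    nlinarith only [h1, h2, h3, hc₁0, hP0]

end Pool.S6C
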