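import Pool.Agent.H75.S6C.Mon
import Pool.Agent.H75.S6C.Rot
import Pool.Agent.H80.S6C.Cex

/-!
# The critical windows
-/

set_option autoImplicit false

namespace Pool.S6C

open Finset Real Set
open Pool.Agent.H49.Ent Pool.Agent.H32.Dense Pool.STK Pool.KA Pool.KSAT Pool.K2S Pool.PB Pool.KS6

/-- Existence of the critical window. -/
theorem exists_ws {Q : ℝ} {G : ℚ → ℝ}
    (h : ∀ e : ℝ, 0 < e → ∃ v : ℚ, 0 ≤ v ∧ v ≤ 1 ∧ Q - e ≤ G v) : ∃ ws : ℝ, IsWs Q G ws := by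
  classical
  obtain ⟨T, hT⟩ : ∃ T : ℝ → Set ℝ, T = fun e =>
    (fun v : ℚ => (v : ℝ)) '' {v : ℚ | 0 ≤ v ∧ v ≤ 1 ∧ Q - e ≤ G v} := ⟨_, rfl⟩
  have hb : ∀ e, BddBelow (T e) := by
    intro e
    refine ⟨0, ?_⟩
    rw [hT]
    rintro _ ⟨v, hv, rfl⟩
    have : (0 : ℚ) ≤ v := hv.1
    show (0 : ℝ) ≤ (v : ℝ)
    exact_mod_cast this
  have hn : ∀ e, 0 < e → (T e).Nonempty := by
    intro e he
    obtain ⟨v, h1, h2, h3⟩ := h e he
    rw [hT]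
    exact ⟨v, v, ⟨h1, h2, h3⟩, rfl⟩
  have h1 : ∀ e, 0 < e → sInf (T e) ≤ 1 := by
    intro e he
    obtain ⟨v, a1, a2, a3⟩ := h e he
    have : (v : ℝ) ∈ T e := by
      rw [hT]
      exact ⟨v, ⟨a1, a2, a3⟩, rfl⟩
    refine (csInf_le (hb e) this).trans ?_
    exact_mod_cast a2
  have hbs : BddAbove ((fun e => sInf (T e)) '' Ioi 0) := by
    refine ⟨1, ?_⟩
    rintro _ ⟨e, he, rfl⟩
    exact h1 e he
  have hns : ((fun e => sInf (T e)) '' Ioi (0 : ℝ)).Nonempty := ⟨_, 1, Set.mem_Ioi.2 one_pos, rfl⟩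
  refine ⟨sSup ((fun e => sInf (T e)) '' Ioi 0), ?_, ?_⟩
  · intro e he w hw
    have h2 : sInf (T e) < w := lt_of_le_of_lt (le_csSup hbs ⟨e, he, rfl⟩) hw
    obtain ⟨x, hx, hxw⟩ := exists_lt_of_csInf_lt (hn e he) h2
    rw [hT] at hx
    obtain ⟨v, hv, rfl⟩ := hx
    exact ⟨v, hv.1, hv.2.1, hxw, hv.2.2⟩
  · intro w hw
    obtain ⟨_, ⟨e, he, rfl⟩, hlt⟩ := exists_lt_of_lt_csSup hns hw
    refine ⟨e, he, fun v hv0 hvw => ?_⟩
    by_contra hcon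
    push Not at hcon
    have hv1 : (v : ℝ) ≤ 1 := hvw.trans (hlt.le.trans (h1 e he))
    have : (v : ℝ) ∈ T e := by
      rw [hT]
      exact ⟨v, ⟨hv0, by exact_mod_cast hv1, hcon⟩, rfl⟩
    have := csInf_le (hb e) this
    have h5 : (fun e => sInf (T e)) e = sInf (T e) := rfl
    linarith

/-- The critical window is monotone in the thickness and antitone in the function. -/
theorem ws_le {Q Q' ws ws' : ℝ} {G G' : ℚ → ℝ} (h : IsWs Q G ws) (h' : IsWs Q' G' ws')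
    (hQ : Q ≤ Q') (hG : ∀ v : ℚ, 0 ≤ v → v ≤ 1 → G' v ≤ G v) : ws ≤ ws' := by
  by_contra hcon
  push Not at hcon
  obtain ⟨w, hw1, hw2⟩ := exists_between hcon
  obtain ⟨e, he, he'⟩ := h.2 w hw2
  obtain ⟨v, v0, v1, vw, hv⟩ := h'.1 e he w hw1
  have h1 := he' v v0 vw.le
  have h2 := hG v v0 v1
  linarith

/-- Windows at which the thickness is at least `Q - e`. -/
theorem le_ws_of {Q ws x : ℝ} {G : ℚ → ℝ} (h : IsWs Q G ws) {e : ℝ} (he : 0 < e)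
    (hx : ∀ v : ℚ, 0 ≤ v → (v : ℝ) ≤ x → G v < Q - e) : x ≤ ws := by
  by_contra hcon
  push Not at hcon
  obtain ⟨v, v0, -, vw, hv⟩ := h.1 e he x hcon
  linarith [hx v v0 vw.le]

end Pool.S6C
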