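import Pool.Agent.H80.S6C.Bas

/-!
# The class with all numbers
-/

set_option autoImplicit false

namespace Pool.S6C

open Finset Real
open Pool.Agent.H49.Ent Pool.Agent.H32.Dense Pool.STK Pool.KA Pool.KSAT Pool.K2S Pool.PB Pool.KS6

/-- The base class: maximal families with one-dimensional fans. -/
def bas (a R h₁ : ℝ) (i₀ : Fin 3) : PCl 3 where
  St τ J F A := Fam.Stt F a R τ A ∧ Lb F i₀ ⌊h₁ * J⌋₊ A
  mono h hA := ⟨hA.1.mono h, hA.2⟩
  res := by
    intro τ τ' J F A B hτ hA hB hP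
    refine ⟨?_, LineAt.hered _ _ _ _ A B hB hA.2⟩
    have h1 := hA.1.mono (τ' := τ + τ') (by linarith)
    refine ⟨h1.1, h1.2.1, h1.2.2.1, le_trans ?_ hP⟩
    have h2 := mul_le_mul_of_nonneg_left hA.1.2.2.2 (Real.exp_pos (-(τ' * J))).le
    refine le_trans (le_of_eq ?_) h2
    rw [← Real.exp_add]
    congr 1
    ring

/-- The thresholds, with an index. -/
noncomputable def qIdx (i₀ : Fin 3) (i : Fin 5 × ℚ × ℚ) : ℝ → Stat 3 :=
  if i.1 = 0 then capS 1 (qPi i₀ i.2.1)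
  else if i.1 = 1 then capS 1 (qRot i₀ i.2.1 i.2.2)
  else if i.1 = 2 then capS i.2.1 (qTh i₀ i.2.1 i.2.2)
  else if i.1 = 3 then capS 1 (qSN i₀ i.2.1 i.2.2)
  else capS 1 qS2

/-- Thresholds at rational parameters. -/
theorem ext_thr {S : PCl 3} (hS : S.Ne) (i₀ : Fin 3) : ∃ S' : PCl 3, SubC S' S ∧
    (∀ Q : ℚ, ∃ s, PNum S' (capS 1 (qPi i₀ Q)) s) ∧
    (∀ Q w : ℚ, ∃ s, PNum S' (capS 1 (qRot i₀ Q w)) s) ∧
    (∀ Q w : ℚ, ∃ s, PNum S' (capS Q (qTh i₀ Q w)) s) ∧
    (∀ v t : ℚ, ∃ s, PNum S' (capS 1 (qSN i₀ v t)) s) ∧ ∃ s, PNum S' (capS 1 qS2) s := by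
  obtain ⟨f, hf⟩ := exists_surjective_nat (Fin 5 × ℚ × ℚ)
  obtain ⟨S', h1, h2, h3⟩ := ext_num hS (fun n => qIdx i₀ (f n))
    (by
      intro n s J F
      unfold qIdx
      split_ifs
      · exact capS.hered (qPi.hered _ _) _ _ _
      · exact capS.hered (qRot.hered _ _ _) _ _ _
      · exact capS.hered (qTh.hered _ _ _) _ _ _
      · exact capS.hered (qSN.hered _ _ _) _ _ _
      · exact capS.hered qS2.hered _ _ _)
    (by
      intro n s s' J F A hs
      unfold qIdx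
      split_ifs
      · exact capS.anti (qPi.anti _ _) _ _ _ _ _ hs
      · exact capS.anti (qRot.anti _ _ _) _ _ _ _ _ hs
      · exact capS.anti (qTh.anti _ _ _) _ _ _ _ _ hs
      · exact capS.anti (qSN.anti _ _ _) _ _ _ _ _ hs
      · exact capS.anti qS2.anti _ _ _ _ _ hs)
    (by
      intro n
      refine ⟨0, Clp.of one_pos 0 fun J _ F A _ => ?_⟩
      unfold qIdx
      split_ifs <;> exact Or.inl le_rfl)
    (by
      intro n
      refine ⟨max 1 ((f n).2.1 : ℝ) + 1, Clp.of one_pos 0 fun J _ F A _ => ?_⟩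
      have a1 := le_max_left 1 ((f n).2.1 : ℝ)
      have a2 := le_max_right 1 ((f n).2.1 : ℝ)
      unfold qIdx
      split_ifs <;> (rintro (h | h) <;> [linarith; linarith [h.1]]))
  refine ⟨S', ⟨h1, h2⟩, ?_, ?_, ?_, ?_, ?_⟩
  · intro Q
    obtain ⟨n, hn⟩ := hf (0, Q, 0)
    have := h3 n
    rw [hn] at this
    simpa [qIdx] using this
  · intro Q w
    obtain ⟨n, hn⟩ := hf (1, Q, w)
    have := h3 n
    rw [hn] at this
    simpa [qIdx] using this
  · intro Q w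
    obtain ⟨n, hn⟩ := hf (2, Q, w)
    have := h3 n
    rw [hn] at this
    simpa [qIdx] using this
  · intro v t
    obtain ⟨n, hn⟩ := hf (3, v, t)
    have := h3 n
    rw [hn] at this
    simpa [qIdx] using this
  · obtain ⟨n, hn⟩ := hf (4, 0, 0)
    have := h3 n
    rw [hn] at this
    simpa [qIdx] using this

/-- Numbers at all rows outside a countable set. -/
theorem rows_all {S : PCl 3} (hS : S.Ne) (i₀ : Fin 3)
    (hpi : ∀ Q : ℚ, ∃ s, PNum S (capS 1 (qPi i₀ Q)) s)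
    (hrot : ∀ Q w : ℚ, ∃ s, PNum S (capS 1 (qRot i₀ Q w)) s)
    (hth : ∀ Q w : ℚ, ∃ s, PNum S (capS Q (qTh i₀ Q w)) s) :
    ∃ (D : Set ℝ) (σ : ℝ → Row), D.Countable ∧ (1 : ℝ) ∉ D ∧
      ∀ Q : ℝ, 0 < Q → Q ≤ 1 → Q ∉ D → Rw S i₀ Q (σ Q) := by
  classical
  choose gp hgp using hpi
  choose gr hgr using hrot
  choose gt hgt using hth
  obtain ⟨Dp, hDp, hDp'⟩ := rat_cont (g := gp) (fun v w _ hvw _ =>
    num_le hS (hgp v) (hgp w) fun t J F A h => by
      rcases h with h | h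
      · exact Or.inl h
      · exact Or.inr ⟨h.1, qPi.row (by exact_mod_cast hvw) h.2⟩)
  have hr : ∀ u : ℚ, ∀ v w : ℚ, 0 ≤ v → v ≤ w → w ≤ 1 → gr v u ≤ gr w u := fun u v w _ hvw _ =>
    num_le hS (hgr v u) (hgr w u) fun t J F A h => by
      rcases h with h | h
      · exact Or.inl h
      · exact Or.inr ⟨h.1, qRot.row (by exact_mod_cast hvw) h.2⟩
  have ht : ∀ u : ℚ, ∀ v w : ℚ, 0 ≤ v → v ≤ w → w ≤ 1 → gt v u ≤ gt w u := fun u v w _ hvw _ =>
    num_le hS (hgt v u) (hgt w u) fun t J F A h => by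
      have hvw' : (v : ℝ) ≤ w := by exact_mod_cast hvw
      rcases h with h | h
      · exact Or.inl h
      · exact Or.inr ⟨h.1.trans hvw', qTh.row hvw' h.2⟩
  choose Dr hDr hDr' using fun u : ℚ => rat_cont (g := fun v => gr v u) (hr u)
  choose Dt hDt hDt' using fun u : ℚ => rat_cont (g := fun v => gt v u) (ht u)
  have hone : ∃ ρ, Rw S i₀ 1 ρ := by
    refine ⟨⟨gp 1, fun w => gr 1 w, fun w => gt 1 w, fun _ _ => 0⟩, ?_, fun w _ _ => ?_,
      fun w _ _ => ?_⟩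
    · have := hgp 1
      rwa [Rat.cast_one] at this
    · have := hgr 1 w
      rwa [Rat.cast_one] at this
    · have := hgt 1 w
      rwa [Rat.cast_one] at this
  refine ⟨{Q | 0 < Q ∧ Q ≤ 1 ∧ ¬ ∃ ρ, Rw S i₀ Q ρ},
    fun Q => if h : ∃ ρ, Rw S i₀ Q ρ then h.choose else ⟨0, fun _ => 0, fun _ => 0,
      fun _ _ => 0⟩, ?_, ?_, ?_⟩
  · have hsub : {Q : ℝ | 0 < Q ∧ Q ≤ 1 ∧ ¬ ∃ ρ, Rw S i₀ Q ρ} ⊆
        Dp ∪ ((⋃ u, Dr u) ∪ ⋃ u, Dt u) := by
      rintro Q ⟨hQ0, hQ1, hQ⟩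
      by_contra hcon
      rw [Set.mem_union, Set.mem_union, Set.mem_iUnion, Set.mem_iUnion] at hcon
      push Not at hcon
      obtain ⟨c1, c2, c3⟩ := hcon
      have hlt : Q < 1 := by
        rcases lt_or_eq_of_le hQ1 with h | h
        · exact h
        · rw [h] at hQ
          exact absurd hone hQ
      refine hQ ?_
      obtain ⟨L, hL⟩ := num_real (q := fun Q => capS 1 (qPi i₀ Q)) (g := gp) (fun Q _ _ => hgp Q)
        (fun Q Q' t J F A h hA => by
          rcases hA with h1 | h1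
          · exact Or.inl h1
          · exact Or.inr ⟨h1.1, qPi.row h h1.2⟩)
        (fun Q t t' J F A h hA => capS.anti (qPi.anti _ _) _ _ _ _ _ h hA)
        (fun v w _ hvw _ => num_le hS (hgp v) (hgp w) fun t J F A h => by
          rcases h with h | h
          · exact Or.inl h
          · exact Or.inr ⟨h.1, qPi.row (by exact_mod_cast hvw) h.2⟩)
        hQ0 hlt (hDp' Q hQ0 hlt c1)
      have hLr : ∀ u : ℚ, ∃ L, PNum S (capS 1 (qRot i₀ Q u)) L := fun u =>
        num_real (q := fun Q => capS 1 (qRot i₀ Q u)) (g := fun v => gr v u)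
          (fun Q _ _ => hgr Q u)
          (fun Q Q' t J F A h hA => by
            rcases hA with h1 | h1
            · exact Or.inl h1
            · exact Or.inr ⟨h1.1, qRot.row h h1.2⟩)
          (fun Q t t' J F A h hA => capS.anti (qRot.anti _ _ _) _ _ _ _ _ h hA)
          (hr u) hQ0 hlt (hDr' u Q hQ0 hlt (c2 u))
      have hLt : ∀ u : ℚ, ∃ L, PNum S (capS Q (qTh i₀ Q u)) L := fun u =>
        num_real (q := fun Q => capS Q (qTh i₀ Q u)) (g := fun v => gt v u)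
          (fun Q _ _ => hgt Q u)
          (fun Q Q' t J F A h hA => by
            rcases hA with h1 | h1
            · exact Or.inl h1
            · exact Or.inr ⟨h1.1.trans h, qTh.row h h1.2⟩)
          (fun Q t t' J F A h hA => capS.anti (qTh.anti _ _ _) _ _ _ _ _ h hA)
          (ht u) hQ0 hlt (hDt' u Q hQ0 hlt (c3 u))
      choose Lr hLr using hLr
      choose Lt hLt using hLt
      exact ⟨⟨L, Lr, Lt, fun _ _ => 0⟩, hL, fun w _ _ => hLr w, fun w _ _ => hLt w⟩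
    refine Set.Countable.mono hsub ?_
    exact hDp.union ((Set.countable_iUnion hDr).union (Set.countable_iUnion hDt))
  · rintro ⟨-, -, h⟩
    exact h hone
  · intro Q hQ0 hQ1 hQ
    have hex : ∃ ρ, Rw S i₀ Q ρ := by
      by_contra hcon
      exact hQ ⟨hQ0, hQ1, hcon⟩
    simp only [dif_pos hex]
    exact hex.choose_spec

end Pool.S6C
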