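import Pool.Agent.H80.S6C.Crit
import Pool.Agent.H75.S6C.Ths

/-!
# The data at the Pliss rows near the top

From the planks at the top (TOP), the visibility of planks (PU) and the bound on windows near zero
(END), the critical window of every Pliss row near `1` exists, with all its properties (`PR`).
-/

set_option autoImplicit false

namespace Pool.S6C

open Finset Real Set
open Pool.Agent.H49.Ent Pool.Agent.H32.Dense Pool.STK Pool.KA Pool.KSAT Pool.K2S Pool.PB Pool.KS6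

/-- **(END)** There are no planks of thickness almost `1` on windows near `0`. -/
def ENDStmt : Prop :=
  ∀ a R h₁ : ℝ, 1 < a → 0 < R → UBa 3 a R → 0 < h₁ → ∀ i₀ : Fin 3, ∃ x : ℝ, 0 < x ∧ x < 1 / 2 ∧
    ∀ (S : PCl 3) (c s₂ : ℝ) (r : ℝ → ℝ) (D : Set ℝ) (σ : ℝ → Row),
    Cs S a R h₁ i₀ c s₂ r D σ → ∀ w : ℚ, 0 ≤ w → (w : ℝ) ≤ x → (σ 1).th w < 1 - x

theorem plr_one {S : PCl 3} {a R h₁ : ℝ} {i₀ : Fin 3} {c s₂ : ℝ} {r : ℝ → ℝ} {D : Set ℝ}
    {σ : ℝ → Row} (hC : Cs S a R h₁ i₀ c s₂ r D σ) : Plr r c 1 := by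
  intro P hP0 hP1
  refine (hC.tail P hP0 hP1).trans ?_
  have h1 := hC.c0
  have h2 : 0 ≤ 1 - P := by linarith
  nlinarith

/-- **The data at the Pliss rows near the top.** -/
theorem pr_of (hTOP : TOPStmt) (hPU : PUStmt) (hEND : ENDStmt) {S : PCl 3} {a R h₁ : ℝ}
    {i₀ : Fin 3} {c s₂ : ℝ} {r : ℝ → ℝ} {D : Set ℝ} {σ : ℝ → Row}
    (hC : Cs S a R h₁ i₀ c s₂ r D σ) :
    ∃ Q₁ : ℝ, Q₁ < 1 ∧ ∀ Q : ℝ, Q₁ < Q → Q < 1 → Q ∉ D → Plr r c Q →
      ∃ ws : ℝ, PR c r D σ Q ws := by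
  classical
  obtain ⟨x, hx0, hx2, hx⟩ := hEND a R h₁ hC.a1 hC.R0 hC.ub hC.h₁0 i₀
  replace hx := hx S c s₂ r D σ hC
  obtain ⟨Q₀, hQ₀, htop⟩ := hTOP S a R h₁ i₀ c s₂ r D σ hC
  obtain ⟨C, hC0, hpu⟩ := hPU S a R h₁ i₀ c s₂ r D σ hC
  refine ⟨max Q₀ (1 - x), max_lt hQ₀ (by linarith), fun Q hQ hQ1 hQD hplr => ?_⟩
  have hQQ₀ : Q₀ < Q := (le_max_left _ _).trans_lt hQ
  have hQx : 1 - x < Q := (le_max_right _ _).trans_lt hQ
  have hQh : 1 / 2 < Q := by linarith
  have hQ0 : 0 < Q := by linarith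
  have r1 := hC.row 1 one_pos le_rfl hC.D1
  have rQ := hC.row Q hQ0 hQ1.le hQD
  obtain ⟨kpi, krow⟩ := rw_row hC.ne hQ1.le rQ r1
  have hrotm : ∀ v w : ℚ, 0 ≤ v → v ≤ w → w ≤ 1 → (σ 1).rot v ≤ (σ 1).rot w :=
    fun v w h0 hvw h1 => rot_window hC.ne r1 h0 hvw h1
  have hrotQ : ∀ v w : ℚ, 0 ≤ v → v ≤ w → w ≤ 1 → (σ Q).rot v ≤ (σ Q).rot w :=
    fun v w h0 hvw h1 => rot_window hC.ne rQ h0 hvw h1
  have hmin : ∀ w : ℚ, 0 ≤ w → w ≤ 1 → min ((σ 1).rot w) (σ Q).pi ≤ (σ Q).rot w :=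
    fun w h0 h1 => rot_min hC hQ0.le hQ1.le rQ w h0 h1
  have hth1 : ∀ v w : ℚ, 0 ≤ v → v ≤ w → w ≤ 1 → (σ 1).th v ≤ (σ 1).th w :=
    fun v w h0 hvw h1 => th_mono hC.ne hC.st le_rfl r1 v w h0 hvw (by exact_mod_cast h1)
  have hge1 : ∀ w : ℚ, 0 ≤ w → w ≤ 1 → (w : ℝ) ≤ (σ 1).th w :=
    fun w h0 h1 => th_ge hC.ne hC.st le_rfl r1 w h0 (by exact_mod_cast h1)
  have hgeQ : ∀ w : ℚ, 0 ≤ w → (w : ℝ) ≤ Q → (w : ℝ) ≤ (σ Q).th w :=
    fun w h0 h1 => th_ge hC.ne hC.st hQ1.le rQ w h0 h1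
  -- the planks at exact points
  obtain ⟨w₁, w₁', a1, a2, a3, a4, a5⟩ := htop 1 hQ₀.le (by norm_num) le_rfl hC.D1 (plr_one hC)
    (min x (1 - Q)) x (lt_min hx0 (by linarith)) hx0
  have b1 : min x (1 - Q) ≤ x := min_le_left _ _
  have b2 : min x (1 - Q) ≤ 1 - Q := min_le_right _ _
  have a2' : (w₁ : ℝ) < w₁' := by exact_mod_cast a2
  have a6 : (σ 1).rot w₁' < (σ 1).pi := by
    rcases a5 with h | h
    · exact h
    · exact absurd (hx w₁ a1.le (by linarith)) (by linarith)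
  have a7 : Q ≤ (σ 1).th w₁ := by linarith
  have w1' : w₁' ≤ 1 := a3.le
  -- planks with turning directions on windows above
  have pk' : ∀ e : ℝ, 0 < e → ∃ v v' : ℚ, 0 < v ∧ v < v' ∧ v' < 1 ∧ (v : ℝ) < Q ∧
      (σ Q).rot v' < (σ Q).pi ∧ (σ 1).rot v' < (σ 1).pi ∧ Q - e ≤ (σ Q).th v := by
    intro e he
    rcases lt_or_ge ((σ 1).rot w₁') (σ Q).pi with hA | hB
    · -- the directions at exact points turn below the straightness at the row
      obtain ⟨η, hη⟩ : ∃ η, η = e / (C + 1) := ⟨_, rfl⟩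
      have hη0 : 0 < η := by rw [hη]; positivity
      have hCη : C * η ≤ e := by
        rw [hη, mul_div_assoc', div_le_iff₀ (by positivity)]
        nlinarith
      obtain ⟨u, v, v', c1, c2, c3, c3', c4, c5⟩ : ∃ u v v' : ℚ, 0 < u ∧ u < v ∧ (v : ℝ) < Q ∧
          v < v' ∧ v' ≤ w₁' ∧ Q - η ≤ (σ 1).th u := by
        rcases lt_or_ge (w₁ : ℝ) Q with h | h
        · obtain ⟨v, d1, d2⟩ := exists_rat_btwn (show (w₁ : ℝ) < min (w₁' : ℝ) Q from
            lt_min a2' h)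
          have d3 : (v : ℝ) < w₁' := lt_of_lt_of_le d2 (min_le_left _ _)
          exact ⟨w₁, v, w₁', a1, by exact_mod_cast d1, lt_of_lt_of_le d2 (min_le_right _ _),
            by exact_mod_cast d3, le_rfl, by linarith⟩
        · obtain ⟨u, d1, d2⟩ := exists_rat_btwn (show max 0 (Q - η) < Q from
            max_lt hQ0 (by linarith))
          obtain ⟨v, d3, d4⟩ := exists_rat_btwn d2
          have d5 : (0 : ℝ) < u := (le_max_left _ _).trans_lt d1
          have d6 : Q - η < u := (le_max_right _ _).trans_lt d1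
          have d7 : (v : ℝ) < w₁' := by linarith
          have d8 : (u : ℝ) ≤ 1 := by linarith
          have d9 := hge1 u (by exact_mod_cast d5.le) (by exact_mod_cast d8)
          exact ⟨u, v, w₁', by exact_mod_cast d5, by exact_mod_cast d3, d4,
            by exact_mod_cast d7, le_rfl, by linarith⟩
      have c0 : 0 ≤ v := c1.le.trans c2.le
      have c0' : 0 ≤ v' := c0.trans c3'.le
      have e1 := hrotm v w₁' c0 (c3'.le.trans c4) w1'
      have e1' := hrotm v' w₁' c0' c4 w1'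
      have e2 := hpu Q hQh.le hQ1 hQD hplr u v c1 c2 c3.le (by linarith) (by linarith)
      have e3 : C * max 0 (Q - (σ 1).th u) ≤ C * η :=
        mul_le_mul_of_nonneg_left (max_le hη0.le (by linarith)) hC0
      have e4 := (krow v' c0' (c4.trans w1')).1
      exact ⟨v, v', c1.trans c2, c3', c4.trans_lt a3, c3, by linarith, by linarith,
        by linarith⟩
    · obtain ⟨w, w', c1, c2, c3, c4, c5⟩ := htop Q hQQ₀.le hQh.le hQ1.le hQD hplr
        (min e (Q - (1 - x))) x (lt_min he (by linarith)) hx0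
      have d1 : min e (Q - (1 - x)) ≤ e := min_le_left _ _
      have d2 : min e (Q - (1 - x)) ≤ Q - (1 - x) := min_le_right _ _
      have c2' : (w : ℝ) < w' := by exact_mod_cast c2
      have w1 : w ≤ 1 := c2.le.trans c3.le
      have w0' : 0 ≤ w' := c1.le.trans c2.le
      have d3 := (krow w c1.le w1).2
      have c6 : (σ Q).rot w' < (σ Q).pi := by
        rcases c5 with h | h
        · exact h
        · exact absurd (hx w c1.le (by linarith)) (by linarith)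
      have c8 : w' ≤ w₁' := by
        by_contra hcon
        push Not at hcon
        have e1 := hrotm w₁' w' (a1.le.trans a2.le) hcon.le c3.le
        have e2 := hmin w' w0' c3.le
        rw [min_eq_right (by linarith)] at e2
        linarith
      have c9 : (σ 1).rot w' < (σ 1).pi := lt_of_le_of_lt (hrotm w' w₁' w0' c8 w1') a6
      rcases lt_or_ge (w : ℝ) Q with h | h
      · exact ⟨w, w', c1, c2, c3, h, c6, c9, by linarith⟩
      · obtain ⟨u, f1, f2⟩ := exists_rat_btwn (show max 0 (Q - e) < Q from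
          max_lt hQ0 (by linarith))
        have f3 : (0 : ℝ) < u := (le_max_left _ _).trans_lt f1
        have f4 : Q - e < u := (le_max_right _ _).trans_lt f1
        have f5 : (0 : ℚ) < u := by exact_mod_cast f3
        have f6 : u < w' := by
          have : (u : ℝ) < w' := by linarith
          exact_mod_cast this
        exact ⟨u, w', f5, f6, c3, f2, c6, c9, by linarith [hgeQ u f5.le f2.le]⟩
  have pk : ∀ e : ℝ, 0 < e → ∃ v : ℚ, 0 < v ∧ (v : ℝ) < Q ∧ (σ Q).rot v < (σ Q).pi ∧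
      (σ 1).rot v < (σ 1).pi ∧ Q - e ≤ (σ Q).th v := by
    intro e he
    obtain ⟨v, v', k1, k2, k3, k4, k5, k6, k7⟩ := pk' e he
    exact ⟨v, k1, k4, lt_of_le_of_lt (hrotQ v v' k1.le k2.le k3.le) k5,
      lt_of_le_of_lt (hrotm v v' k1.le k2.le k3.le) k6, k7⟩
  -- the critical window
  have hlt : ∀ v : ℚ, (v : ℝ) < Q → v ≤ 1 := fun v hv => by
    have : (v : ℝ) ≤ 1 := hv.le.trans hQ1.le
    exact_mod_cast this
  obtain ⟨ws, hws⟩ := exists_ws (Q := Q) (G := (σ Q).th) fun e he => by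
    obtain ⟨v, v0, vQ, -, -, hv⟩ := pk e he
    exact ⟨v, v0.le, hlt v vQ, hv⟩
  obtain ⟨ws₁, hws₁⟩ := exists_ws (Q := Q) (G := (σ 1).th) fun e he => by
    obtain ⟨v, v0, vQ, -, -, hv⟩ := pk e he
    exact ⟨v, v0.le, hlt v vQ, hv.trans (krow v v0.le (hlt v vQ)).2⟩
  have hle : ws₁ ≤ ws := ws_le hws₁ hws le_rfl fun v v0 v1 => (krow v v0 v1).2
  have hge : ws ≤ ws₁ := by
    by_contra hcon
    push Not at hcon
    obtain ⟨u, hu1, hu2⟩ := exists_between hcon
    obtain ⟨e, he, he'⟩ := hws.2 u hu2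
    obtain ⟨v, v0, vQ, g1, g2, g3⟩ := pk e he
    have hvu : u < v := by
      by_contra hcon2
      push Not at hcon2
      linarith [he' v v0.le hcon2]
    have g4 : (σ 1).rot v < (σ Q).pi := by
      by_contra hcon2
      push Not at hcon2
      have e2 := hmin v v0.le (hlt v vQ)
      rw [min_eq_right hcon2] at e2
      linarith
    obtain ⟨η, hη⟩ : ∃ η, η = e / (C + 1) := ⟨_, rfl⟩
    have hη0 : 0 < η := by rw [hη]; positivity
    have hCη : C * η < e := by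
      rw [hη, mul_div_assoc', div_lt_iff₀ (by positivity)]
      nlinarith
    obtain ⟨z, z0, z1, zu, hz⟩ := hws₁.1 η hη0 u hu1
    obtain ⟨v₂, m1, m2⟩ := exists_rat_btwn zu
    obtain ⟨v₃, m3, m4⟩ := exists_rat_btwn m2
    have m5 : z < v₂ := by exact_mod_cast m1
    have m6 : v₂ < v₃ := by exact_mod_cast m3
    have m7 : (v₃ : ℝ) < v := m4.trans hvu
    have m8 : v₃ ≤ v := le_of_lt (by exact_mod_cast m7)
    have v20 : 0 < v₂ := lt_of_le_of_lt z0 m5
    have v30 : 0 ≤ v₃ := v20.le.trans m6.le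
    have v21 : v₂ ≤ 1 := m6.le.trans (m8.trans (hlt v vQ))
    have n1 := hth1 z v₂ z0 m5.le v21
    have n2 := hrotm v₃ v v30 m8 (hlt v vQ)
    have n3 := hpu Q hQh.le hQ1 hQD hplr v₂ v₃ v20 m6 (by linarith) (by linarith) (by linarith)
    have n4 : C * max 0 (Q - (σ 1).th v₂) ≤ C * η :=
      mul_le_mul_of_nonneg_left (max_le hη0.le (by linarith)) hC0
    have n5 := he' v₃ v30 m4.le
    linarith
  have heq : ws₁ = ws := le_antisymm hle hge
  have hxws : x ≤ ws := le_ws_of hws (e := Q - (1 - x)) (by linarith) fun v v0 vx => by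
    have o1 := hx v v0 vx
    have o2 : v ≤ 1 := by
      have : (v : ℝ) ≤ 1 := by linarith
      exact_mod_cast this
    have o3 := (krow v v0 o2).2
    linarith
  refine ⟨ws, ⟨hQh.le, hQ1, hQD, hplr, hws, heq ▸ hws₁, by linarith, pk, pk'⟩⟩

end Pool.S6C
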