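import Pool.Agent.H39.S6C.Bct
import Pool.Agent.H10.S6U.Out
import Pool.Agent.H64.KS6.WfeC
import Pool.Agent.H42.S6C.Row
import Pool.Agent.H45.K2.PLF

/-!
# The plank and the own slope as a label with linear covectors

At windows `w` where the own slope is known to `D'` digits, `P ≤ D' + w`, the frame of the plank and
of the own slope is a label in the sense of the fullness theorem, with base velocity zero.
-/

set_option autoImplicit false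

namespace Pool.S6C.Uvc

open Finset Real
open Pool.Agent.H49.Ent Pool.Agent.H32.Dense Pool.STK Pool.KA Pool.KSAT Pool.K2S Pool.PB Pool.KS6
open Pool.S6K.Wfe Pool.K3 Pool.S6U Bct

variable {J : ℕ}

/-- The data: planks `pl (κ ω)` of the windows `w₀`, of thickness `T`, own slopes `al`, slopes known
from the windows `w₁` to `E` digits. -/
structure Dat (F : Fam 3 J) (B : F.Ω → Prop) (ς : Fin 3 → Fin 3) (w₀ w₁ lam T L E : ℕ) (C : ℝ)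
    {Λ : Type} (κ : F.Ω → Λ) (pl : Λ → Pln) (al : F.Ω → ℝ)
    (φ : (Fin 3 → ℤ) × (ℕ × F.ζ) → Λ) (ψ : ((Fin 3 → ℝ) × (Fin 3 → ℝ)) × F.ζ × ℕ → Λ)
    (fa nu : (Fin 3 → ℤ) × (ℕ × F.ζ) → ℝ)
    (ζ : ((Fin 3 → ℝ) × (Fin 3 → ℝ)) × F.ζ × ℕ → ℝ) : Prop where
  inc : ∀ ω, B ω → Inc (ς 0) (ς 1) (ς 2) w₀ lam T C (pl (κ ω)) (F.t ω) (F.x ω) (F.d ω)
  pt : ∀ ω, B ω → κ ω = φ (Fam.pt F ω)
  sl : ∀ ω, B ω → κ ω = ψ (slam F w₀ ω)
  apt : ∀ ω, B ω → al ω = fa (Fam.pt F ω)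
  bd : ∀ ω, B ω → |al ω| ≤ C
  on : ∀ ω, B ω → |F.d ω (ς 1) - al ω * F.d ω (ς 0) - nu (Fam.pt F ω)| ≤ C / 2 ^ L
  near : ∀ ω, B ω → |al ω - ζ (slam F w₁ ω)| ≤ 1 / 2 ^ E

/-- The slope known from the window, rounded to `E` digits. -/
noncomputable def aw (F : Fam 3 J) (w₁ E : ℕ)
    (ζ : ((Fin 3 → ℝ) × (Fin 3 → ℝ)) × F.ζ × ℕ → ℝ) (ω : F.Ω) : ℝ := Bct.rd E (ζ (slam F w₁ ω))

/-- The covectors of the label. -/
noncomputable def zw (F : Fam 3 J) (ς : Fin 3 → Fin 3) (w₀ w₁ E : ℕ) {Λ : Type} (pl : Λ → Pln)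
    (ψ : ((Fin 3 → ℝ) × (Fin 3 → ℝ)) × F.ζ × ℕ → Λ)
    (ζ : ((Fin 3 → ℝ) × (Fin 3 → ℝ)) × F.ζ × ℕ → ℝ) (ω : F.Ω) : Fin 3 → Fin 3 → ℝ :=
  tfr ς (aw F w₁ E ζ ω) (-(pl (ψ (slam F w₀ ω))).s) (-(pl (ψ (slam F w₀ ω))).c)

section Data

variable {F : Fam 3 J} {B : F.Ω → Prop} {ς : Fin 3 → Fin 3} {w₀ w₁ lam T L E : ℕ} {C : ℝ}
  {Λ : Type} {κ : F.Ω → Λ} {pl : Λ → Pln} {al : F.Ω → ℝ}
  {φ : (Fin 3 → ℤ) × (ℕ × F.ζ) → Λ} {ψ : ((Fin 3 → ℝ) × (Fin 3 → ℝ)) × F.ζ × ℕ → Λ}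
  {fa nu : (Fin 3 → ℤ) × (ℕ × F.ζ) → ℝ} {ζ : ((Fin 3 → ℝ) × (Fin 3 → ℝ)) × F.ζ × ℕ → ℝ}

theorem Dat.aw_near (h : Dat F B ς w₀ w₁ lam T L E C κ pl al φ ψ fa nu ζ) {ω : F.Ω}
    (hω : B ω) : |al ω - aw F w₁ E ζ ω| ≤ 2 / 2 ^ E := by
  have h1 := h.near ω hω
  have h2 := rd_le E (ζ (slam F w₁ ω))
  have h3 : (2 : ℝ) / 2 ^ E = 1 / 2 ^ E + 1 / 2 ^ E := by ring
  rw [h3]
  exact (abs_sub_le _ (ζ (slam F w₁ ω)) _).trans (add_le_add h1 h2)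

theorem Dat.aw_bd (h : Dat F B ς w₀ w₁ lam T L E C κ pl al φ ψ fa nu ζ) {ω : F.Ω}
    (hω : B ω) : |aw F w₁ E ζ ω| ≤ C + 2 := by
  have h1 := h.aw_near hω
  have h2 := h.bd ω hω
  have h3 : (2 : ℝ) / 2 ^ E ≤ 2 := by
    have := inv_le_one E
    have e1 : (2 : ℝ) / 2 ^ E = 2 * (1 / 2 ^ E) := by ring
    rw [e1]
    linarith
  have h4 := abs_sub_abs_le_abs_sub (aw F w₁ E ζ ω) (al ω)
  rw [abs_sub_comm] at h4
  linarith

/-- **The label.** -/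
theorem Dat.lok (h : Dat F B ς w₀ w₁ lam T L E C κ pl al φ ψ fa nu ζ)
    (hς : Function.Injective ς) {w c₀ P : ℕ} (hC : 1 ≤ C) (hc : 8 * C ≤ 2 ^ c₀) (h0 : w₀ ≤ w)
    (hT : P + w₀ + c₀ ≤ w + T) (h1 : w₁ ≤ w) (hwP : w ≤ P) (hPJ : P ≤ J) (hL : P + c₀ ≤ w + L) (hE : P ≤ w + E) :
    ∃ f n : (Fin 3 → ℤ) × (ℕ × F.ζ) → Fin 3 → ℝ,
      LOK F B (ς 0) w 0 (P - w) f n ![w, P, P] ![0, P - w, P - w] ![0, P - w, P - w]
        (zw F ς w₀ w₁ E pl ψ ζ) (fun ω => ψ (slam F w₀ ω)) (1 + 2 * (C + 4)) 2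
        (Real.log (2 * 5 + 1)) := by
  classical
  have hC0 : 0 ≤ C := by linarith
  have hwJ : w ≤ J := hwP.trans hPJ
  have n10 : ς 1 ≠ ς 0 := fun e => absurd (hς e) (by decide)
  have n20 : ς 2 ≠ ς 0 := fun e => absurd (hς e) (by decide)
  have n21 : ς 2 ≠ ς 1 := fun e => absurd (hς e) (by decide)
  have hcase : ∀ j : Fin 3, j = ς 0 ∨ j = ς 1 ∨ j = ς 2 := by
    intro j
    obtain ⟨i, rfl⟩ := (Finite.injective_iff_surjective.1 hς) j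
    fin_cases i
    · exact Or.inl rfl
    · exact Or.inr (Or.inl rfl)
    · exact Or.inr (Or.inr rfl)
  obtain ⟨f, hf⟩ : ∃ f : (Fin 3 → ℤ) × (ℕ × F.ζ) → Fin 3 → ℝ, f = fun u j =>
      if j = ς 0 then 1 else if j = ς 1 then fa u else
        -(pl (φ u)).s * fa u - (pl (φ u)).c := ⟨_, rfl⟩
  obtain ⟨n, hn⟩ : ∃ n : (Fin 3 → ℤ) × (ℕ × F.ζ) → Fin 3 → ℝ, n = fun u j =>
      if j = ς 0 then 0 else if j = ς 1 then nu u else
        fn (ς 0) (ς 1) (ς 2) (pl (φ u)).c (pl (φ u)).s (pl (φ u)).db - (pl (φ u)).s * nu u :=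
    ⟨_, rfl⟩
  have f0 : ∀ u, f u (ς 0) = 1 := fun u => by rw [hf]; simp
  have f1 : ∀ u, f u (ς 1) = fa u := fun u => by rw [hf]; simp [n10]
  have f2 : ∀ u, f u (ς 2) = -(pl (φ u)).s * fa u - (pl (φ u)).c := fun u => by
    rw [hf]; simp [n20, n21]
  have g0 : ∀ u, n u (ς 0) = 0 := fun u => by rw [hn]; simp
  have g1 : ∀ u, n u (ς 1) = nu u := fun u => by rw [hn]; simp [n10]
  have g2 : ∀ u, n u (ς 2) = fn (ς 0) (ς 1) (ς 2) (pl (φ u)).c (pl (φ u)).s (pl (φ u)).db -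
      (pl (φ u)).s * nu u := fun u => by rw [hn]; simp [n20, n21]
  have pc : (0 : ℝ) < 2 ^ c₀ := by positivity
  have pw0 : (0 : ℝ) < 2 ^ w₀ := by positivity
  have pPw : (0 : ℝ) < 2 ^ (P - w) := by positivity
  -- the two errors
  have er1 : C / 2 ^ L ≤ 1 / 8 * (1 / 2 ^ (P - w)) := by
    have k1 : (2 : ℝ) ^ (P - w + c₀) ≤ 2 ^ L := pow_le_pow_right₀ (by norm_num) (by omega)
    rw [pow_add] at k1
    rw [div_le_iff₀ (by positivity)]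
    have k2 : (1 : ℝ) / 8 * (1 / 2 ^ (P - w)) * (2 ^ (P - w) * 2 ^ c₀) ≤
        1 / 8 * (1 / 2 ^ (P - w)) * 2 ^ L := mul_le_mul_of_nonneg_left k1 (by positivity)
    have k3 : (1 : ℝ) / 8 * (1 / 2 ^ (P - w)) * (2 ^ (P - w) * 2 ^ c₀) = 1 / 8 * 2 ^ c₀ := by
      field_simp
    linarith
  have er2 : C * 2 ^ w₀ / 2 ^ T ≤ 1 / 8 * (1 / 2 ^ (P - w)) := by
    have k1 : (2 : ℝ) ^ (P - w + w₀ + c₀) ≤ 2 ^ T := pow_le_pow_right₀ (by norm_num) (by omega)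
    rw [pow_add, pow_add] at k1
    rw [div_le_iff₀ (by positivity)]
    have k2 : (1 : ℝ) / 8 * (1 / 2 ^ (P - w)) * (2 ^ (P - w) * 2 ^ w₀ * 2 ^ c₀) ≤
        1 / 8 * (1 / 2 ^ (P - w)) * 2 ^ T := mul_le_mul_of_nonneg_left k1 (by positivity)
    have k3 : (1 : ℝ) / 8 * (1 / 2 ^ (P - w)) * (2 ^ (P - w) * 2 ^ w₀ * 2 ^ c₀) =
        1 / 8 * (2 ^ c₀ * 2 ^ w₀) := by
      field_simp
    rw [k3] at k2
    have k4 : 8 * C * 2 ^ w₀ ≤ 2 ^ c₀ * 2 ^ w₀ := mul_le_mul_of_nonneg_right hc pw0.le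
    linarith
  have hψ : ∀ ω ω', wnd F w ω = wnd F w ω' → slam F w₀ ω = slam F w₀ ω' ∧
      slam F w₁ ω = slam F w₁ ω' := by
    intro ω ω' hw
    have a1 := Prod.ext_iff.1 hw
    have a2 := Prod.ext_iff.1 a1.2
    have e1 : slam F w ω = slam F w ω' := Prod.ext a1.1 (Prod.ext a2.2 a2.1)
    rw [slam_coarse F h0 hwJ ω, slam_coarse F h0 hwJ ω',
      slam_coarse F h1 hwJ ω, slam_coarse F h1 hwJ ω', e1]
    exact ⟨rfl, rfl⟩
  refine ⟨f, n, ?_, ?_, ?_, ?_, ?_, ?_, ?_, ?_, ?_⟩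
  · intro i
    fin_cases i
    · exact hwJ
    · exact hPJ
    · exact hPJ
  · intro i
    fin_cases i
    · change w ≤ 0 + w
      omega
    · change P ≤ P - w + w
      omega
    · change P ≤ P - w + w
      omega
  · intro i
    exact Nat.le_add_right _ _
  · intro i
    fin_cases i
    · exact Nat.zero_le _
    · exact le_rfl
    · exact le_rfl
  · -- straightness
    intro ω hω j
    have i1 := h.inc ω hω
    have i2 := h.on ω hω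
    have i3 := h.pt ω hω
    have i4 := h.apt ω hω
    have hq : (0 : ℝ) ≤ 1 / 2 ^ (P - w) := by positivity
    rcases hcase j with hj | hj | hj
    · rw [hj, f0, g0, one_mul, sub_self, sub_zero, abs_zero]
      exact hq
    · rw [hj, f1, g1, ← i4]
      linarith
    · rw [hj, f2, g2, ← i3, ← i4]
      have k1 := i1.vn
      have k2 := i1.s_le
      unfold fn at k1 ⊢
      obtain ⟨s, hs⟩ : ∃ s, s = (pl (κ ω)).s := ⟨_, rfl⟩
      obtain ⟨c, hcc⟩ : ∃ c, c = (pl (κ ω)).c := ⟨_, rfl⟩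
      obtain ⟨db, hdb⟩ : ∃ db, db = (pl (κ ω)).db := ⟨_, rfl⟩
      rw [← hs, ← hcc, ← hdb] at k1
      rw [← hs] at k2
      rw [← hs, ← hcc, ← hdb]
      have e1 : F.d ω (ς 2) - (-s * al ω - c) * F.d ω (ς 0) -
          (c * db (ς 0) + s * db (ς 1) + db (ς 2) - s * nu (Fam.pt F ω)) =
          (c * F.d ω (ς 0) + s * F.d ω (ς 1) + F.d ω (ς 2) -
            (c * db (ς 0) + s * db (ς 1) + db (ς 2))) -
          s * (F.d ω (ς 1) - al ω * F.d ω (ς 0) - nu (Fam.pt F ω)) := by ring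
      rw [e1]
      refine (abs_sub _ _).trans ?_
      rw [abs_mul]
      have k3 : |s| * |F.d ω (ς 1) - al ω * F.d ω (ς 0) - nu (Fam.pt F ω)| ≤ 4 * (C / 2 ^ L) :=
        mul_le_mul k2 i2 (abs_nonneg _) (by norm_num)
      linarith
  · -- bounds
    intro ω hω i j
    have i1 := h.inc ω hω
    have i3 := h.sl ω hω
    have b1 := h.aw_bd hω
    unfold zw
    rw [← i3]
    refine tfr_le ς (by linarith : (0 : ℝ) ≤ C + 4) (by linarith) ?_ ?_ i j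
    · rw [abs_neg]
      have := i1.s_le
      linarith
    · rw [abs_neg]
      have := i1.c_le
      linarith
  · -- annihilation
    intro ω hω i
    have i3 := h.sl ω hω
    have i4 := h.apt ω hω
    have i5 := h.pt ω hω
    fin_cases i
    · have e1 := Box.mco_tfr0 ς (aw F w₁ E ζ ω) (-(pl (ψ (slam F w₀ ω))).s)
        (-(pl (ψ (slam F w₀ ω))).c) (f (Fam.pt F ω))
      have e2 : ∑ j, zw F ς w₀ w₁ E pl ψ ζ ω 0 j * f (Fam.pt F ω) j = f (Fam.pt F ω) (ς 0) := e1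
      change |∑ j, zw F ς w₀ w₁ E pl ψ ζ ω 0 j * f (Fam.pt F ω) j| ≤ 2 / 2 ^ 0
      rw [e2, f0]
      norm_num
    · have e1 := Box.mco_tfr1 ς (aw F w₁ E ζ ω) (-(pl (ψ (slam F w₀ ω))).s)
        (-(pl (ψ (slam F w₀ ω))).c) (f (Fam.pt F ω))
      have e2 : ∑ j, zw F ς w₀ w₁ E pl ψ ζ ω 1 j * f (Fam.pt F ω) j =
        f (Fam.pt F ω) (ς 1) - aw F w₁ E ζ ω * f (Fam.pt F ω) (ς 0) := e1
      change |∑ j, zw F ς w₀ w₁ E pl ψ ζ ω 1 j * f (Fam.pt F ω) j| ≤ 2 / 2 ^ (P - w)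
      rw [e2, f0, f1, mul_one, ← i4]
      refine (h.aw_near hω).trans ?_
      exact div_le_div_of_nonneg_left (by norm_num) pPw
        (pow_le_pow_right₀ (by norm_num) (by omega))
    · have e1 := Box.mco_tfr2 ς (aw F w₁ E ζ ω) (-(pl (ψ (slam F w₀ ω))).s)
        (-(pl (ψ (slam F w₀ ω))).c) (f (Fam.pt F ω))
      have e2 : ∑ j, zw F ς w₀ w₁ E pl ψ ζ ω 2 j * f (Fam.pt F ω) j =
        f (Fam.pt F ω) (ς 2) - -(pl (ψ (slam F w₀ ω))).s * f (Fam.pt F ω) (ς 1) -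
          -(pl (ψ (slam F w₀ ω))).c * f (Fam.pt F ω) (ς 0) := e1
      change |∑ j, zw F ς w₀ w₁ E pl ψ ζ ω 2 j * f (Fam.pt F ω) j| ≤ 2 / 2 ^ (P - w)
      rw [e2, f0, f1, f2, ← i3, ← i5]
      have e3 : -(pl (κ ω)).s * fa (Fam.pt F ω) - (pl (κ ω)).c -
          -(pl (κ ω)).s * fa (Fam.pt F ω) - -(pl (κ ω)).c * 1 = 0 := by ring
      rw [e3, abs_zero]
      positivity
  · -- a function of the window
    intro ω ω' _ _ hw
    obtain ⟨e1, e2⟩ := hψ ω ω' hw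
    change (zw F ς w₀ w₁ E pl ψ ζ ω, ψ (slam F w₀ ω)) =
      (zw F ς w₀ w₁ E pl ψ ζ ω', ψ (slam F w₀ ω'))
    unfold zw aw
    rw [e1, e2]
  · -- visible
    intro B' hB' hB0
    have hl := isLaw_cond F.isLaw hB0
    have hA : ∀ ω, 0 < Pool.Agent.H49.Ent.cond F.p B' True ω → B ω := by
      intro ω hω
      have := ((cond_pos_iff F.isLaw.nonneg B' True ω).1 hω).2
      exact hB' ω (by simpa using this)
    have pE : (0 : ℝ) < 2 ^ E := by positivity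
    have k1 : CH (Pool.Agent.H49.Ent.cond F.p B' True) (fun ω => ⌊(2 : ℝ) ^ E * ζ (slam F w₁ ω)⌋)
        (Pool.K2S.ptq F (ς 0) 0) ≤ Real.log (2 * 5 + 1) := by
      refine CH_int hl _ _ (c := 5) fun ω ω' p1 p2 e => ?_
      have e1 : Fam.pt F ω = Fam.pt F ω' := (Prod.ext_iff.mp e).1
      have a1 := h.aw_near (hA ω p1)
      have a2 := h.aw_near (hA ω' p2)
      rw [h.apt ω (hA ω p1)] at a1
      rw [h.apt ω' (hA ω' p2), ← e1] at a2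
      have a3 : |aw F w₁ E ζ ω - aw F w₁ E ζ ω'| ≤ 4 / 2 ^ E := by
        have e2 : aw F w₁ E ζ ω - aw F w₁ E ζ ω' = (fa (Fam.pt F ω) - aw F w₁ E ζ ω') -
            (fa (Fam.pt F ω) - aw F w₁ E ζ ω) := by ring
        rw [e2]
        refine (abs_sub _ _).trans ((add_le_add a2 a1).trans (le_of_eq ?_))
        ring
      unfold aw Bct.rd at a3
      rw [← sub_div, abs_div, abs_of_pos pE, div_le_div_iff_of_pos_right pE] at a3
      push_cast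
      linarith
    refine le_trans (CH_mono_left hl.nonneg fun ω ω' p1 p2 e => ?_) k1
    have e0 := Prod.ext_iff.mp e
    have e1 : Fam.pt F ω = Fam.pt F ω' := (Prod.ext_iff.mp e0.2).1
    have e2 : ⌊(2 : ℝ) ^ E * ζ (slam F w₁ ω)⌋ = ⌊(2 : ℝ) ^ E * ζ (slam F w₁ ω')⌋ := e0.1
    have e3 : ψ (slam F w₀ ω) = ψ (slam F w₀ ω') := by
      rw [← h.sl ω (hA ω p1), ← h.sl ω' (hA ω' p2), h.pt ω (hA ω p1), h.pt ω' (hA ω' p2), e1]
    change (zw F ς w₀ w₁ E pl ψ ζ ω, ψ (slam F w₀ ω)) =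
      (zw F ς w₀ w₁ E pl ψ ζ ω', ψ (slam F w₀ ω'))
    unfold zw aw Bct.rd
    rw [e2, e3]

end Data

end Pool.S6C.Uvc
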