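import Pool.Agent.H80.S6C.UvcA

/-!
# The condition of the row, given the label
-/

set_option autoImplicit false

namespace Pool.S6C.Uvc

open Finset Real
open Pool.Agent.H49.Ent Pool.Agent.H32.Dense Pool.STK Pool.KA Pool.KSAT Pool.K2S Pool.PB Pool.KS6
open Pool.S6K.Wfe Pool.K3 Pool.S6U Bct

variable {J : ℕ}

/-- The condition of the rows: the static box in the own frame, the digits of the own slope, the
side label, the exact time. -/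
noncomputable def cnd (F : Fam 3 J) (ς : Fin 3 → Fin 3) (w P D : ℕ) {Λ : Type} (κ : F.Ω → Λ)
    (pl : Λ → Pln) (al : F.Ω → ℝ) (ω : F.Ω) :
    ((ℝ × ℝ × ℝ) × (Fin 3 → ℤ)) × (ℤ × (Λ × (ℕ × F.ζ))) :=
  (F.sbx ς w P P (ald D al) (fun ω => -(pl (κ ω)).s) (fun ω => -(pl (κ ω)).c) ω,
    (Uni.dg D al ω, (κ ω, F.W ω)))

/-- The label with its positions at the time of the sample. -/
noncomputable def lw (F : Fam 3 J) (ς : Fin 3 → Fin 3) (w w₀ w₁ P E : ℕ) {Λ : Type} (pl : Λ → Pln)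
    (ψ : ((Fin 3 → ℝ) × (Fin 3 → ℝ)) × F.ζ × ℕ → Λ)
    (ζ : ((Fin 3 → ℝ) × (Fin 3 → ℝ)) × F.ζ × ℕ → ℝ) (ω : F.Ω) :=
  ((⌊(2 : ℝ) ^ (0 + w) * F.x ω (ς 0)⌋, labt F w ![w, P, P] ![0, P - w, P - w]
    (zw F ς w₀ w₁ E pl ψ ζ) (fun ω => ψ (slam F w₀ ω)) ω), (⌊(2 : ℝ) ^ 0 * F.d ω (ς 0)⌋, F.T ω))

section Data

variable {F : Fam 3 J} {B : F.Ω → Prop} {ς : Fin 3 → Fin 3} {w₀ w₁ lam T L E : ℕ} {C : ℝ}
  {Λ : Type} {κ : F.Ω → Λ} {pl : Λ → Pln} {al : F.Ω → ℝ}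
  {φ : (Fin 3 → ℤ) × (ℕ × F.ζ) → Λ} {ψ : ((Fin 3 → ℝ) × (Fin 3 → ℝ)) × F.ζ × ℕ → Λ}
  {fa nu : (Fin 3 → ℤ) × (ℕ × F.ζ) → ℝ} {ζ : ((Fin 3 → ℝ) × (Fin 3 → ℝ)) × F.ζ × ℕ → ℝ}

/-- What the label contains. -/
theorem lw_ext (hς : Function.Injective ς) {w P : ℕ} {ω ω' : F.Ω}
    (h : lw F ς w w₀ w₁ P E pl ψ ζ ω = lw F ς w w₀ w₁ P E pl ψ ζ ω') :
    aw F w₁ E ζ ω = aw F w₁ E ζ ω' ∧ ψ (slam F w₀ ω) = ψ (slam F w₀ ω') ∧ F.W ω = F.W ω' ∧
      F.sbx ς w P P (aw F w₁ E ζ) (fun ω => -(pl (ψ (slam F w₀ ω))).s)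
        (fun ω => -(pl (ψ (slam F w₀ ω))).c) ω =
      F.sbx ς w P P (aw F w₁ E ζ) (fun ω => -(pl (ψ (slam F w₀ ω))).s)
        (fun ω => -(pl (ψ (slam F w₀ ω))).c) ω' := by
  have n10 : ς 1 ≠ ς 0 := fun e => absurd (hς e) (by decide)
  have a1 := Prod.ext_iff.mp h
  have a2 := Prod.ext_iff.mp a1.1
  have a3 := Prod.ext_iff.mp a1.2
  have a4 := Prod.ext_iff.mp a2.2
  have a5 := Prod.ext_iff.mp a4.1
  have a6 := Prod.ext_iff.mp a5.1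
  have a7 := Prod.ext_iff.mp a6.2
  have a8 := Prod.ext_iff.mp a5.2
  have hx : ⌊(2 : ℝ) ^ (0 + w) * F.x ω (ς 0)⌋ = ⌊(2 : ℝ) ^ (0 + w) * F.x ω' (ς 0)⌋ := a2.1
  have hz : zw F ς w₀ w₁ E pl ψ ζ ω = zw F ς w₀ w₁ E pl ψ ζ ω' := a7.1
  have hs : ψ (slam F w₀ ω) = ψ (slam F w₀ ω') := a7.2
  have hT : F.T ω = F.T ω' := a3.2
  have hZ : F.Z ω = F.Z ω' := a4.2
  have ha : aw F w₁ E ζ ω = aw F w₁ E ζ ω' := by
    have h1 := congrFun (congrFun hz 1) (ς 0)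
    have h2 : ∀ a s t : ℝ, tfr ς a s t 1 (ς 0) = -a := by
      intro a s t
      change (if ς 0 = ς 1 then (1 : ℝ) else 0) - a * (if ς 0 = ς 0 then 1 else 0) = -a
      rw [if_neg (Ne.symm n10), if_pos rfl]
      ring
    unfold zw at h1
    rw [h2, h2] at h1
    linarith
  refine ⟨ha, hs, Prod.ext hT hZ, ?_⟩
  have p1 : ⌊(2 : ℝ) ^ P * ∑ j, zw F ς w₀ w₁ E pl ψ ζ ω 1 j * F.x ω j⌋ =
      ⌊(2 : ℝ) ^ P * ∑ j, zw F ς w₀ w₁ E pl ψ ζ ω' 1 j * F.x ω' j⌋ := congrFun a8.1 1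
  have p2 : ⌊(2 : ℝ) ^ P * ∑ j, zw F ς w₀ w₁ E pl ψ ζ ω 2 j * F.x ω j⌋ =
      ⌊(2 : ℝ) ^ P * ∑ j, zw F ς w₀ w₁ E pl ψ ζ ω' 2 j * F.x ω' j⌋ := congrFun a8.1 2
  rw [Vd.sbx_ext]
  refine ⟨⟨ha, ?_, ?_⟩, ?_, ?_, ?_⟩
  · rw [hs]
  · rw [hs]
  · have e1 : ∀ o, Vd.co F ς (aw F w₁ E ζ) (fun ω => -(pl (ψ (slam F w₀ ω))).s)
        (fun ω => -(pl (ψ (slam F w₀ ω))).c) 0 o = F.x o (ς 0) := fun o => Box.mco_tfr0 _ _ _ _ _
    rw [e1, e1]
    rwa [Nat.zero_add] at hx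
  · exact p1
  · exact p2

/-- **The entropy of the condition given the label.** -/
theorem Dat.CH_cnd (h : Dat F B ς w₀ w₁ lam T L E C κ pl al φ ψ fa nu ζ)
    (hς : Function.Injective ς) {w P D : ℕ} (hE : P ≤ w + E) (hED : E ≤ D) {p : F.Ω → ℝ}
    (hp : IsLaw p) (hpB : ∀ ω, 0 < p ω → B ω) :
    CH p (cnd F ς w P D κ pl al) (lw F ς w w₀ w₁ P E pl ψ ζ) ≤
      ((D : ℝ) - E) * Real.log 2 + (Real.log 11 + 3 * Real.log 21) := by
  have h0 := hp.nonneg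
  have pE : (0 : ℝ) < 2 ^ E := by positivity
  have pD : (0 : ℝ) < 2 ^ D := by positivity
  have pDE : (1 : ℝ) ≤ 2 ^ (D - E) := one_le_pow₀ (by norm_num)
  have eDE : (2 : ℝ) ^ D = 2 ^ (D - E) * 2 ^ E := by
    rw [← pow_add]
    congr 1
    omega
  obtain ⟨W, hW⟩ : ∃ W : F.Ω → _, W = lw F ς w w₀ w₁ P E pl ψ ζ := ⟨_, rfl⟩
  have hWe : ∀ ω ω', W ω = W ω' → _ := fun ω ω' e => lw_ext (F := F) (ς := ς) (w₀ := w₀)
    (w₁ := w₁) (P := P) (E := E) (pl := pl) (ψ := ψ) (ζ := ζ) hς (w := w) (ω := ω) (ω' := ω')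
    (by rw [hW] at e; exact e)
  rw [← hW]
  -- the digits of the own slope
  have k1 : CH p (Uni.dg D al) W ≤ ((D : ℝ) - E) * Real.log 2 + Real.log 11 := by
    have k2 := CH_int hp (Uni.dg D al) W (c := 5 * 2 ^ (D - E)) (by
      intro ω ω' q1 q2 e
      obtain ⟨e1, -⟩ := hWe ω ω' e
      have a1 := h.aw_near (hpB ω q1)
      have a2 := h.aw_near (hpB ω' q2)
      rw [← e1] at a2
      have a3 : |al ω - al ω'| ≤ 4 / 2 ^ E := by
        have e2 : al ω - al ω' = (al ω - aw F w₁ E ζ ω) - (al ω' - aw F w₁ E ζ ω) := by ring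
        rw [e2]
        refine (abs_sub _ _).trans ((add_le_add a1 a2).trans (le_of_eq ?_))
        ring
      have a4 : |(2 : ℝ) ^ D * al ω - 2 ^ D * al ω'| ≤ 4 * 2 ^ (D - E) := by
        rw [← mul_sub, abs_mul, abs_of_pos pD]
        calc (2 : ℝ) ^ D * |al ω - al ω'| ≤ 2 ^ D * (4 / 2 ^ E) :=
              mul_le_mul_of_nonneg_left a3 pD.le
          _ = 4 * 2 ^ (D - E) := by
              rw [eDE]
              field_simp
      have a5 := Pool.S6K.Wfe.floor_diff a4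
      refine le_trans ?_ (by linarith : 4 * (2 : ℝ) ^ (D - E) + 1 ≤ 5 * 2 ^ (D - E))
      exact a5)
    refine k2.trans ?_
    have k3 : 2 * (5 * (2 : ℝ) ^ (D - E)) + 1 ≤ 11 * 2 ^ (D - E) := by linarith
    refine (Real.log_le_log (by positivity) k3).trans (le_of_eq ?_)
    rw [Real.log_mul (by norm_num) (by positivity), Real.log_pow, Nat.cast_sub hED]
    ring
  -- the static box
  have k2 : CH p (F.sbx ς w P P (ald D al) (fun ω => -(pl (κ ω)).s) (fun ω => -(pl (κ ω)).c))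
      (fun ω => (Uni.dg D al ω, W ω)) ≤ (3 : ℕ) * Real.log (6 * 3 + 3) := by
    refine Vd.CH_sbx_chg (σ := ς) (a := aw F w₁ E ζ) (s := fun ω => -(pl (ψ (slam F w₀ ω))).s)
      (t := fun ω => -(pl (ψ (slam F w₀ ω))).c) hp (by norm_num) (le_refl w) (le_refl P)
      (le_refl P) ?_ _ ?_ ?_
    · intro ω q1
      have i1 := h.sl ω (hpB ω q1)
      have a1 := h.aw_near (hpB ω q1)
      have a2 := rd_le D (al ω)
      have a3 : ald D al ω = Bct.rd D (al ω) := rfl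
      have a4 : |ald D al ω - aw F w₁ E ζ ω| ≤ 3 / 2 ^ E := by
        rw [a3]
        have e2 : Bct.rd D (al ω) - aw F w₁ E ζ ω = (al ω - aw F w₁ E ζ ω) -
            (al ω - Bct.rd D (al ω)) := by ring
        rw [e2]
        have k5 : (1 : ℝ) / 2 ^ D ≤ 1 / 2 ^ E := inv_mono hED
        have k6 : (3 : ℝ) / 2 ^ E = 2 / 2 ^ E + 1 / 2 ^ E := by ring
        rw [k6]
        exact (abs_sub _ _).trans (add_le_add a1 (a2.trans k5))
      refine ⟨?_, ?_, ?_⟩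
      · refine a4.trans ?_
        rw [div_le_div_iff₀ pE (by positivity)]
        have k7 : (2 : ℝ) ^ P ≤ 2 ^ w * 2 ^ E := by
          rw [← pow_add]
          exact pow_le_pow_right₀ (by norm_num) hE
        nlinarith
      · rw [i1, sub_self, abs_zero]
        positivity
      · rw [i1, sub_self, sub_self, zero_mul, add_zero, abs_zero]
        positivity
    · intro ω ω' _ _ e
      exact (hWe ω ω' (Prod.ext_iff.mp e).2).2.2.2
    · intro ω ω' q1 q2 e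
      have e1 := Prod.ext_iff.mp e
      have e2 : Uni.dg D al ω = Uni.dg D al ω' := e1.1
      have e3 := (hWe ω ω' e1.2).2.1
      have e4 : κ ω = κ ω' := by
        rw [h.sl ω (hpB ω q1), h.sl ω' (hpB ω' q2), e3]
      have e5 : ald D al ω = ald D al ω' := by
        unfold ald
        rw [e2]
      change (ald D al ω, -(pl (κ ω)).s, -(pl (κ ω)).c) =
        (ald D al ω', -(pl (κ ω')).s, -(pl (κ ω')).c)
      rw [e4, e5]
  have k3 := CH_le_add h0 (cnd F ς w P D κ pl al) (Uni.dg D al) W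
  have k4 : CH p (cnd F ς w P D κ pl al) (fun ω => (Uni.dg D al ω, W ω)) ≤
      CH p (F.sbx ς w P P (ald D al) (fun ω => -(pl (κ ω)).s) (fun ω => -(pl (κ ω)).c))
      (fun ω => (Uni.dg D al ω, W ω)) := by
    refine CH_mono_left h0 fun ω ω' q1 q2 e => ?_
    have e0 := Prod.ext_iff.mp e
    have e1 := Prod.ext_iff.mp e0.2
    have e3 := hWe ω ω' e1.2
    have e4 : κ ω = κ ω' := by
      rw [h.sl ω (hpB ω q1), h.sl ω' (hpB ω' q2), e3.2.1]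
    exact Prod.ext e0.1 (Prod.ext e1.1 (Prod.ext e4 e3.2.2.1))
  have k5 : ((3 : ℕ) : ℝ) * Real.log (6 * 3 + 3) = 3 * Real.log 21 := by norm_num
  rw [k5] at k2
  linarith

/-- **The row**, from the row given the label. -/
theorem Dat.row (h : Dat F B ς w₀ w₁ lam T L E C κ pl al φ ψ fa nu ζ)
    (hς : Function.Injective ς) {w P D : ℕ} (hE : P ≤ w + E) (hED : E ≤ D) {p : F.Ω → ℝ}
    (hp : IsLaw p) (hpB : ∀ ω, 0 < p ω → B ω) {T : Type} (X : F.Ω → T) :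
    CH p X (lw F ς w w₀ w₁ P E pl ψ ζ) -
      (((D : ℝ) - E) * Real.log 2 + (Real.log 11 + 3 * Real.log 21)) ≤
      CH p X (cnd F ς w P D κ pl al) := by
  have h0 := hp.nonneg
  have k1 := h.CH_cnd hς hE hED hp hpB
  have k2 := CH_le_add h0 X (cnd F ς w P D κ pl al) (lw F ς w w₀ w₁ P E pl ψ ζ)
  have k3 : CH p X (fun ω => (cnd F ς w P D κ pl al ω, lw F ς w w₀ w₁ P E pl ψ ζ ω)) ≤
      CH p X (cnd F ς w P D κ pl al) := CH_mono_cond h0 fun ω ω' _ _ e => (Prod.ext_iff.mp e).1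
  linarith

end Data

end Pool.S6C.Uvc
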