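import Pool.Agent.H51.S6.Uv2
import Pool.Agent.H33.S6.NatDef
import Pool.Agent.H23.S6E.Vdf2
import Pool.Agent.H80.S6C.Uvc

/-!
# (UVS) The strong form of the U-step

Comparison of the deficits of two natural boxes, and the rows beyond the natural box of a window
`v` with base velocity `0`.
-/

set_option autoImplicit false

namespace Pool.S6V

open Finset Real
open Pool.Agent.H49.Ent Pool.Agent.H32.Dense Pool.STK Pool.KA Pool.KSAT Pool.K2S Pool.PB Pool.KS6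
  Pool.S6C Pool.S6U

/-- The level of the second coordinate is not smaller. -/
theorem lr_le_lu (ρ : Row) (p q k : ℝ) (x : ℚ) (J : ℕ) : lr p q x J ≤ lu ρ p q k x J := by
  unfold lr lu
  exact min_le_min (by omega) le_rfl

/-- **A coarser box**: the deficit grows at most by the number of the digits in between. -/
theorem vd_coarse {J : ℕ} {F : Fam 3 J} {A : F.Ω → Prop} (hA : 0 < Pe F.p A) {ς : Fin 3 → Fin 3}
    {ρ : Row} {p q q' k : ℝ} {Λ : Type} {κ : F.Ω → Λ} {pl : Λ → Pln} {al : F.Ω → ℝ}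
    {x x' : ℚ} {B : ℝ} (hB : 1 ≤ B) (hal : ∀ ω, A ω → |al ω| + 1 ≤ B)
    (hs : ∀ ω, A ω → |(pl (κ ω)).s| ≤ B) (hc : ∀ ω, A ω → |(pl (κ ω)).c| ≤ B)
    (h1 : lr p q x J ≤ lr p q' x' J) (h2 : lu ρ p q k x J ≤ lu ρ p q' k x' J)
    (h3 : ld ρ p q k x J ≤ ld ρ p q' k x' J) :
    Vd F A ς ρ p q k κ pl al x ≤ (((lr p q' x' J : ℝ) - lr p q x J) +
      ((lu ρ p q' k x' J : ℝ) - lu ρ p q k x J)) * Real.log 2 + Vd F A ς ρ p q' k κ pl al x' +
      ((3 : ℕ) * Real.log (6 * B + 3) + (3 : ℕ) * Real.log (6 * 2 + 3)) := by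
  have hl := isLaw_cond F.isLaw hA
  have hin : ∀ ω, 0 < Pool.Agent.H49.Ent.cond F.p A True ω → A ω := fun ω hω =>
    of_eq_true (by
      have := ((cond_pos_iff F.isLaw.nonneg A True ω).1 hω).2
      exact this)
  have hlr := lr_le_lu ρ p q k x J
  obtain ⟨D, hD⟩ : ∃ D, D = ld ρ p q k x J := ⟨_, rfl⟩
  obtain ⟨D', hD'⟩ : ∃ D', D' = ld ρ p q' k x' J := ⟨_, rfl⟩
  have hDe : lr p q x J + D = lu ρ p q k x J := by
    rw [hD]
    unfold ld
    omega
  have pD : (0 : ℝ) < 2 ^ D := by positivity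
  rw [← hD, ← hD'] at h3
  have key := Pool.KA.Vd.vdf_step (F := F) (p := Pool.Agent.H49.Ent.cond F.p A True) (σ := ς)
    (r := lr p q x J) (U := lu ρ p q k x J) (N := ⌊p * J⌋₊) (r' := lr p q' x' J)
    (U' := lu ρ p q' k x' J) (B := B) (D := 2)
    (a := ald D al) (s := fun ω => -(pl (κ ω)).s) (t := fun ω => -(pl (κ ω)).c)
    (a' := ald D' al) (s' := fun ω => -(pl (κ ω)).s) (t' := fun ω => -(pl (κ ω)).c)
    hl hB (by norm_num) h1 h2 (min_le_right _ _) (min_le_right _ _)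
    (by
      intro ω hω
      have hAω := hin ω hω
      refine ⟨?_, ?_, ?_⟩
      · have a1 := Pool.S6C.Bct.rd_le D' (al ω)
        have a2 : ald D' al ω = Pool.S6C.Bct.rd D' (al ω) := rfl
        have a3 := Pool.S6C.Bct.inv_le_one D'
        rw [a2]
        have a4 := abs_sub_abs_le_abs_sub (Pool.S6C.Bct.rd D' (al ω)) (al ω)
        rw [abs_sub_comm] at a4
        have a5 := hal ω hAω
        linarith
      · rw [abs_neg]
        exact hs ω hAω
      · rw [abs_neg]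
        exact hc ω hAω)
    (by
      intro ω hω
      have a1 := Bct.rd_le D (al ω)
      have a2 := Bct.rd_le D' (al ω)
      have a3 : ald D al ω = Bct.rd D (al ω) := rfl
      have a4 : ald D' al ω = Bct.rd D' (al ω) := rfl
      refine ⟨?_, ?_, ?_⟩
      · rw [a3, a4]
        have e2 : Bct.rd D (al ω) - Bct.rd D' (al ω) = (al ω - Bct.rd D' (al ω)) -
            (al ω - Bct.rd D (al ω)) := by ring
        rw [e2]
        have k5 : (1 : ℝ) / 2 ^ D' ≤ 1 / 2 ^ D := inv_mono h3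
        have k6 : |(al ω - Bct.rd D' (al ω)) - (al ω - Bct.rd D (al ω))| ≤ 2 / 2 ^ D := by
          have k7 : (2 : ℝ) / 2 ^ D = 1 / 2 ^ D + 1 / 2 ^ D := by ring
          rw [k7]
          exact (abs_sub _ _).trans (add_le_add (a2.trans k5) a1)
        refine k6.trans ?_
        rw [div_le_div_iff₀ pD (by positivity)]
        have k8 : (2 : ℝ) ^ lu ρ p q k x J ≤ 2 ^ lr p q' x' J * 2 ^ D := by
          rw [← pow_add]
          exact pow_le_pow_right₀ (by norm_num) (by omega)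
        nlinarith
      · rw [sub_self, abs_zero]
        positivity
      · rw [sub_self, sub_self, zero_mul, add_zero, abs_zero]
        positivity)
    (fun ω => (Uni.dg D al ω, (κ ω, F.W ω))) (fun ω => (Uni.dg D' al ω, (κ ω, F.W ω)))
    (by
      intro ω ω' _ _ e
      have e1 := Prod.ext_iff.mp e
      exact Prod.ext (Vd.fl_lift h3 e1.1) e1.2)
    (by
      intro ω ω' _ _ e
      have e1 := Prod.ext_iff.mp e
      have e2 : κ ω = κ ω' := (Prod.ext_iff.mp e1.2).1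
      have e3 : Uni.dg D al ω = Uni.dg D al ω' := Vd.fl_lift h3 e1.1
      have e5 : ald D al ω = ald D al ω' := by
        unfold ald
        rw [e3]
      change (ald D al ω, -(pl (κ ω)).s, -(pl (κ ω)).c) =
        (ald D al ω', -(pl (κ ω')).s, -(pl (κ ω')).c)
      rw [e2, e5])
    (by
      intro ω ω' _ _ e
      have e1 := Prod.ext_iff.mp e
      have e2 : κ ω = κ ω' := (Prod.ext_iff.mp e1.2).1
      have e3 : Uni.dg D' al ω = Uni.dg D' al ω' := e1.1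
      have e5 : ald D' al ω = ald D' al ω' := by
        unfold ald
        rw [e3]
      change (ald D' al ω, -(pl (κ ω)).s, -(pl (κ ω)).c) =
        (ald D' al ω', -(pl (κ ω')).s, -(pl (κ ω')).c)
      rw [e2, e5])
  have hn := CH_nonneg hl.nonneg (F.sbx ς (lr p q' x' J) (lu ρ p q' k x' J) ⌊p * J⌋₊ (ald D' al)
    (fun ω => -(pl (κ ω)).s) (fun ω => -(pl (κ ω)).c))
    (fun ω => (F.sbx ς (lr p q x J) (lu ρ p q k x J) ⌊p * J⌋₊ (ald D al)
      (fun ω => -(pl (κ ω)).s) (fun ω => -(pl (κ ω)).c) ω, (Uni.dg D' al ω, (κ ω, F.W ω))))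
  unfold Vd
  rw [← hD, ← hD']
  linarith

/-- The deficit is at most the number of the digits. -/
theorem vd_le {J : ℕ} {F : Fam 3 J} {A : F.Ω → Prop} (hA : 0 < Pe F.p A) {ς : Fin 3 → Fin 3}
    {ρ : Row} {p q k : ℝ} {Λ : Type} {κ : F.Ω → Λ} {pl : Λ → Pln} {al : F.Ω → ℝ} {x : ℚ} :
    Vd F A ς ρ p q k κ pl al x ≤ (((⌊p * J⌋₊ : ℝ) - lr p q x J) +
      ((⌊p * J⌋₊ : ℝ) - lu ρ p q k x J)) * Real.log 2 := by
  have hl := isLaw_cond F.isLaw hA
  unfold Vd Fam.vdf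
  have := CH_nonneg hl.nonneg (F.X ⌊p * J⌋₊) (fun ω => (F.sbx ς (lr p q x J) (lu ρ p q k x J)
    ⌊p * J⌋₊ (ald (ld ρ p q k x J) al) (fun ω => -(pl (κ ω)).s) (fun ω => -(pl (κ ω)).c) ω,
    (Uni.dg (ld ρ p q k x J) al ω, (κ ω, F.W ω))))
  linarith

/-- **(UVS)** The strong form of the U-step, from the local statements. -/
theorem uvs_of (hA : UVLAStmt) (hB : UVLBStmt) (hCC : UVLCStmt) (hX : LXStmt) : UVSStmt := by
  classical
  intro S a R h₁ i₀ c s₂ r D σ hC act κ hact p hp0 hp1 w w' hw0 hww hw'1 hwp hrot hth h hh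
  have hR1 := hC.row 1 one_pos le_rfl hC.D1
  have hw0r : (0 : ℝ) < w := by exact_mod_cast hw0
  have hwwr : (w : ℝ) < w' := by exact_mod_cast hww
  have hw'1' : w' ≤ 1 := by
    have : (w' : ℝ) ≤ 1 := hw'1.le
    exact_mod_cast this
  have hw'0 : 0 ≤ w' := (hw0.trans hww).le
  have rot0 : ∀ x : ℚ, 0 ≤ x → x ≤ 1 → 0 ≤ (σ 1).rot x := fun x h0 h1 =>
    num_nonneg hC.ne (hR1.rot x h0 h1)
  have rot1 : ∀ x : ℚ, 0 ≤ x → x ≤ 1 → (σ 1).rot x ≤ 1 := fun x h0 h1 =>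
    num_le_cap hC.ne zero_le_one (hR1.rot x h0 h1)
  obtain ⟨δ, hδ⟩ : ∃ δ, δ = min (h / 200) (p - (w' + (σ 1).rot w')) := ⟨_, rfl⟩
  have hδ0 : 0 < δ := by
    rw [hδ]
    exact lt_min (by positivity) (by linarith)
  have hδh : δ ≤ h / 200 := by rw [hδ]; exact min_le_left _ _
  have hδp : δ ≤ p - (w' + (σ 1).rot w') := by rw [hδ]; exact min_le_right _ _
  obtain ⟨v, β, hwv, hvβ, hβw, hd1, hd2⟩ := pick_flat (f := (σ 1).rot) hww
    (fun x h1 h2 => rot0 x (hw0.trans h1).le (h2.le.trans hw'1'))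
    (fun x h1 h2 => rot1 x (hw0.trans h1).le (h2.le.trans hw'1')) hδ0
  have hv0 : 0 < v := hw0.trans hwv
  have hvw : v < w' := hvβ.trans hβw
  have hvwr : (v : ℝ) < w' := by exact_mod_cast hvw
  have hvβr : (v : ℝ) < β := by exact_mod_cast hvβ
  have hβwr : (β : ℝ) < w' := by exact_mod_cast hβw
  have hv0r : (0 : ℝ) < v := by exact_mod_cast hv0
  have hβ0 : 0 ≤ β := (hv0.trans hvβ).le
  have hβ1 : β ≤ 1 := hβw.le.trans hw'1'
  have hv1 : v ≤ 1 := hvw.le.trans hw'1'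
  have hrv := rot_window hC.ne hR1 hv0.le hvβ.le hβ1
  have hrβ := rot_window hC.ne hR1 hβ0 hβw.le hw'1'
  have hrw0 := rot0 w' hw'0 hw'1'
  have hrv0 := rot0 v hv0.le hv1
  have hrβ0 := rot0 β hβ0 hβ1
  have hthv := th_mono hC.ne hC.st le_rfl hR1 w v hw0.le hwv.le (by linarith)
  obtain ⟨e₀, he1, he2⟩ := exists_rat_btwn (show max (w' : ℝ) (p - δ) < p from
    max_lt (by linarith) (by linarith))
  have he3 : (w' : ℝ) < e₀ := (le_max_left _ _).trans_lt he1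
  have he4 : p - δ < e₀ := (le_max_right _ _).trans_lt he1
  have he0 : 0 ≤ e₀ := by
    have : (0 : ℝ) ≤ e₀ := by linarith
    exact_mod_cast this
  have he01 : e₀ ≤ 1 := by
    have : (e₀ : ℝ) ≤ 1 := by linarith
    exact_mod_cast this
  obtain ⟨q, hq0, hqδ, hqe, k₀, hk₀, hpath⟩ := uv_path hA hB hCC hX hC hact hp0 hp1 hv0
    (by linarith) (by linarith) hvβ hβw
    (by exact_mod_cast he3) he2 hwp hrot hδ0
  refine ⟨v, hwv, hvw, k₀, hk₀, fun k hk hkk C hC1 => ?_⟩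
  obtain ⟨B, hBd⟩ : ∃ B, B = C + 4 := ⟨_, rfl⟩
  have hB1 : 1 ≤ B := by linarith
  obtain ⟨E, hE⟩ : ∃ E : ℝ, E = (3 : ℕ) * Real.log (6 * B + 3) +
    (3 : ℕ) * Real.log (6 * 2 + 3) := ⟨_, rfl⟩
  have kpos : Clp S (fun J F A => 0 < Pe F.p A) :=
    Clp.base 1 one_pos 0 fun J _ F A hS => lt_of_lt_of_le (Real.exp_pos _) (hC.st _ _ _ _ hS).2.2.2
  obtain ⟨J₂, hJ₂⟩ := exists_nat_gt ((|E| + 10) / (h / 4))
  refine Clp.mono (J₂ := J₂) ((hpath k hk hkk C hC1).and kpos) ?_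
  rintro J hJ F A ⟨h1, hA0⟩ ς hς hς0 Λ κ pl al hP hN hO
  have hJr : (|E| + 10) / (h / 4) < J := hJ₂.trans_le (by exact_mod_cast hJ)
  rw [div_lt_iff₀ (by positivity)] at hJr
  have hJ0 : (0 : ℝ) ≤ J := Nat.cast_nonneg J
  have hE1 := le_abs_self E
  have hlog2 : 0 < Real.log 2 := Real.log_pos one_lt_two
  have hlog21 : Real.log 2 < 1 := by
    have := Real.log_two_lt_d9
    linarith
  have k1 := h1 ς hς hς0 Λ κ pl al hP hN hO
  -- the levels
  have hvp : (v : ℝ) * J ≤ p * J := mul_le_mul_of_nonneg_right (by linarith) hJ0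
  have lvr : lr p 0 v J = ⌊(v : ℝ) * J⌋₊ := by
    unfold lr
    rw [zero_mul, Nat.floor_zero, add_zero]
    exact min_eq_left (Nat.floor_le_floor hvp)
  have fq0 : ⌊(0 : ℝ) * J⌋₊ = 0 := by rw [zero_mul, Nat.floor_zero]
  have fβ : ∀ x : ℚ, 0 ≤ x → ∀ q' : ℝ, 0 ≤ q' → (x : ℝ) + (σ 1).rot x + q' ≤ p → x ≤ 1 →
      lr p q' x J = ⌊(x : ℝ) * J⌋₊ + ⌊q' * J⌋₊ ∧
      lu (σ 1) p q' k x J = ⌊(x : ℝ) * J⌋₊ + ⌊((σ 1).rot x - k) * J⌋₊ + ⌊q' * J⌋₊ ∧
      ld (σ 1) p q' k x J = ⌊((σ 1).rot x - k) * J⌋₊ := by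
    intro x hx q' hq' hxp hx1
    have hx' : (0 : ℝ) ≤ x := by exact_mod_cast hx
    have g1 : (⌊(x : ℝ) * J⌋₊ : ℝ) ≤ x * J := Nat.floor_le (by positivity)
    have g2 : (⌊q' * J⌋₊ : ℝ) ≤ q' * J := Nat.floor_le (by positivity)
    have g3 : (⌊((σ 1).rot x - k) * J⌋₊ : ℝ) ≤ (σ 1).rot x * J := by
      have h1 : ((σ 1).rot x - k) * J ≤ (σ 1).rot x * J :=
        mul_le_mul_of_nonneg_right (by linarith) hJ0
      exact (Nat.cast_le.2 (Nat.floor_le_floor h1)).trans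
        (Nat.floor_le (mul_nonneg (rot0 x hx hx1) hJ0))
    have g4 : (x + (σ 1).rot x + q') * J ≤ p * J := mul_le_mul_of_nonneg_right hxp hJ0
    have g5 : ⌊(x : ℝ) * J⌋₊ + ⌊((σ 1).rot x - k) * J⌋₊ + ⌊q' * J⌋₊ ≤ ⌊p * J⌋₊ := by
      refine Nat.le_floor ?_
      push_cast
      linarith
    have l1 : lr p q' x J = ⌊(x : ℝ) * J⌋₊ + ⌊q' * J⌋₊ := by
      unfold lr
      exact min_eq_left (by omega)
    have l2 : lu (σ 1) p q' k x J =
        ⌊(x : ℝ) * J⌋₊ + ⌊((σ 1).rot x - k) * J⌋₊ + ⌊q' * J⌋₊ := by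
      unfold lu
      exact min_eq_left g5
    refine ⟨l1, l2, ?_⟩
    unfold ld
    rw [l1, l2]
    omega
  obtain ⟨v1, v2, v3⟩ := fβ v hv0.le 0 le_rfl (by linarith) hv1
  obtain ⟨b1, b2, b3⟩ := fβ β hβ0 q hq0.le (by linarith) hβ1
  have f1 : ⌊(v : ℝ) * J⌋₊ ≤ ⌊(β : ℝ) * J⌋₊ :=
    Nat.floor_le_floor (mul_le_mul_of_nonneg_right hvβr.le hJ0)
  have f2 : ⌊((σ 1).rot v - k) * J⌋₊ ≤ ⌊((σ 1).rot β - k) * J⌋₊ :=
    Nat.floor_le_floor (mul_le_mul_of_nonneg_right (by linarith) hJ0)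
  have k2 := vd_coarse (ς := ς) (ρ := σ 1) (p := p) (q := 0) (q' := q) (k := k) (κ := κ)
    (pl := pl) (al := al) (x := v) (x' := β) hA0 hB1
    (fun ω hω => by
      have := hO.bd ω hω
      linarith)
    (fun ω hω => by
      have := (hP.inc ω hω).s_le
      linarith)
    (fun ω hω => by
      have := (hP.inc ω hω).c_le
      linarith)
    (by rw [v1, b1, fq0]; omega) (by rw [v2, b2, fq0]; omega) (by rw [v3, b3]; exact f2)
  have k3 := vd_le (ς := ς) (ρ := σ 1) (p := p) (q := q) (k := k) (κ := κ) (pl := pl) (al := al)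
    (x := e₀) hA0
  -- the number of the digits
  have hpJ : (⌊p * J⌋₊ : ℝ) ≤ p * J := Nat.floor_le (by positivity)
  have l2 := lv_bd (σ 1) (k := k) he0 hq0.le (rot0 e₀ he0 he01) hk.le he2.le J
  have m1 : (((⌊p * J⌋₊ : ℝ) - lr p q e₀ J) + ((⌊p * J⌋₊ : ℝ) - lu (σ 1) p q k e₀ J)) ≤
      2 * δ * J + 2 := by
    have e1 : p * J ≤ (e₀ + δ) * J := mul_le_mul_of_nonneg_right (by linarith) hJ0
    have e2 : (e₀ + δ) * J = e₀ * J + δ * J := by ring
    linarith [l2.2.2.1, l2.2.2.2]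
  have g1 : (⌊(β : ℝ) * J⌋₊ : ℝ) ≤ β * J := Nat.floor_le (by positivity)
  have g2 : (⌊q * J⌋₊ : ℝ) ≤ q * J := Nat.floor_le (by positivity)
  have g3 := Nat.lt_floor_add_one ((v : ℝ) * J)
  have g4 : ((⌊((σ 1).rot β - k) * J⌋₊ : ℝ)) - ⌊((σ 1).rot v - k) * J⌋₊ ≤ δ * J + 1 := by
    have g5 := Nat.lt_floor_add_one (((σ 1).rot v - k) * J)
    have g6 : ((σ 1).rot β - k) * J ≤ ((σ 1).rot v - k) * J + δ * J := by
      have : ((σ 1).rot v - k) * J + δ * J = ((σ 1).rot v - k + δ) * J := by ring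
      rw [this]
      exact mul_le_mul_of_nonneg_right (by linarith) hJ0
    rcases le_or_gt 0 (((σ 1).rot β - k) * J) with g7 | g7
    · have g8 := Nat.floor_le g7
      linarith
    · have g8 : ⌊((σ 1).rot β - k) * J⌋₊ = 0 := Nat.floor_of_nonpos g7.le
      rw [g8]
      have g9 : (0 : ℝ) ≤ ⌊((σ 1).rot v - k) * J⌋₊ := Nat.cast_nonneg _
      have g10 : 0 ≤ δ * J := mul_nonneg hδ0.le hJ0
      push_cast
      linarith
  have m2 : (((lr p q β J : ℝ) - lr p 0 v J) + ((lu (σ 1) p q k β J : ℝ) -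
      lu (σ 1) p 0 k v J)) ≤ 5 * δ * J + 3 := by
    rw [b1, b2, v1, v2, fq0]
    push_cast
    have e1 : (β : ℝ) * J ≤ v * J + δ * J := by
      have : (v : ℝ) * J + δ * J = (v + δ) * J := by ring
      rw [this]
      exact mul_le_mul_of_nonneg_right (by linarith) hJ0
    have e2 : q * J ≤ δ * J := mul_le_mul_of_nonneg_right hqδ.le hJ0
    linarith
  have n1 := mul_le_mul_of_nonneg_right m1 hlog2.le
  have n2 := mul_le_mul_of_nonneg_right m2 hlog2.le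
  have n3 : (53 * δ + 4 * q) * J * Real.log 2 ≤ 57 * δ * J * Real.log 2 := by
    refine mul_le_mul_of_nonneg_right (mul_le_mul_of_nonneg_right (by linarith) hJ0) hlog2.le
  have n4 : 64 * δ * J * Real.log 2 + 5 * Real.log 2 ≤ h * J / 2 + 5 := by
    have e1 : 64 * δ * J * Real.log 2 ≤ h / 2 * J := by
      have e2 : 64 * δ * J ≤ h / 2 * J := mul_le_mul_of_nonneg_right (by linarith) hJ0
      have e3 : 0 ≤ 64 * δ * J := by positivity
      have e4 : 64 * δ * J * Real.log 2 ≤ 64 * δ * J * 1 :=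
        mul_le_mul_of_nonneg_left hlog21.le e3
      linarith
    linarith
  have n5 : (2 * δ * J + 2) * Real.log 2 + (5 * δ * J + 3) * Real.log 2 +
      57 * δ * J * Real.log 2 = 64 * δ * J * Real.log 2 + 5 * Real.log 2 := by ring
  rw [← hE] at k2
  have n6 : h * J = h * J / 2 + J * (h / 4) + J * (h / 4) := by ring
  have n7 := abs_nonneg E
  linarith

end Pool.S6V
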